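import Pool.Agent.Helper94.AB.Defs

/-!
# AB-4 BASE: the action on `X / U`

`S : InvSub D` is an invariant subspace `U = S.U` of the lineality space, with an idempotent
`e = S.e` of `E × ℝ` of image `U × 0`; `S.base g = e + (1 - e) hat g (1 - e)`;
`act T x = (T (x, 1)).1`; `act (hat g) x = g x` (`Pool.SV.act_hat`).

* `exists_base_pt`: take any `x ∈ X`; `e (x, 1) = (u, 0)` with `u ∈ U` (as `e (e v) = e v`, use
  `S.range`); put `x₁ = x - u`, in `X` since `u` is in the lineality space (`S.le`,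
  `mem_linSub` with `t = -1`), and `e (x₁, 1) = e (x, 1) - e (u, 0) = 0`.
* `base_split`: `S.base g (x₁, 1) = e (x₁, 1) + (1 - e) (hat g (x₁, 1)) = hat g (x₁, 1) -
  e (hat g (x₁, 1))`, whose first component is `g x₁ - u'`, `u' ∈ U`.
* `base_mem`: `act (S.base g) x₁ = g x₁ - u' ∈ X`.
* `base_compact`: `K = {act T x₁ | T ∈ closure {S.base g | ‖S.base g - 1‖ ≤ 1/2}}` is the
  continuous image of a compact set (`Alg E` is finite-dimensional). `K ⊆ X`: let `T` be in the
  closure. For every `x ∈ X`, `act (S.base g) x ∈ X` for all `g`: write `e (x, 1) = (u, 0)`, then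
  `S.base g (x, 1) = (u, 0) + hat g (x - u, 1) - (u', 0)`. So `act T x ∈ closure X`. Also
  `‖T - 1‖ ≤ 1/2`, so `T` is invertible, and it preserves the height (the second component, which
  `S.base g` preserves): so `x ↦ act T x` is an affine bijection of `E`, an open map, and it maps
  the open set `X` into `interior (closure X) = X` (`X` is open and convex:
  `Convex.interior_closure_eq_interior_of_nonempty_interior` or similar).
-/

open Set

set_option linter.unusedSectionVars false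

namespace Pool.AF

open Pool.SV

section

variable {E : Type*} [NormedAddCommGroup E] [NormedSpace ℝ E] [FiniteDimensional ℝ E]
  {D : Geo E}

private theorem bc_hat_pt (g : D.Γ) (x : E) : hatHom D.Γ g (x, 1) = (g.1 x, 1) := by
  have h : hatHom D.Γ g (x, 1) = (g.1.linear x + (1 : ℝ) • g.1 0, (1 : ℝ)) := rfl
  have h2 : g.1 x = g.1.linear x + g.1 0 := by
    have := g.1.map_vadd 0 x
    simpa using this
  rw [h, one_smul, ← h2]

private theorem bc_hat_snd (g : D.Γ) (v : E × ℝ) : (hatHom D.Γ g v).2 = v.2 := rfl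

private theorem bc_idem (S : InvSub D) (v : E × ℝ) : S.e (S.e v) = S.e v :=
  congrArg (fun T : Alg E => T v) S.idem

private theorem bc_e_snd (S : InvSub D) (v : E × ℝ) : (S.e v).2 = 0 :=
  ((S.range (S.e v)).1 (bc_idem S v)).1

private theorem bc_e_fst (S : InvSub D) (v : E × ℝ) : (S.e v).1 ∈ S.U :=
  ((S.range (S.e v)).1 (bc_idem S v)).2

private theorem bc_e_eq (S : InvSub D) (u : E) (hu : u ∈ S.U) : S.e (u, 0) = (u, 0) :=
  (S.range (u, 0)).2 ⟨rfl, hu⟩

private theorem bc_e_self (S : InvSub D) (v : E × ℝ) : S.e v = ((S.e v).1, (0 : ℝ)) :=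
  Prod.ext rfl (bc_e_snd S v)

private theorem bc_base (S : InvSub D) (g : D.Γ) (v : E × ℝ) :
    S.base g v = S.e v + (hatHom D.Γ g (v - S.e v) - S.e (hatHom D.Γ g (v - S.e v))) := rfl

private theorem bc_add (S : InvSub D) {x u : E} (hx : x ∈ D.X) (hu : u ∈ S.U) : x + u ∈ D.X := by
  have := S.le hu x hx 1
  rwa [one_smul] at this

private theorem bc_sub (S : InvSub D) {x u : E} (hx : x ∈ D.X) (hu : u ∈ S.U) : x - u ∈ D.X := by
  rw [sub_eq_add_neg]
  exact bc_add S hx (S.U.neg_mem hu)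

/-- the key computation -/
private theorem bc_act (S : InvSub D) (g : D.Γ) (x : E) : ∃ u ∈ S.U, ∃ u' ∈ S.U,
    (S.e (x, 1) = (u, 0)) ∧ act (S.base g) x = u + (g.1 (x - u) - u') := by
  refine ⟨(S.e (x, 1)).1, bc_e_fst S _, (S.e (hatHom D.Γ g ((x, 1) - S.e (x, 1)))).1,
    bc_e_fst S _, bc_e_self S _, ?_⟩
  unfold act
  rw [bc_base]
  have h1 : ((x, (1 : ℝ)) - S.e (x, 1) : E × ℝ) = (x - (S.e (x, 1)).1, 1) := by
    refine Prod.ext rfl ?_
    change 1 - (S.e (x, 1)).2 = 1
    rw [bc_e_snd, sub_zero]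
  rw [h1, bc_hat_pt]
  rfl

private theorem bc_act_mem (S : InvSub D) (g : D.Γ) (x : E) (hx : x ∈ D.X) :
    act (S.base g) x ∈ D.X := by
  obtain ⟨u, hu, u', hu', -, h⟩ := bc_act S g x
  rw [h, add_comm]
  exact bc_add S (bc_sub S (D.inv _ g.2 _ (bc_sub S hx hu)) hu') hu

private theorem bc_base_snd (S : InvSub D) (g : D.Γ) (v : E × ℝ) : (S.base g v).2 = v.2 := by
  rw [bc_base]
  change (S.e v).2 + ((v - S.e v).2 - (S.e (hatHom D.Γ g (v - S.e v))).2) = v.2
  rw [bc_e_snd, bc_e_snd, zero_add, sub_zero]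
  change v.2 - (S.e v).2 = v.2
  rw [bc_e_snd, sub_zero]

theorem exists_base_pt (S : InvSub D) : ∃ x₁ ∈ D.X, S.e (x₁, 1) = 0 := by
  obtain ⟨x, hx⟩ := D.nonempty
  refine ⟨x - (S.e (x, 1)).1, bc_sub S hx (bc_e_fst S _), ?_⟩
  have h1 : ((x - (S.e (x, 1)).1, (1 : ℝ)) : E × ℝ) = (x, 1) - S.e (x, 1) := by
    refine Prod.ext rfl ?_
    change (1 : ℝ) = 1 - (S.e (x, 1)).2
    rw [bc_e_snd, sub_zero]
  rw [h1, map_sub, bc_idem, sub_self]

theorem base_split (S : InvSub D) (x₁ : E) (h0 : S.e (x₁, 1) = 0) (g : D.Γ) :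
    g.1 x₁ - act (S.base g) x₁ ∈ S.U := by
  obtain ⟨u, hu, u', hu', h1, h⟩ := bc_act S g x₁
  have h2 : u = 0 := by
    rw [h0] at h1
    exact (congrArg Prod.fst h1).symm
  rw [h, h2, zero_add, sub_zero, sub_sub_cancel]
  exact hu'

theorem base_mem (S : InvSub D) (x₁ : E) (hx : x₁ ∈ D.X) (h0 : S.e (x₁, 1) = 0) (g : D.Γ) :
    act (S.base g) x₁ ∈ D.X := bc_act_mem S g x₁ hx

private theorem bc_lim (T : Alg E) (h1 : ∀ x ∈ D.X, act T x ∈ closure D.X)
    (h2 : ∀ v : E × ℝ, (T v).2 = v.2) (h3 : ‖T - 1‖ ≤ 1 / 2) : ∀ x ∈ D.X, act T x ∈ D.X := by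
  let L : E →ₗ[ℝ] E := (LinearMap.fst ℝ E ℝ) ∘ₗ (T : (E × ℝ) →ₗ[ℝ] (E × ℝ)) ∘ₗ
    (LinearMap.inl ℝ E ℝ)
  have hL : ∀ x : E, L x = (T (x, 0)).1 := fun x => rfl
  have hinj : Function.Injective L := by
    rw [injective_iff_map_eq_zero]
    intro x hx
    have h4 : T (x, 0) = 0 := Prod.ext hx (h2 (x, 0))
    have h5 : (T - 1) (x, 0) = -(x, (0 : ℝ)) := by
      change T (x, 0) - (x, 0) = _
      rw [h4, zero_sub]
    have h6 := (T - 1).le_opNorm (x, 0)
    rw [h5, norm_neg] at h6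
    have h7 : ‖(x, (0 : ℝ))‖ ≤ 1 / 2 * ‖(x, (0 : ℝ))‖ :=
      h6.trans (mul_le_mul_of_nonneg_right h3 (norm_nonneg _))
    have h8 : ‖(x, (0 : ℝ))‖ ≤ 0 := by linarith
    have h9 := norm_le_zero_iff.1 h8
    exact congrArg Prod.fst h9
  have hsurj : Function.Surjective L := LinearMap.surjective_of_injective hinj
  have hopen : IsOpenMap L := L.isOpenMap_of_finiteDimensional hsurj
  have hact : ∀ x : E, act T x = L x + (T (0, 1)).1 := by
    intro x
    rw [hL]
    unfold act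
    rw [← Prod.fst_add, ← map_add]
    congr 2
    ext
    · simp
    · simp
  have hopen' : IsOpen ((fun x => act T x) '' D.X) := by
    have h4 : (fun x => act T x) '' D.X = (fun y => y + (T (0, 1)).1) '' (L '' D.X) := by
      rw [Set.image_image]
      exact Set.image_congr fun x _ => hact x
    rw [h4]
    exact (Homeomorph.addRight (T (0, 1)).1).isOpenMap _ (hopen _ D.isOpen)
  have hsub : (fun x => act T x) '' D.X ⊆ interior (closure D.X) := by
    rw [hopen'.subset_interior_iff]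
    rintro _ ⟨x, hx, rfl⟩
    exact h1 x hx
  rw [D.convex.interior_closure_eq_interior_of_nonempty_interior
    (by rw [D.isOpen.interior_eq]; exact D.nonempty), D.isOpen.interior_eq] at hsub
  intro x hx
  exact hsub ⟨x, hx, rfl⟩

theorem base_compact (S : InvSub D) (x₁ : E) (hx : x₁ ∈ D.X) (h0 : S.e (x₁, 1) = 0) :
    ∃ K ⊆ D.X, IsCompact K ∧ ∀ g : D.Γ, ‖S.base g - 1‖ ≤ 1 / 2 → act (S.base g) x₁ ∈ K := by
  haveI : FiniteDimensional ℝ (Alg E) := inferInstance
  haveI : ProperSpace (Alg E) := FiniteDimensional.proper ℝ (Alg E)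
  set B : Set (Alg E) := {T | (∃ g : D.Γ, S.base g = T) ∧ ‖T - 1‖ ≤ 1 / 2} with hB
  have hcont : ∀ x : E, Continuous fun T : Alg E => act T x := by
    intro x
    unfold act
    fun_prop
  have hclosed : IsClosed {T : Alg E | ‖T - 1‖ ≤ 1 / 2} :=
    isClosed_le (by fun_prop) continuous_const
  have hball : B ⊆ {T : Alg E | ‖T - 1‖ ≤ 1 / 2} := fun T hT => hT.2
  have hBball : closure B ⊆ {T : Alg E | ‖T - 1‖ ≤ 1 / 2} := closure_minimal hball hclosed
  have hcomp : IsCompact (closure B) := by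
    refine Metric.isCompact_of_isClosed_isBounded isClosed_closure ?_
    refine (Metric.isBounded_closedBall (x := (1 : Alg E)) (r := 1 / 2)).subset ?_
    intro T hT
    rw [Metric.mem_closedBall, dist_eq_norm]
    exact hBball hT
  refine ⟨(fun T => act T x₁) '' closure B, ?_, hcomp.image (hcont x₁), ?_⟩
  · rintro _ ⟨T, hT, rfl⟩
    refine bc_lim (D := D) T ?_ ?_ (hBball hT) x₁ hx
    · intro x hx'
      have h1 : Set.MapsTo (fun T : Alg E => act T x) B D.X := by
        rintro _ ⟨⟨g, rfl⟩, -⟩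
        exact bc_act_mem S g x hx'
      exact h1.closure (hcont x) hT
    · intro v
      have h2 : closure B ⊆ {T : Alg E | (T v).2 = v.2} := by
        refine closure_minimal ?_ (isClosed_eq (by fun_prop) continuous_const)
        rintro _ ⟨⟨g, rfl⟩, -⟩
        exact bc_base_snd S g v
      exact h2 hT
  · intro g hg
    exact ⟨S.base g, subset_closure ⟨⟨g, rfl⟩, hg⟩, rfl⟩

end

end Pool.AF
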