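import Pool.Agent.Helper94.AB.Defs

/-!
# AB-8 CONN: a subgroup of finite index with irreducible Zariski closure

Proof. Let `k = MvPolynomial (ι × ι) ℝ`, and for `g ∈ G` let `ev g : k →+* ℝ` be the evaluation at
the entries of `M g`; its kernel is a prime ideal. Give `G` the topology induced by
`g ↦ ker (ev g) ∈ PrimeSpectrum k` (`TopologicalSpace.induced`). The closed sets are the
`{g | ∀ p ∈ S, ev g p = 0}`. As `PrimeSpectrum k` is a Noetherian space (`k` is Noetherian), so is
`G` (`Topology.IsInducing.noetherianSpace`). For fixed `h`, `g ↦ h * g` and `g ↦ g * h` are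
continuous: the entries of `M (h * g) = M h * M g` are polynomials (of degree one) in the entries
of `M g`.

If `A`, `B ⊆ G` are irreducible (preirreducible) then so is `A * B`: let `A * B ⊆ C₁ ∪ C₂`, closed.
For `a ∈ A` the set `a B` is irreducible, so contained in `C₁` or in `C₂`. The sets
`A i = {a ∈ A | a B ⊆ C i} = ⋂ b ∈ B, {a | a b ∈ C i}` are closed in `A` and cover `A`. So `A = A i` for
some `i`.

Let `Z = irreducibleComponent 1`, a maximal irreducible set (closed), containing `1`. `Z * Z` is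
irreducible and contains `Z`, so `Z * Z = Z`; more generally an irreducible set containing `1` is
contained in `Z`: (if `A ∋ 1` is irreducible then `A * Z ⊇ A ∪ Z` is irreducible so `A * Z = Z`).
For `z ∈ Z` the set `z⁻¹ Z` is irreducible and contains `1 = z⁻¹ z`, so it is contained in `Z`, so
`z⁻¹ ∈ Z`. So `Z` is a subgroup `G₁`. Every coset `g Z` is an irreducible component (translation
is a homeomorphism), different cosets are different sets, and a Noetherian space has finitely
many irreducible components (`TopologicalSpace.NoetherianSpace.finite_irreducibleComponents`): so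
`G₁` has finite index.

For linear functionals `ℓ₁`, `ℓ₂` the sets `{g | ℓ i (M g) = 0}` are closed; if they cover `Z`, one
of them contains `Z`.
-/

open Set

set_option linter.unusedSectionVars false

namespace Pool.AF

section conn

variable {G ι : Type*} [Group G] [Fintype ι] [DecidableEq ι] (M : G →* Matrix ι ι ℝ)

/-- Evaluation of polynomials in the entries at `M g`. -/
private noncomputable def connEv (g : G) : MvPolynomial (ι × ι) ℝ →ₐ[ℝ] ℝ :=
  MvPolynomial.aeval (fun ij : ι × ι => M g ij.1 ij.2)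

private noncomputable def connPhi (g : G) : PrimeSpectrum (MvPolynomial (ι × ι) ℝ) :=
  ⟨RingHom.ker (connEv M g), RingHom.ker_isPrime _⟩

private noncomputable def connL (h : G) : MvPolynomial (ι × ι) ℝ →ₐ[ℝ] MvPolynomial (ι × ι) ℝ :=
  MvPolynomial.aeval (fun ij : ι × ι =>
    ∑ l, MvPolynomial.C (M h ij.1 l) * MvPolynomial.X (l, ij.2))

private noncomputable def connR (h : G) : MvPolynomial (ι × ι) ℝ →ₐ[ℝ] MvPolynomial (ι × ι) ℝ :=
  MvPolynomial.aeval (fun ij : ι × ι =>
    ∑ l, MvPolynomial.X (ij.1, l) * MvPolynomial.C (M h l ij.2))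

private theorem connEv_L (h g : G) : (connEv M g).comp (connL M h) = connEv M (h * g) := by
  apply MvPolynomial.algHom_ext
  intro ij
  simp only [AlgHom.comp_apply, connL, connEv, MvPolynomial.aeval_X, map_sum, map_mul,
    MvPolynomial.aeval_C, Matrix.mul_apply]
  rfl

private theorem connEv_R (h g : G) : (connEv M g).comp (connR M h) = connEv M (g * h) := by
  apply MvPolynomial.algHom_ext
  intro ij
  simp only [AlgHom.comp_apply, connR, connEv, MvPolynomial.aeval_X, map_sum, map_mul,
    MvPolynomial.aeval_C, Matrix.mul_apply]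
  rfl

private theorem connPhi_L (h g : G) : connPhi M (h * g) =
    PrimeSpectrum.comap (connL M h).toRingHom (connPhi M g) := by
  apply PrimeSpectrum.ext
  ext p
  change connEv M (h * g) p = 0 ↔ connEv M g (connL M h p) = 0
  rw [← connEv_L]
  rfl

private theorem connPhi_R (h g : G) : connPhi M (g * h) =
    PrimeSpectrum.comap (connR M h).toRingHom (connPhi M g) := by
  apply PrimeSpectrum.ext
  ext p
  change connEv M (g * h) p = 0 ↔ connEv M g (connR M h p) = 0
  rw [← connEv_R]
  rfl

/-- The linear functional as a polynomial. -/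
private noncomputable def connPoly (ℓ : Matrix ι ι ℝ →ₗ[ℝ] ℝ) : MvPolynomial (ι × ι) ℝ :=
  ∑ ij : ι × ι, MvPolynomial.C (ℓ (Matrix.single ij.1 ij.2 1)) * MvPolynomial.X ij

private theorem connEv_poly (ℓ : Matrix ι ι ℝ →ₗ[ℝ] ℝ) (g : G) :
    connEv M g (connPoly ℓ) = ℓ (M g) := by
  have h1 : M g = ∑ ij : ι × ι, (M g ij.1 ij.2) • Matrix.single ij.1 ij.2 (1 : ℝ) := by
    conv_lhs => rw [Matrix.matrix_eq_sum_single (M g)]
    rw [Fintype.sum_prod_type]
    refine Finset.sum_congr rfl fun i _ => Finset.sum_congr rfl fun j _ => ?_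
    rw [Matrix.smul_single, smul_eq_mul, mul_one]
  conv_rhs => rw [h1]
  rw [map_sum, connPoly, map_sum]
  refine Finset.sum_congr rfl fun ij _ => ?_
  rw [map_smul, map_mul, connEv, MvPolynomial.aeval_C, MvPolynomial.aeval_X, smul_eq_mul,
    mul_comm]
  rfl

private theorem conn_mul_irr [TopologicalSpace G] (hL : ∀ h : G, Continuous fun g => h * g)
    (hR : ∀ h : G, Continuous fun g => g * h) {A B : Set G} (hA : IsIrreducible A)
    (hB : IsIrreducible B) : IsIrreducible (Set.image2 (fun a b => a * b) A B) := by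
  refine ⟨hA.1.image2 hB.1, ?_⟩
  rw [isPreirreducible_iff_isClosed_union_isClosed]
  intro C₁ C₂ h₁ h₂ hC
  have key : ∀ a ∈ A, (∀ b ∈ B, a * b ∈ C₁) ∨ (∀ b ∈ B, a * b ∈ C₂) := by
    intro a ha
    have := (isPreirreducible_iff_isClosed_union_isClosed.1 hB.2)
      ((fun g => a * g) ⁻¹' C₁) ((fun g => a * g) ⁻¹' C₂) (h₁.preimage (hL a))
      (h₂.preimage (hL a)) (fun b hb => hC ⟨a, ha, b, hb, rfl⟩)
    exact this
  have hcl : ∀ C : Set G, IsClosed C → IsClosed {a : G | ∀ b ∈ B, a * b ∈ C} := by
    intro C hC'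
    have : {a : G | ∀ b ∈ B, a * b ∈ C} = ⋂ b ∈ B, (fun g => g * b) ⁻¹' C := by
      ext a
      simp
    rw [this]
    exact isClosed_biInter fun b _ => hC'.preimage (hR b)
  rcases (isPreirreducible_iff_isClosed_union_isClosed.1 hA.2) _ _ (hcl C₁ h₁) (hcl C₂ h₂)
    (fun a ha => key a ha) with h | h
  · left
    rintro _ ⟨a, ha, b, hb, rfl⟩
    exact h ha b hb
  · right
    rintro _ ⟨a, ha, b, hb, rfl⟩
    exact h ha b hb

private theorem conn_top [TopologicalSpace G] [TopologicalSpace.NoetherianSpace G]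
    (hL : ∀ h : G, Continuous fun g => h * g) (hR : ∀ h : G, Continuous fun g => g * h) :
    ∃ G₁ : Subgroup G, G₁.FiniteIndex ∧ IsIrreducible (G₁ : Set G) := by
  set Z : Set G := irreducibleComponent (1 : G) with hZ
  have hZi : IsIrreducible Z := isIrreducible_irreducibleComponent
  have h1Z : (1 : G) ∈ Z := mem_irreducibleComponent
  have hsub : ∀ A : Set G, IsIrreducible A → (1 : G) ∈ A → A ⊆ Z := by
    intro A hA h1
    have h2 := conn_mul_irr hL hR hA hZi
    have h3 : Z ⊆ Set.image2 (fun a b => a * b) A Z := fun z hz => ⟨1, h1, z, hz, one_mul z⟩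
    have h4 := eq_irreducibleComponent h2.2 h3
    rw [← hZ] at h4
    intro a ha
    rw [← h4]
    exact ⟨a, ha, 1, h1Z, mul_one a⟩
  have himg : ∀ (g : G) (A : Set G), IsIrreducible A → IsIrreducible ((fun x => g * x) '' A) :=
    fun g A hA => hA.image _ (hL g).continuousOn
  have hmul : ∀ a ∈ Z, ∀ b ∈ Z, a * b ∈ Z := by
    intro a ha b hb
    exact hsub _ (conn_mul_irr hL hR hZi hZi) ⟨1, h1Z, 1, h1Z, one_mul 1⟩ ⟨a, ha, b, hb, rfl⟩
  have hinv : ∀ a ∈ Z, a⁻¹ ∈ Z := by
    intro a ha
    exact hsub _ (himg a⁻¹ Z hZi) ⟨a, ha, inv_mul_cancel a⟩ ⟨1, h1Z, mul_one _⟩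
  let G₁ : Subgroup G :=
    { carrier := Z
      mul_mem' := fun {a b} ha hb => hmul a ha b hb
      one_mem' := h1Z
      inv_mem' := fun {a} ha => hinv a ha }
  have hcomp : ∀ a b : G, b ∈ irreducibleComponent a → a⁻¹ * b ∈ G₁ := by
    intro a b hb
    have := hsub _ (himg a⁻¹ _ (isIrreducible_irreducibleComponent (x := a)))
      ⟨a, mem_irreducibleComponent, inv_mul_cancel a⟩
    exact this ⟨b, hb, rfl⟩
  refine ⟨G₁, ?_, hZi⟩
  have hfin : (irreducibleComponents G).Finite :=
    TopologicalSpace.NoetherianSpace.finite_irreducibleComponents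
  have : Finite (irreducibleComponents G) := hfin
  have : Finite (G ⧸ G₁) := by
    refine Finite.of_injective (fun q : G ⧸ G₁ =>
      (⟨irreducibleComponent (Quotient.out q), irreducibleComponent_mem_irreducibleComponents _⟩ :
        irreducibleComponents G)) ?_
    intro q r hqr
    have h1 : irreducibleComponent (Quotient.out q) = irreducibleComponent (Quotient.out r) :=
      congrArg Subtype.val hqr
    have h2 : (Quotient.out r) ∈ irreducibleComponent (Quotient.out q) := by
      rw [h1]
      exact mem_irreducibleComponent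
    have h3 := hcomp _ _ h2
    have h4 : ((Quotient.out q : G) : G ⧸ G₁) = ((Quotient.out r : G) : G ⧸ G₁) :=
      QuotientGroup.eq.2 h3
    have h5 : ((Quotient.out q : G) : G ⧸ G₁) = q := Quotient.out_eq' q
    have h6 : ((Quotient.out r : G) : G ⧸ G₁) = r := Quotient.out_eq' r
    rw [← h5, h4, h6]
  exact Subgroup.finiteIndex_of_finite_quotient

end conn

theorem conn {G ι : Type*} [Group G] [Fintype ι] [DecidableEq ι] (M : G →* Matrix ι ι ℝ) :
    ∃ G₁ : Subgroup G, G₁.FiniteIndex ∧ ∀ ℓ₁ ℓ₂ : Matrix ι ι ℝ →ₗ[ℝ] ℝ,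
      (∀ g ∈ G₁, ℓ₁ (M g) * ℓ₂ (M g) = 0) →
        (∀ g ∈ G₁, ℓ₁ (M g) = 0) ∨ ∀ g ∈ G₁, ℓ₂ (M g) = 0 := by
  letI : TopologicalSpace G := TopologicalSpace.induced (connPhi M) inferInstance
  have hind : Topology.IsInducing (connPhi M) := ⟨rfl⟩
  have : TopologicalSpace.NoetherianSpace G := hind.noetherianSpace
  have hL : ∀ h : G, Continuous fun g : G => h * g := by
    intro h
    rw [hind.continuous_iff]
    have : connPhi M ∘ (fun g : G => h * g) =
        (PrimeSpectrum.comap (connL M h).toRingHom) ∘ connPhi M := by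
      funext g
      exact connPhi_L M h g
    rw [this]
    exact (PrimeSpectrum.continuous_comap _).comp hind.continuous
  have hR : ∀ h : G, Continuous fun g : G => g * h := by
    intro h
    rw [hind.continuous_iff]
    have : connPhi M ∘ (fun g : G => g * h) =
        (PrimeSpectrum.comap (connR M h).toRingHom) ∘ connPhi M := by
      funext g
      exact connPhi_R M h g
    rw [this]
    exact (PrimeSpectrum.continuous_comap _).comp hind.continuous
  obtain ⟨G₁, hfi, hirr⟩ := conn_top hL hR
  refine ⟨G₁, hfi, fun ℓ₁ ℓ₂ hl => ?_⟩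
  have hcl : ∀ ℓ : Matrix ι ι ℝ →ₗ[ℝ] ℝ, IsClosed {g : G | ℓ (M g) = 0} := by
    intro ℓ
    have : {g : G | ℓ (M g) = 0} = connPhi M ⁻¹' (PrimeSpectrum.zeroLocus {connPoly ℓ}) := by
      ext g
      rw [Set.mem_preimage, PrimeSpectrum.mem_zeroLocus, Set.singleton_subset_iff]
      change ℓ (M g) = 0 ↔ connEv M g (connPoly ℓ) = 0
      rw [connEv_poly]
    rw [this]
    exact (PrimeSpectrum.isClosed_zeroLocus _).preimage hind.continuous
  rcases (isPreirreducible_iff_isClosed_union_isClosed.1 hirr.2) _ _ (hcl ℓ₁) (hcl ℓ₂)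
    (fun g hg => mul_eq_zero.1 (hl g hg)) with h | h
  · exact Or.inl fun g hg => h hg
  · exact Or.inr fun g hg => h hg

end Pool.AF
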