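import Pool.Agent.Helper94.AM.Four

/-!
# Project AB: convex affine manifolds with lineality space of dimension at most three

Definitions common to the modules.
-/

open Set Finset

namespace Pool.AF

open Pool.SV

section

variable {E : Type*} [NormedAddCommGroup E] [NormedSpace ℝ E] [FiniteDimensional ℝ E]

/-- An invariant subspace `U` of the lineality space of `X`, with an idempotent `e` of
`End (E × ℝ)` of image `U × 0`. -/
structure InvSub (D : Geo E) where
  /-- the subspace -/
  U : Submodule ℝ E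
  /-- the idempotent -/
  e : Alg E
  le : U ≤ linSub D
  inv : ∀ g ∈ D.Γ, ∀ u ∈ U, g.linear u ∈ U
  idem : e * e = e
  range : ∀ v : E × ℝ, e v = v ↔ v.2 = 0 ∧ v.1 ∈ U

variable {D : Geo E}

theorem InvSub.inv' (S : InvSub D) (g : D.Γ) : (1 - S.e) * hatHom D.Γ g * S.e = 0 :=
  Pool.SV.Flag.hinv_of_range D S.U S.e S.idem S.range S.inv g

theorem InvSub.comp (S : InvSub D) : (1 - S.e) * (1 - S.e) = 1 - S.e := by
  simp only [mul_sub, sub_mul, mul_one, one_mul, S.idem]
  simp

/-- The action on `E / U`, as the endomorphism `e + (1 - e) hat g (1 - e)` of `E × ℝ`. -/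
noncomputable def InvSub.base (S : InvSub D) : D.Γ →* Alg E where
  toFun g := S.e + (1 - S.e) * hatHom D.Γ g * (1 - S.e)
  map_one' := by
    rw [map_one, mul_one, S.comp]
    simp
  map_mul' g h := by
    rw [Pool.SV.Step.comp_mul (hatHom D.Γ) S.e S.idem S.inv']
    have q1 : S.e * (1 - S.e) = 0 := by rw [mul_sub, S.idem, mul_one, sub_self]
    have q2 : (1 - S.e) * S.e = 0 := by rw [sub_mul, S.idem, one_mul, sub_self]
    symm
    calc (S.e + (1 - S.e) * hatHom D.Γ g * (1 - S.e)) *
          (S.e + (1 - S.e) * hatHom D.Γ h * (1 - S.e))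
        = S.e * S.e + (S.e * (1 - S.e)) * hatHom D.Γ h * (1 - S.e)
          + (1 - S.e) * hatHom D.Γ g * ((1 - S.e) * S.e)
          + ((1 - S.e) * hatHom D.Γ g * (1 - S.e)) *
            ((1 - S.e) * hatHom D.Γ h * (1 - S.e)) := by
          noncomm_ring
      _ = _ := by rw [S.idem, q1, q2]; simp

theorem InvSub.base_apply (S : InvSub D) (g : D.Γ) :
    S.base g = S.e + (1 - S.e) * hatHom D.Γ g * (1 - S.e) := rfl

/-- The linear action on `U`. -/
noncomputable def InvSub.rep (S : InvSub D) : D.Γ →* (S.U →L[ℝ] S.U) where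
  toFun g := LinearMap.toContinuousLinearMap
    ((g.1.linear : E →ₗ[ℝ] E).restrict (fun u hu => S.inv g.1 g.2 u hu))
  map_one' := rfl
  map_mul' _ _ := rfl

theorem InvSub.rep_apply (S : InvSub D) (g : D.Γ) (u : S.U) :
    ((S.rep g u : S.U) : E) = g.1.linear (u : E) := rfl

end

/-- The sum of the absolute values of the entries. -/
def nm {m n : Type*} [Fintype m] [Fintype n] (M : Matrix m n ℝ) : ℝ := ∑ i, ∑ j, |M i j|

end Pool.AF
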