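import Pool.Agent.Helper94.AB.Defs

/-!
# AB-12 DENSE




`dense_pair`: for `ε > 0` let `W ε` be the span of the vectors `ρ c x`, `c ∈ G₀`, `‖τ c - 1‖ < ε`. It
decreases with `ε`; let `ε₀` be such that `W ε₀` has minimal dimension, so `W ε = W ε₀ =: W` for all
`0 < ε ≤ ε₀`. There is `ε₂ ≤ ε₀` such that `‖τ c - 1‖ < ε₂` and `‖τ c' - 1‖ < ε₂` imply
`‖τ (c * c') - 1‖ < ε₀`. So `ρ c` maps `W = W ε₂` into `W ε₀ = W` for `c ∈ G₀` with `‖τ c - 1‖ < ε₂`.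
By `hirr ε₂`, `W = ⊥` or `W = ⊤`, and `x ∈ W`, `x ≠ 0`, so `W = ⊤`. Suppose that `y (ρ f x) = 0` for all
`f ∈ G₀` with `‖τ f - τ g‖ < ε`. There is `ε' ≤ ε₀` such that `‖τ c - 1‖ < ε'` implies
`‖τ (g * c) - τ g‖ < ε`; so `y ∘ ρ g` vanishes at all `ρ c x` with `c ∈ G₀`, `‖τ c - 1‖ < ε'`, hence
on `W = ⊤`: `y ∘ ρ g = 0`, and `y = 0` as `ρ g` is surjective. Contradiction.
-/

open Set

set_option linter.unusedSectionVars false

namespace Pool.AF

theorem dense_pair {G R V : Type*} [Group G] [NormedRing R] [AddCommGroup V] [Module ℝ V]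
    [FiniteDimensional ℝ V] (τ : G →* R) (ρ : G →* (V →ₗ[ℝ] V)) (G₀ : Subgroup G)
    (hirr : ∀ ε : ℝ, 0 < ε → ∀ U : Submodule ℝ V,
      (∀ c ∈ G₀, ‖τ c - 1‖ < ε → ∀ u ∈ U, ρ c u ∈ U) → U = ⊥ ∨ U = ⊤)
    (x : V) (hx : x ≠ 0) (y : V →ₗ[ℝ] ℝ) (hy : y ≠ 0) (g : G) (hg : g ∈ G₀) (ε : ℝ)
    (hε : 0 < ε) : ∃ f ∈ G₀, ‖τ f - τ g‖ < ε ∧ y (ρ f x) ≠ 0 := by
  classical
  let S : ℝ → Set V := fun e => {v | ∃ c ∈ G₀, ‖τ c - 1‖ < e ∧ v = ρ c x}
  let W : ℝ → Submodule ℝ V := fun e => Submodule.span ℝ (S e)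
  have hmono : ∀ a b : ℝ, a ≤ b → W a ≤ W b := by
    intro a b hab
    apply Submodule.span_mono
    rintro v ⟨c, hc, hn, rfl⟩
    exact ⟨c, hc, lt_of_lt_of_le hn hab, rfl⟩
  have hex : ∃ n : ℕ, ∃ e : ℝ, 0 < e ∧ Module.finrank ℝ (W e) = n := ⟨_, 1, one_pos, rfl⟩
  obtain ⟨e0, he0, hn0⟩ := Nat.find_spec hex
  have hmin : ∀ e : ℝ, 0 < e → Module.finrank ℝ (W e0) ≤ Module.finrank ℝ (W e) := by
    intro e he
    rw [hn0]
    exact Nat.find_min' hex ⟨e, he, rfl⟩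
  have heq : ∀ e : ℝ, 0 < e → e ≤ e0 → W e = W e0 := fun e he hle =>
    Submodule.eq_of_le_of_finrank_le (hmono e e0 hle) (hmin e he)
  have hxW : ∀ e : ℝ, 0 < e → x ∈ W e := by
    intro e he
    apply Submodule.subset_span
    refine ⟨1, G₀.one_mem, ?_, ?_⟩
    · rw [map_one, sub_self, norm_zero]
      exact he
    · rw [map_one]
      rfl
  have hmul : ∀ c d : G, ∀ a : ℝ, a ≤ 1 → ‖τ c - 1‖ < a → ‖τ d - 1‖ < a →
      ‖τ (c * d) - 1‖ < 3 * a := by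
    intro c d a ha hc hd
    have h1 : τ (c * d) - 1 = (τ c - 1) * (τ d - 1) + (τ c - 1) + (τ d - 1) := by
      rw [map_mul]
      noncomm_ring
    have h2 : ‖(τ c - 1) * (τ d - 1)‖ ≤ ‖τ c - 1‖ * ‖τ d - 1‖ := norm_mul_le _ _
    have h3 : ‖τ c - 1‖ * ‖τ d - 1‖ ≤ ‖τ c - 1‖ * 1 :=
      mul_le_mul_of_nonneg_left (le_trans hd.le ha) (norm_nonneg _)
    have h4 : ‖(τ c - 1) * (τ d - 1) + (τ c - 1) + (τ d - 1)‖ ≤
        ‖(τ c - 1) * (τ d - 1)‖ + ‖τ c - 1‖ + ‖τ d - 1‖ :=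
      le_trans (norm_add_le _ _) (by gcongr; exact norm_add_le _ _)
    rw [h1]
    linarith
  have hWtop : W e0 = ⊤ := by
    have ha0 : 0 < min 1 (e0 / 3) := lt_min one_pos (by positivity)
    have ha1 : min 1 (e0 / 3) ≤ 1 := min_le_left _ _
    have ha3 : 3 * min 1 (e0 / 3) ≤ e0 := by
      have := min_le_right 1 (e0 / 3)
      linarith
    have hae : min 1 (e0 / 3) ≤ e0 := by linarith
    have hinv : ∀ c ∈ G₀, ‖τ c - 1‖ < min 1 (e0 / 3) → ∀ u ∈ W e0, ρ c u ∈ W e0 := by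
      intro c hc hcn u hu
      rw [← heq _ ha0 hae] at hu
      refine Submodule.span_induction (p := fun u _ => ρ c u ∈ W e0) ?_ ?_ ?_ ?_ hu
      · rintro v ⟨d, hd, hdn, rfl⟩
        apply Submodule.subset_span
        refine ⟨c * d, G₀.mul_mem hc hd, lt_of_lt_of_le (hmul c d _ ha1 hcn hdn) ha3, ?_⟩
        rw [map_mul]
        rfl
      · rw [map_zero]
        exact Submodule.zero_mem _
      · intro u v _ _ h1 h2
        rw [map_add]
        exact Submodule.add_mem _ h1 h2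
      · intro r u _ h1
        rw [map_smul]
        exact Submodule.smul_mem _ _ h1
    rcases hirr _ ha0 (W e0) hinv with h | h
    · exfalso
      have := hxW e0 he0
      rw [h, Submodule.mem_bot] at this
      exact hx this
    · exact h
  by_contra hcon
  push Not at hcon
  apply hy
  have hg1 : 0 < ‖τ g‖ + 1 := by positivity
  have he1 : 0 < min e0 (ε / (‖τ g‖ + 1)) := lt_min he0 (div_pos hε hg1)
  have hzero : ∀ u ∈ W (min e0 (ε / (‖τ g‖ + 1))), y (ρ g u) = 0 := by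
    intro u hu
    refine Submodule.span_induction (p := fun u _ => y (ρ g u) = 0) ?_ ?_ ?_ ?_ hu
    · rintro v ⟨c, hc, hcn, rfl⟩
      have h1 := hcon (g * c) (G₀.mul_mem hg hc) ?_
      · rw [map_mul] at h1
        exact h1
      · have h2 : τ (g * c) - τ g = τ g * (τ c - 1) := by
          rw [map_mul, mul_sub, mul_one]
        rw [h2]
        have h3 : ‖τ c - 1‖ < ε / (‖τ g‖ + 1) := lt_of_lt_of_le hcn (min_le_right _ _)
        calc ‖τ g * (τ c - 1)‖ ≤ ‖τ g‖ * ‖τ c - 1‖ := norm_mul_le _ _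
          _ ≤ (‖τ g‖ + 1) * ‖τ c - 1‖ :=
              mul_le_mul_of_nonneg_right (by linarith) (norm_nonneg _)
          _ < (‖τ g‖ + 1) * (ε / (‖τ g‖ + 1)) := mul_lt_mul_of_pos_left h3 hg1
          _ = ε := by field_simp
    · simp
    · intro u v _ _ h1 h2
      rw [map_add, map_add, h1, h2, add_zero]
    · intro r u _ h1
      rw [map_smul, map_smul, h1, smul_zero]
  have htop : W (min e0 (ε / (‖τ g‖ + 1))) = ⊤ := by
    rw [heq _ he1 (min_le_left _ _), hWtop]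
  apply LinearMap.ext
  intro v
  have h1 : ρ g (ρ g⁻¹ v) = v := by
    have h2 : ρ (g * g⁻¹) v = v := by
      rw [mul_inv_cancel, map_one]
      rfl
    rw [map_mul] at h2
    exact h2
  have h3 := hzero (ρ g⁻¹ v) (by rw [htop]; exact Submodule.mem_top)
  rw [h1] at h3
  rw [h3]
  rfl

end Pool.AF
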