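import Pool.Agent.Helper94.AB.Defs

/-!
# AB-9 FORM: an invariant form from an identity of matrix coefficients

Proof. The vectors `ρ g x` span `V` (their span is invariant and contains `x ≠ 0`); the subspace
`{v | ∀ g, y (ρ g v) = 0}` is invariant and not `⊤` (`y ≠ 0`), so it is `⊥`. In particular
`g ↦ y (ρ g x)` is not zero, so `y' ≠ 0` and `x' ≠ 0`, and the vectors `ρ g x'` span `V`.
For a finitely supported `c : G → ℝ` let `α c = ∑ c g • ρ g x ∈ V` and
`β c = ∑ (c g / χ g) • (y' ∘ ρ g⁻¹) ∈ V*`. For `h ∈ G`, using `hid` for `h * g`: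
`(β c) (ρ h⁻¹ x') = ∑ c g / χ g * y' (ρ (h * g)⁻¹ x') = s * χ h * ∑ c g * y (ρ (h * g) x)
= s * χ h * y (ρ h (α c))`. So `α c = 0 ↔ β c = 0`, and as `α` is surjective there is an injective
linear map `L : V → V*` with `L (α c) = β c`. Put `B v w = L v w`. For all `g`:
`L (ρ g v) = (χ g)⁻¹ • (L v ∘ ρ g⁻¹)` (check on `v = ρ h x`), that is
`B (ρ g v) (ρ g w) = (χ g)⁻¹ * B v w`. Taking determinants of the Gram matrices in a basis:
`det B = (χ g)⁻³ * det B` up to `det (ρ g) ^ 2 = 1`, and `det B ≠ 0`, so `χ g ^ 3 = 1`, `χ g = 1`. So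
`B` is invariant and nondegenerate. The form `B' v w = B w v` is also invariant, so
`B' v w = B (T v) w` with `T` commuting with the group, `T = c` by `schur_odd`
(`Pool/Agent/Helper94/AL/Burn.lean`, with `Δ = ⊤`). Then `B w v = c * B v w = c ^ 2 * B w v`, so
`c = 1` or `c = -1`; the second case is impossible, as an alternating form in dimension three is
degenerate (`det B = det (-B) = - det B`).
-/

open Set

set_option linter.unusedSectionVars false

namespace Pool.AF

private theorem fi_span_orbit {G V : Type*} [Group G] [AddCommGroup V] [Module ℝ V]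
    (ρ : G →* (V →ₗ[ℝ] V))
    (hirr : ∀ U : Submodule ℝ V, (∀ g, ∀ u ∈ U, ρ g u ∈ U) → U = ⊥ ∨ U = ⊤) (x : V)
    (hx : x ≠ 0) : Submodule.span ℝ (Set.range fun g => ρ g x) = ⊤ := by
  rcases hirr (Submodule.span ℝ (Set.range fun g => ρ g x)) (by
    intro g u hu
    induction hu using Submodule.span_induction with
    | mem u hu =>
      obtain ⟨h, rfl⟩ := hu
      refine Submodule.subset_span ⟨g * h, ?_⟩
      simp only [map_mul, Module.End.mul_apply]
    | zero => rw [map_zero]; exact Submodule.zero_mem _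
    | add u v _ _ hu hv => rw [map_add]; exact Submodule.add_mem _ hu hv
    | smul c u _ hu => rw [map_smul]; exact Submodule.smul_mem _ c hu) with h | h
  · exfalso
    have h1 : x ∈ Submodule.span ℝ (Set.range fun g => ρ g x) :=
      Submodule.subset_span ⟨1, by simp⟩
    rw [h] at h1
    exact hx ((Submodule.mem_bot ℝ).1 h1)
  · exact h

private theorem fi_annih_orbit {G V : Type*} [Group G] [AddCommGroup V] [Module ℝ V]
    (ρ : G →* (V →ₗ[ℝ] V))
    (hirr : ∀ U : Submodule ℝ V, (∀ g, ∀ u ∈ U, ρ g u ∈ U) → U = ⊥ ∨ U = ⊤) (y : V →ₗ[ℝ] ℝ)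
    (hy : y ≠ 0) (v : V) (hv : ∀ g, y (ρ g v) = 0) : v = 0 := by
  let U : Submodule ℝ V :=
    { carrier := {v | ∀ g, y (ρ g v) = 0}
      add_mem' := fun {a b} ha hb g => by
        change y (ρ g (a + b)) = 0
        rw [map_add, map_add, ha g, hb g, add_zero]
      zero_mem' := fun g => by rw [map_zero, map_zero]
      smul_mem' := fun c a ha g => by
        change y (ρ g (c • a)) = 0
        rw [map_smul, map_smul, ha g, smul_zero] }
  have hmem : ∀ v, v ∈ U ↔ ∀ g, y (ρ g v) = 0 := fun _ => Iff.rfl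
  rcases hirr U (by
    intro g u hu
    rw [hmem] at hu ⊢
    intro h
    have := hu (h * g)
    rwa [map_mul, Module.End.mul_apply] at this) with h | h
  · have : v ∈ U := hv
    rw [h] at this
    exact (Submodule.mem_bot ℝ).1 this
  · exfalso
    apply hy
    ext w
    have h1 : w ∈ U := by rw [h]; trivial
    have := (hmem w).1 h1 1
    simpa using this

/-- A nonzero form with `B (ρ g v) (ρ g w) = (χ g)⁻¹ * B v w`. -/
private theorem fi_exists_form {G V : Type*} [Group G] [AddCommGroup V] [Module ℝ V]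
    (ρ : G →* (V →ₗ[ℝ] V))
    (hirr : ∀ U : Submodule ℝ V, (∀ g, ∀ u ∈ U, ρ g u ∈ U) → U = ⊥ ∨ U = ⊤)
    (χ : G → ℝ) (hχ0 : ∀ g, 0 < χ g)
    (hχ : ∀ g h, χ (g * h) = χ g * χ h) (x x' : V) (y y' : V →ₗ[ℝ] ℝ) (hx : x ≠ 0) (hy : y ≠ 0)
    (s : ℝ) (hs : s ≠ 0) (hid : ∀ g, y' (ρ g⁻¹ x') = s * χ g * y (ρ g x)) :
    ∃ L : V →ₗ[ℝ] V →ₗ[ℝ] ℝ, (∀ v, L v = 0 → v = 0) ∧
      ∀ g v w, L (ρ g v) (ρ g w) = (χ g)⁻¹ * L v w := by
  classical
  have hx' : x' ≠ 0 := by
    intro h
    apply hx
    refine fi_annih_orbit ρ hirr y hy x fun g => ?_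
    have h1 := hid g
    rw [h, map_zero, map_zero] at h1
    have h2 : s * χ g ≠ 0 := mul_ne_zero hs (hχ0 g).ne'
    exact (mul_eq_zero.1 h1.symm).resolve_left h2
  have hspan := fi_span_orbit ρ hirr x hx
  have hspan' := fi_span_orbit ρ hirr x' hx'
  set α : (G →₀ ℝ) →ₗ[ℝ] V := Finsupp.linearCombination ℝ (fun g => ρ g x) with hα
  set β : (G →₀ ℝ) →ₗ[ℝ] (V →ₗ[ℝ] ℝ) :=
    Finsupp.linearCombination ℝ (fun g => (χ g)⁻¹ • (y' ∘ₗ ρ g⁻¹)) with hβ
  have hαs : ∀ g : G, ∀ c : ℝ, α (Finsupp.single g c) = c • ρ g x := fun g c => by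
    rw [hα, Finsupp.linearCombination_single]
  have hβs : ∀ g : G, ∀ c : ℝ, β (Finsupp.single g c) = c • ((χ g)⁻¹ • (y' ∘ₗ ρ g⁻¹)) :=
    fun g c => by rw [hβ, Finsupp.linearCombination_single]
  have hsurj : Function.Surjective α := by
    rw [← LinearMap.range_eq_top, hα, Finsupp.range_linearCombination]
    exact hspan
  have key : ∀ h : G, ∀ c : G →₀ ℝ, (β c) (ρ h⁻¹ x') = s * χ h * y (ρ h (α c)) := by
    intro h c
    induction c using Finsupp.induction_linear with
    | zero => simp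
    | add a b ha hb =>
      rw [map_add, map_add, LinearMap.add_apply, ha, hb, map_add, map_add, mul_add]
    | single g c =>
      rw [hαs, hβs]
      simp only [LinearMap.smul_apply, LinearMap.comp_apply, smul_eq_mul, map_smul]
      have e1 : ρ g⁻¹ (ρ h⁻¹ x') = ρ (h * g)⁻¹ x' := by
        rw [mul_inv_rev, map_mul, Module.End.mul_apply]
      have e2 : ρ h (ρ g x) = ρ (h * g) x := by rw [map_mul, Module.End.mul_apply]
      rw [e1, e2, hid (h * g), hχ]
      have h3 := (hχ0 g).ne'
      field_simp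
  have hkey1 : ∀ c, α c = 0 → β c = 0 := by
    intro c hc
    have h1 : ∀ w ∈ Submodule.span ℝ (Set.range fun g => ρ g x'), (β c) w = 0 := by
      intro w hw
      induction hw using Submodule.span_induction with
      | mem w hw =>
        obtain ⟨g, rfl⟩ := hw
        have := key g⁻¹ c
        rw [hc, map_zero, map_zero, mul_zero, inv_inv] at this
        exact this
      | zero => rw [map_zero]
      | add u v _ _ hu hv => rw [map_add, hu, hv, add_zero]
      | smul a u _ hu => rw [map_smul, hu, smul_zero]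
    ext w
    exact h1 w (by rw [hspan']; trivial)
  have hkey2 : ∀ c, β c = 0 → α c = 0 := by
    intro c hc
    refine fi_annih_orbit ρ hirr y hy _ fun g => ?_
    have := key g c
    rw [hc, LinearMap.zero_apply] at this
    exact (mul_eq_zero.1 this.symm).resolve_left (mul_ne_zero hs (hχ0 g).ne')
  obtain ⟨r, hr⟩ := LinearMap.exists_rightInverse_of_surjective α
    (LinearMap.range_eq_top.2 hsurj)
  have hr' : ∀ v, α (r v) = v := fun v => by
    have := LinearMap.congr_fun hr v
    simpa using this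
  have hLα : ∀ c, (β ∘ₗ r) (α c) = β c := by
    intro c
    have h1 : α (r (α c) - c) = 0 := by rw [map_sub, hr', sub_self]
    have h2 := hkey1 _ h1
    rw [map_sub, sub_eq_zero] at h2
    exact h2
  refine ⟨β ∘ₗ r, fun v hv => ?_, fun g v w => ?_⟩
  · have h1 : β (r v) = 0 := hv
    have h2 := hkey2 _ h1
    rwa [hr'] at h2
  · have hv : v ∈ Submodule.span ℝ (Set.range fun g => ρ g x) := by rw [hspan]; trivial
    induction hv using Submodule.span_induction with
    | mem v hv =>
      obtain ⟨h, rfl⟩ := hv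
      have e0 : ∀ k : G, (β ∘ₗ r) (ρ k x) = (χ k)⁻¹ • (y' ∘ₗ ρ k⁻¹) := by
        intro k
        have h1 : ρ k x = α (Finsupp.single k 1) := by rw [hαs, one_smul]
        rw [h1, hLα, hβs, one_smul]
      have e1 : ρ g (ρ h x) = ρ (g * h) x := by rw [map_mul, Module.End.mul_apply]
      have e2 : ρ (g * h)⁻¹ (ρ g w) = ρ h⁻¹ w := by
        rw [← Module.End.mul_apply, ← map_mul]
        congr 2
        group
      simp only [e1, e0, LinearMap.smul_apply, LinearMap.comp_apply, smul_eq_mul, e2, hχ]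
      rw [mul_inv]
      ring
    | zero => simp
    | add u v _ _ hu hv =>
      rw [map_add, map_add, map_add, LinearMap.add_apply, LinearMap.add_apply, hu, hv, mul_add]
    | smul a u _ hu =>
      rw [map_smul, map_smul, map_smul, LinearMap.smul_apply, LinearMap.smul_apply, hu,
        smul_eq_mul, smul_eq_mul]
      ring

theorem form_of_ident {G V : Type*} [Group G] [AddCommGroup V] [Module ℝ V]
    [FiniteDimensional ℝ V] (hV : Module.finrank ℝ V = 3) (ρ : G →* (V →ₗ[ℝ] V))
    (hirr : ∀ U : Submodule ℝ V, (∀ g, ∀ u ∈ U, ρ g u ∈ U) → U = ⊥ ∨ U = ⊤)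
    (hdet : ∀ g, LinearMap.det (ρ g) = 1) (χ : G → ℝ) (hχ0 : ∀ g, 0 < χ g)
    (hχ : ∀ g h, χ (g * h) = χ g * χ h) (x x' : V) (y y' : V →ₗ[ℝ] ℝ) (hx : x ≠ 0) (hy : y ≠ 0)
    (s : ℝ) (hs : s ≠ 0) (hid : ∀ g, y' (ρ g⁻¹ x') = s * χ g * y (ρ g x)) :
    ∃ B : V →ₗ[ℝ] V →ₗ[ℝ] ℝ, (∀ x y, B x y = B y x) ∧ (∀ x, x ≠ 0 → ∃ y, B x y ≠ 0) ∧
      ∀ g x y, B (ρ g x) (ρ g y) = B x y := by
  classical
  obtain ⟨L, hLinj, hL⟩ := fi_exists_form ρ hirr χ hχ0 hχ x x' y y' hx hy s hs hid
  let b : Module.Basis (Fin 3) ℝ V := Module.finBasisOfFinrankEq ℝ V hV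
  have hsep : L.SeparatingLeft := by
    intro v hv
    apply hLinj
    ext w
    exact hv w
  have hdetL : (LinearMap.toMatrix₂ b b L).det ≠ 0 :=
    (LinearMap.separatingLeft_iff_det_ne_zero b).1 hsep
  have hχ1 : ∀ g, χ g = 1 := by
    intro g
    have h1 : L.compl₁₂ (ρ g) (ρ g) = (χ g)⁻¹ • L := by
      ext v w
      simp only [LinearMap.compl₁₂_apply, LinearMap.smul_apply, smul_eq_mul]
      exact hL g v w
    have h2 := congrArg (fun M => (LinearMap.toMatrix₂ b b M).det) h1
    simp only [map_smul] at h2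
    rw [LinearMap.toMatrix₂_compl₁₂ b b b b, Matrix.det_mul, Matrix.det_mul,
      Matrix.det_transpose, Matrix.det_smul, LinearMap.det_toMatrix, hdet g] at h2
    simp only [one_mul, mul_one, Fintype.card_fin] at h2
    have h3 : ((χ g)⁻¹) ^ 3 = 1 := by
      have h4 : (((χ g)⁻¹) ^ 3 - 1) * (LinearMap.toMatrix₂ b b L).det = 0 := by
        linear_combination -h2
      have := (mul_eq_zero.1 h4).resolve_right hdetL
      linarith
    have h5 : (χ g)⁻¹ = 1 :=
      (pow_eq_one_iff_of_nonneg (inv_nonneg.2 (hχ0 g).le) (by norm_num)).1 h3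
    exact inv_eq_one.1 h5
  have hinv : ∀ g v w, L (ρ g v) (ρ g w) = L v w := by
    intro g v w
    rw [hL, hχ1, inv_one, one_mul]
  -- the endomorphism comparing `L` and its flip
  have hLinj' : Function.Injective L := by
    rw [← LinearMap.ker_eq_bot, LinearMap.ker_eq_bot']
    exact hLinj
  have hfr : Module.finrank ℝ V = Module.finrank ℝ (V →ₗ[ℝ] ℝ) :=
    (Subspace.dual_finrank_eq (K := ℝ) (V := V)).symm
  let Le : V ≃ₗ[ℝ] (V →ₗ[ℝ] ℝ) := LinearMap.linearEquivOfInjective L hLinj' hfr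
  have hLe : ∀ v, Le v = L v := fun v => rfl
  let T : V →ₗ[ℝ] V := Le.symm.toLinearMap ∘ₗ L.flip
  have hT : ∀ v w, L (T v) w = L w v := by
    intro v w
    have h1 : Le (T v) = L.flip v := by
      change Le (Le.symm (L.flip v)) = L.flip v
      rw [LinearEquiv.apply_symm_apply]
    rw [← hLe, h1, LinearMap.flip_apply]
  have hcomm : ∀ δ ∈ (⊤ : Subgroup G), ∀ v, T (ρ δ v) = ρ δ (T v) := by
    intro g _ v
    apply hLinj'
    ext w
    have e1 : w = ρ g (ρ g⁻¹ w) := by
      rw [← Module.End.mul_apply, ← map_mul]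
      simp
    rw [hT]
    conv_lhs => rw [e1]
    conv_rhs => rw [e1]
    rw [hinv, hinv, hT]
  obtain ⟨c, hc⟩ := schur_odd (by rw [hV]; decide) ρ ⊤
    (fun U hU => hirr U (fun g u hu => hU g trivial u hu)) T hcomm
  have hsym : ∀ v w, L w v = c * L v w := by
    intro v w
    rw [← hT v w, hc, map_smul, LinearMap.smul_apply, smul_eq_mul]
  have hc1 : c = 1 ∨ c = -1 := by
    by_contra hcon
    have hc2 : c * c ≠ 1 := by
      intro h
      exact hcon (mul_self_eq_one_iff.1 h)
    apply hx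
    apply hLinj
    ext w
    have h1 : L x w = c * (c * L x w) := by
      conv_lhs => rw [hsym w x, hsym x w]
    have h2 : (c * c - 1) * L x w = 0 := by linear_combination -h1
    have h3 : c * c - 1 ≠ 0 := sub_ne_zero.2 hc2
    rw [LinearMap.zero_apply]
    exact (mul_eq_zero.1 h2).resolve_left h3
  have hc3 : c = 1 := by
    rcases hc1 with h | h
    · exact h
    · exfalso
      apply hdetL
      have h1 : (LinearMap.toMatrix₂ b b L) = -(LinearMap.toMatrix₂ b b L).transpose := by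
        ext i j
        rw [Matrix.neg_apply, Matrix.transpose_apply, LinearMap.toMatrix₂_apply,
          LinearMap.toMatrix₂_apply]
        have := hsym (b j) (b i)
        rw [h] at this
        linarith
      have h2 : (LinearMap.toMatrix₂ b b L).det = -(LinearMap.toMatrix₂ b b L).det := by
        conv_lhs => rw [h1, Matrix.det_neg, Matrix.det_transpose]
        simp
        ring
      linarith
  refine ⟨L, fun v w => ?_, fun v hv => ?_, hinv⟩
  · rw [hsym w v, hc3, one_mul]
  · by_contra hcon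
    push Not at hcon
    apply hv
    apply hLinj
    ext w
    exact hcon w

end Pool.AF
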