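import Pool.Agent.Helper94.AB.Defs
import Pool.Agent.Helper94.AL.Burn

/-!
# AB-10 FORMUP: from a subgroup of finite index of a normal subgroup to the group

Proof. Let `g ∈ G`, `B' x y = B (ρ g x) (ρ g y)`. It is invariant under `g⁻¹ G₁ g`, a subgroup of
`N` (normal) of finite index in `N`; so `H = G₁ ⊓ g⁻¹ G₁ g` has finite index in `N`, preserves `B`
and `B'`, and acts irreducibly (`hirr`). As `B` is nondegenerate, `B' x y = B (T x) y` with `T`
commuting with `ρ h`, `h ∈ H`, so `T = c` by `schur_odd` (`Pool/Agent/Helper94/AL/Burn.lean`), and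
`B' = c B`. `c ≠ 0` as `B'` is not zero (`ρ g` is invertible and `B ≠ 0`).

`c > 0`: take an orthogonal basis of `B` (`LinearMap.BilinForm.exists_orthogonal_basis`, see
`Pool/Agent/Helper94/AL/Lorentz.lean`, `type_of_form`), with diagonal entries `a 0, a 1, a 2 ≠ 0`; at
least two have the same sign `σ`; let `P` be the plane spanned by these two vectors, on which
`σ B` is positive definite. If `c < 0` then `σ B` is negative definite on `ρ g P`. Two planes of a
space of dimension three meet in a nonzero vector: contradiction.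
-/

open Set

set_option linter.unusedSectionVars false

namespace Pool.AF

theorem form_up {G V : Type*} [Group G] [AddCommGroup V] [Module ℝ V] [FiniteDimensional ℝ V]
    (hV : Module.finrank ℝ V = 3) (ρ : G →* (V →ₗ[ℝ] V)) (N : Subgroup G) [N.Normal]
    (hirr : ∀ H : Subgroup G, H ≤ N → H.relIndex N ≠ 0 → ∀ U : Submodule ℝ V,
      (∀ h ∈ H, ∀ u ∈ U, ρ h u ∈ U) → U = ⊥ ∨ U = ⊤)
    (G₁ : Subgroup G) (hle : G₁ ≤ N) (hfi : G₁.relIndex N ≠ 0) (B : V →ₗ[ℝ] V →ₗ[ℝ] ℝ)
    (hB1 : ∀ x y, B x y = B y x) (hB2 : ∀ x, x ≠ 0 → ∃ y, B x y ≠ 0)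
    (hB3 : ∀ g ∈ G₁, ∀ x y, B (ρ g x) (ρ g y) = B x y) :
    ∀ g, ∃ c : ℝ, 0 < c ∧ ∀ x y, B (ρ g x) (ρ g y) = c * B x y := by
  intro g
  have hBinj : Function.Injective B := by
    rw [← LinearMap.ker_eq_bot, LinearMap.ker_eq_bot']
    intro x hx
    by_contra hx0
    obtain ⟨y, hy⟩ := hB2 x hx0
    exact hy (by rw [hx, LinearMap.zero_apply])
  have hfd : Module.finrank ℝ V = Module.finrank ℝ (Module.Dual ℝ V) :=
    (Subspace.dual_finrank_eq).symm
  let e : V ≃ₗ[ℝ] Module.Dual ℝ V := LinearEquiv.ofInjectiveOfFinrankEq B hBinj hfd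
  have he : ∀ x, e x = B x := fun x => rfl
  have hnd : ∀ x x' : V, (∀ y, B x y = B x' y) → x = x' := by
    intro x x' h
    exact hBinj (LinearMap.ext h)
  have hinv1 : ∀ (h : G) (x : V), ρ h (ρ h⁻¹ x) = x := by
    intro h x
    have h1 : (ρ h * ρ h⁻¹) x = x := by
      rw [← map_mul, mul_inv_cancel, map_one]
      rfl
    exact h1
  have hmul : ∀ (h k : G) (x : V), ρ (h * k) x = ρ h (ρ k x) := by
    intro h k x
    rw [map_mul]
    rfl
  -- the adjoint of `ρ g`
  let Ad : V →ₗ[ℝ] V := (e.symm : Module.Dual ℝ V →ₗ[ℝ] V) ∘ₗ (ρ g).dualMap ∘ₗ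
    (e : V →ₗ[ℝ] Module.Dual ℝ V)
  have hAd : ∀ x y, B (Ad x) y = B x (ρ g y) := by
    intro x y
    have h1 : e (Ad x) = (ρ g).dualMap (e x) := by
      change e (e.symm _) = _
      rw [LinearEquiv.apply_symm_apply]
      rfl
    have h2 : B (Ad x) = (ρ g).dualMap (B x) := h1
    rw [h2, LinearMap.dualMap_apply]
  let T : V →ₗ[ℝ] V := Ad ∘ₗ ρ g
  have hT : ∀ x y, B (T x) y = B (ρ g x) (ρ g y) := fun x y => hAd _ _
  let φ : G →* G := (MulAut.conj g).toMonoidHom
  let H : Subgroup G := G₁ ⊓ G₁.comap φ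
  have hHN : H ≤ N := le_trans inf_le_left hle
  have hmapN : N.map φ = N := by
    apply le_antisymm
    · rintro _ ⟨n, hn, rfl⟩
      exact Subgroup.Normal.conj_mem ‹N.Normal› n hn g
    · intro n hn
      refine ⟨g⁻¹ * n * g, ?_, ?_⟩
      · have := Subgroup.Normal.conj_mem ‹N.Normal› n hn g⁻¹
        rwa [inv_inv] at this
      · change g * (g⁻¹ * n * g) * g⁻¹ = n
        group
  have hHfi : H.relIndex N ≠ 0 := by
    refine Subgroup.relIndex_inf_ne_zero hfi ?_
    rw [Subgroup.relIndex_comap, hmapN]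
    exact hfi
  have hcomm : ∀ h ∈ H, ∀ v, T (ρ h v) = ρ h (T v) := by
    intro h hh v
    apply hnd
    intro y
    have h1 : y = ρ h (ρ h⁻¹ y) := (hinv1 h y).symm
    rw [h1, hT, hB3 h hh.1, hT]
    have h2 : ∀ x, ρ g (ρ h x) = ρ (φ h) (ρ g x) := by
      intro x
      change _ = ρ (g * h * g⁻¹) (ρ g x)
      rw [← hmul, ← hmul]
      congr 2
      group
    rw [h2, h2, hB3 _ hh.2]
  obtain ⟨c, hc⟩ := schur_odd (by rw [hV]; decide) ρ H (hirr H hHN hHfi) T hcomm
  have hcB : ∀ x y, B (ρ g x) (ρ g y) = c * B x y := by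
    intro x y
    rw [← hT, hc, map_smul, LinearMap.smul_apply, smul_eq_mul]
  refine ⟨c, ?_, hcB⟩
  have hc0 : c ≠ 0 := by
    intro h0
    have hnt : Nontrivial V := Module.nontrivial_of_finrank_pos (R := ℝ) (by rw [hV]; norm_num)
    obtain ⟨x, hx⟩ := exists_ne (0 : V)
    obtain ⟨y, hy⟩ := hB2 x hx
    apply hy
    have h1 := hcB (ρ g⁻¹ x) (ρ g⁻¹ y)
    rw [hinv1, hinv1, h0, zero_mul] at h1
    exact h1
  have hdet : c ^ 3 = LinearMap.det (ρ g) * LinearMap.det (ρ g) := by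
    have h1 : T = c • LinearMap.id := LinearMap.ext fun v => by
      rw [hc]
      rfl
    have h2 : LinearMap.det T = c ^ 3 := by
      rw [h1, LinearMap.det_smul, hV, LinearMap.det_id, mul_one]
    have h3 : LinearMap.det Ad = LinearMap.det (ρ g) := by
      have h4 := LinearMap.det_conj (ρ g).dualMap e.symm
      rw [LinearMap.det_dualMap] at h4
      exact h4
    rw [← h2, LinearMap.det_comp, h3]
  rcases lt_trichotomy c 0 with h | h | h
  · exfalso
    have h1 : c ^ 3 < 0 := by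
      have : 0 < c ^ 2 := by positivity
      nlinarith
    nlinarith [mul_self_nonneg (LinearMap.det (ρ g))]
  · exact absurd h hc0
  · exact h

end Pool.AF
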