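import Pool.Agent.Helper94.AB.Defs

/-!
# AB-2 HYP: sequences of hyperbolic maps

The maps are `v ↦ X j (S (Y v)) + R j v`, with `S` very expanding, `R j` very small and
`N j (Y (X j t)) = t` for all `t`.

`hyp_seq`: for every `n` the perturbed recursion `v (j+1) = X j (S (Y (v j))) + R j (v j) + u j`,
`j < n`, has a solution with `v 0` and `v n` bounded independently of `n`.

Proof. If `n = 0` take `v = 0`. Otherwise look for a solution with `v 0 = X 0 s`, `s ∈ T`, and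
`Y (v n) = 0`. Given `s` the sequence is determined by the recursion; it depends affinely on `s`.

A priori estimate: let `v` satisfy the recursion (for `j < n`) with `v 0 = X 0 s`,
`Y (v n) = 0`, let `m = max_{j ≤ n} ‖v j‖`, `t j = Y (v j)` and `K = η m + Um`. Applying `N j ∘ Y`
to the recursion, `S (t j) = N j (t (j+1)) - N j (Y (R j (v j) + u j))`, so
`‖S (t j)‖ ≤ C ‖t (j+1)‖ + C ^ 2 K` and, as `t j = S' (S (t j))`,
`‖t j‖ ≤ η (C ‖t (j+1)‖ + C ^ 2 K)`. Here `η C ≤ 1/6` and `t n = 0`, so by descending induction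
`‖t j‖ ≤ 2 η C ^ 2 K` for all `j ≤ n`. Then for `1 ≤ j + 1 ≤ n`:
`‖v (j+1)‖ ≤ C ‖S (t j)‖ + K ≤ C ^ 2 ‖t (j+1)‖ + C ^ 3 K + K ≤ (2 η C ^ 4 + 2 C ^ 3) K
≤ 3 C ^ 3 K`. Also `s = N 0 (t 0)`, so `‖v 0‖ ≤ C ^ 2 ‖t 0‖ ≤ 2 η C ^ 4 K ≤ 3 C ^ 3 K`. So
`m ≤ 3 C ^ 3 (η m + Um)` and, as `3 C ^ 3 η ≤ 1/2`, `m ≤ 6 C ^ 3 Um`.

Existence: the linear map `T → T`, `s ↦ Y (v n)` for the recursion with `u = 0`, is injective by
the estimate with `Um = 0` (`v = 0`, so `s = N 0 (Y (X 0 s)) = N 0 (Y (v 0)) = 0`), so it is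
surjective (`T` is finite-dimensional), and there is `s` with `Y (v n) = 0` for the recursion with
`u` (the value for `u` is the linear map at `s` plus the value for `u` at `s = 0`).

`hyp_grow`: if `u = 0` and `‖v 0‖ ≤ 4 C ^ 2 ‖Y (v 0)‖` then by induction on `j ≤ n`
`‖v j‖ ≤ 4 C ^ 2 ‖Y (v j)‖` and `2 ^ j ‖Y (v 0)‖ ≤ ‖Y (v j)‖`. Let `t = Y (v j)`, `σ = ‖S t‖`, so
`‖t‖ ≤ η σ`. One has `σ ≤ C ‖Y (X j (S t))‖` (apply `N j`) and `‖R j (v j)‖ ≤ 4 C ^ 2 η ‖t‖`, so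
`‖Y (v (j+1))‖ ≥ σ / C - 4 C ^ 3 η ‖t‖` and `‖v (j+1)‖ ≤ C σ + 4 C ^ 2 η ‖t‖`. With
`η ≤ 1 / (6 C ^ 3)`, `C ≥ 1` both claims follow: `σ / C ≥ ‖t‖ / (η C) ≥ 6 ‖t‖` (if `η = 0`, `t = 0`)
and `4 C ^ 3 η ‖t‖ ≤ (2/3) ‖t‖`; `4 C ^ 2 (σ / C - 4 C ^ 3 η ‖t‖) - C σ - 4 C ^ 2 η ‖t‖
≥ 3 C σ - 20 C ^ 5 η ^ 2 σ ≥ 0`.
-/

open Set

set_option linter.unusedSectionVars false

namespace Pool.AF

section

variable {V T : Type*} [NormedAddCommGroup V] [NormedSpace ℝ V] [NormedAddCommGroup T]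
  [NormedSpace ℝ T]

private theorem hyp_apriori (C η Um : ℝ) (hC : 1 ≤ C) (hη : 0 ≤ η)
    (hηC : η * (6 * C ^ 3) ≤ 1) (hUm : 0 ≤ Um) (S S' : T →L[ℝ] T) (hS : ∀ t, S' (S t) = t)
    (hS' : ‖S'‖ ≤ η) (Y : V →L[ℝ] T) (hY : ‖Y‖ ≤ C) (X : ℕ → T →L[ℝ] V) (N : ℕ → T →L[ℝ] T)
    (R : ℕ → V →L[ℝ] V) (hX : ∀ j, ‖X j‖ ≤ C) (hN : ∀ j, ‖N j‖ ≤ C) (hR : ∀ j, ‖R j‖ ≤ η)
    (hNYX : ∀ j t, N j (Y (X j t)) = t) (u : ℕ → V) (hu : ∀ j, ‖u j‖ ≤ Um) (n : ℕ)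
    (v : ℕ → V) (s : T) (hv0 : v 0 = X 0 s) (hvn : Y (v n) = 0)
    (hv : ∀ j < n, v (j + 1) = X j (S (Y (v j))) + R j (v j) + u j) :
    ∀ j ≤ n, ‖v j‖ ≤ 6 * C ^ 3 * Um := by
  obtain ⟨j0, hj0, hmax⟩ := Finset.exists_max_image (Finset.range (n + 1)) (fun j => ‖v j‖)
    ⟨0, by simp⟩
  obtain ⟨m, hm⟩ : ∃ m, m = ‖v j0‖ := ⟨_, rfl⟩
  have hm0 : 0 ≤ m := hm ▸ norm_nonneg _
  have hmj : ∀ j ≤ n, ‖v j‖ ≤ m := fun j hj => by
    rw [hm]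
    exact hmax j (Finset.mem_range.2 (by omega))
  obtain ⟨K, hK⟩ : ∃ K, K = η * m + Um := ⟨_, rfl⟩
  have hK0 : 0 ≤ K := by rw [hK]; positivity
  have hC0 : 0 ≤ C := by linarith
  have hCC : C ≤ C ^ 3 := by
    nlinarith [mul_nonneg (mul_nonneg hC0 (by linarith : 0 ≤ C - 1)) (by linarith : 0 ≤ C + 1)]
  have h2 : 2 * η * C ≤ 1 := by
    have := mul_le_mul_of_nonneg_left hCC hη
    have h0 : 0 ≤ η * C := mul_nonneg hη hC0
    nlinarith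
  have hw : ∀ j < n, ‖R j (v j) + u j‖ ≤ K := by
    intro j hj
    rw [hK]
    exact (norm_add_le _ _).trans
      (add_le_add ((R j).le_of_opNorm_le_of_le (hR j) (hmj j hj.le)) (hu j))
  have hS1 : ∀ j < n, ‖S (Y (v j))‖ ≤ C * (‖Y (v (j + 1))‖ + C * K) := by
    intro j hj
    have e : S (Y (v j)) = N j (Y (v (j + 1)) - Y (R j (v j) + u j)) := by
      rw [← map_sub, hv j hj]
      have : X j (S (Y (v j))) + R j (v j) + u j - (R j (v j) + u j) = X j (S (Y (v j))) := by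
        abel
      rw [this, hNYX]
    rw [e]
    refine (N j).le_of_opNorm_le_of_le (hN j) ?_
    refine (norm_sub_le _ _).trans (add_le_add le_rfl ?_)
    exact Y.le_of_opNorm_le_of_le hY (hw j hj)
  have hT : ∀ k, k ≤ n → ‖Y (v (n - k))‖ ≤ 2 * η * C ^ 2 * K := by
    intro k
    induction k with
    | zero =>
      intro _
      rw [Nat.sub_zero, hvn, norm_zero]
      positivity
    | succ k ih =>
      intro hk
      have ih' := ih (by omega)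
      have hj : n - (k + 1) < n := by omega
      have e1 : n - (k + 1) + 1 = n - k := by omega
      have h1 := hS1 _ hj
      rw [e1] at h1
      have h3 : ‖Y (v (n - (k + 1)))‖ ≤ η * (C * (‖Y (v (n - k))‖ + C * K)) := by
        conv_lhs => rw [← hS (Y (v (n - (k + 1))))]
        exact S'.le_of_opNorm_le_of_le hS' h1
      have h4 : η * (C * (‖Y (v (n - k))‖ + C * K)) ≤ η * (C * (2 * η * C ^ 2 * K + C * K)) :=
        mul_le_mul_of_nonneg_left (mul_le_mul_of_nonneg_left (by linarith) hC0) hη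
      have h5 : 0 ≤ η * C ^ 2 * K * (1 - 2 * η * C) :=
        mul_nonneg (by positivity) (by linarith)
      nlinarith
  have hT' : ∀ j ≤ n, ‖Y (v j)‖ ≤ 2 * η * C ^ 2 * K := by
    intro j hj
    have := hT (n - j) (by omega)
    rwa [show n - (n - j) = j by omega] at this
  have p0 : 0 ≤ C ^ 3 * K := by positivity
  have p1 : 0 ≤ (1 - η * (6 * C ^ 3)) * (C * K) :=
    mul_nonneg (by linarith) (by positivity)
  have p2 : 0 ≤ (C ^ 3 - C) * K := mul_nonneg (by linarith) hK0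
  have p3 : 0 ≤ (C ^ 3 - 1) * K := mul_nonneg (by linarith) hK0
  have hall : ∀ j ≤ n, ‖v j‖ ≤ 3 * C ^ 3 * K := by
    intro j hj
    cases j with
    | zero =>
      have e1 : ‖s‖ ≤ C * ‖Y (v 0)‖ := by
        conv_lhs => rw [← hNYX 0 s, ← hv0]
        exact (N 0).le_of_opNorm_le (hN 0) _
      have e2 : ‖v 0‖ ≤ C * (C * (2 * η * C ^ 2 * K)) := by
        rw [hv0]
        refine (X 0).le_of_opNorm_le_of_le (hX 0) (e1.trans ?_)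
        exact mul_le_mul_of_nonneg_left (hT' 0 hj) hC0
      nlinarith
    | succ j =>
      have hj' : j < n := by omega
      have e1 : ‖S (Y (v j))‖ ≤ C * (2 * η * C ^ 2 * K + C * K) :=
        (hS1 j hj').trans (mul_le_mul_of_nonneg_left (by linarith [hT' (j + 1) hj]) hC0)
      have e2 : ‖v (j + 1)‖ ≤ C * (C * (2 * η * C ^ 2 * K + C * K)) + K := by
        rw [hv j hj', add_assoc]
        exact (norm_add_le _ _).trans (add_le_add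
          ((X j).le_of_opNorm_le_of_le (hX j) e1) (hw j hj'))
      nlinarith
  have hmm : m ≤ 3 * C ^ 3 * K := by
    rw [hm]
    exact hall j0 (by have := Finset.mem_range.1 hj0; omega)
  have hfin : m ≤ 6 * C ^ 3 * Um := by
    have := mul_le_mul_of_nonneg_right hηC hm0
    rw [hK] at hmm
    nlinarith
  intro j hj
  exact (hmj j hj).trans hfin

theorem hyp_seq_all [FiniteDimensional ℝ T] (C η Um : ℝ) (hC : 1 ≤ C) (hη : 0 ≤ η)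
    (hηC : η * (6 * C ^ 3) ≤ 1) (hUm : 0 ≤ Um) (S S' : T →L[ℝ] T) (hS : ∀ t, S' (S t) = t)
    (hS' : ‖S'‖ ≤ η) (Y : V →L[ℝ] T) (hY : ‖Y‖ ≤ C) (X : ℕ → T →L[ℝ] V) (N : ℕ → T →L[ℝ] T)
    (R : ℕ → V →L[ℝ] V) (hX : ∀ j, ‖X j‖ ≤ C) (hN : ∀ j, ‖N j‖ ≤ C) (hR : ∀ j, ‖R j‖ ≤ η)
    (hNYX : ∀ j t, N j (Y (X j t)) = t) (u : ℕ → V) (hu : ∀ j, ‖u j‖ ≤ Um) (n : ℕ) :
    ∃ v : ℕ → V, (∀ j < n, v (j + 1) = X j (S (Y (v j))) + R j (v j) + u j) ∧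
      ∀ j ≤ n, ‖v j‖ ≤ 6 * C ^ 3 * Um := by
  let L : ℕ → T →L[ℝ] V := fun k => Nat.rec (X 0)
    (fun j Lj => ((X j).comp (S.comp Y) + R j).comp Lj) k
  let q : ℕ → V := fun k => Nat.rec (0 : V) (fun j vj => X j (S (Y vj)) + R j vj + u j) k
  have hL0 : L 0 = X 0 := rfl
  have hL1 : ∀ j, L (j + 1) = ((X j).comp (S.comp Y) + R j).comp (L j) := fun j => rfl
  have hq0 : q 0 = 0 := rfl
  have hq1 : ∀ j, q (j + 1) = X j (S (Y (q j))) + R j (q j) + u j := fun j => rfl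
  have hinj : Function.Injective ((Y.comp (L n) : T →L[ℝ] T) : T →ₗ[ℝ] T) := by
    rw [← LinearMap.ker_eq_bot, LinearMap.ker_eq_bot']
    intro s hs
    have hs' : Y (L n s) = 0 := hs
    have := hyp_apriori C η 0 hC hη hηC le_rfl S S' hS hS' Y hY X N R hX hN hR hNYX
      (fun _ => 0) (fun _ => by simp) n (fun j => L j s) s (by rw [hL0]) hs'
      (fun j _ => by simp [hL1]) 0 (Nat.zero_le _)
    have h0 : X 0 s = 0 := by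
      rw [hL0, mul_zero] at this
      exact norm_le_zero_iff.1 this
    have h1 := hNYX 0 s
    rw [h0, map_zero, map_zero] at h1
    exact h1.symm
  obtain ⟨s, hs⟩ := (LinearMap.injective_iff_surjective.1 hinj) (-(Y (q n)))
  have hs' : Y (L n s) = -(Y (q n)) := hs
  have hrec : ∀ j, L (j + 1) s + q (j + 1) =
      X j (S (Y (L j s + q j))) + R j (L j s + q j) + u j := by
    intro j
    rw [hL1, hq1]
    simp only [ContinuousLinearMap.comp_apply, ContinuousLinearMap.add_apply, map_add]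
    abel
  have hap := hyp_apriori C η Um hC hη hηC hUm S S' hS hS' Y hY X N R hX hN hR hNYX u hu n
      (fun j => L j s + q j) s (by rw [hL0, hq0, add_zero])
      (by rw [map_add, hs', neg_add_cancel]) (fun j _ => hrec j)
  exact ⟨fun j => L j s + q j, fun j _ => hrec j, hap⟩

theorem hyp_seq [FiniteDimensional ℝ T] (C η Um : ℝ) (hC : 1 ≤ C) (hη : 0 ≤ η)
    (hηC : η * (6 * C ^ 3) ≤ 1) (hUm : 0 ≤ Um) (S S' : T →L[ℝ] T) (hS : ∀ t, S' (S t) = t)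
    (hS' : ‖S'‖ ≤ η) (Y : V →L[ℝ] T) (hY : ‖Y‖ ≤ C) (X : ℕ → T →L[ℝ] V) (N : ℕ → T →L[ℝ] T)
    (R : ℕ → V →L[ℝ] V) (hX : ∀ j, ‖X j‖ ≤ C) (hN : ∀ j, ‖N j‖ ≤ C) (hR : ∀ j, ‖R j‖ ≤ η)
    (hNYX : ∀ j t, N j (Y (X j t)) = t) (u : ℕ → V) (hu : ∀ j, ‖u j‖ ≤ Um) (n : ℕ) :
    ∃ v : ℕ → V, (∀ j < n, v (j + 1) = X j (S (Y (v j))) + R j (v j) + u j) ∧
      ‖v 0‖ ≤ 6 * C ^ 3 * Um ∧ ‖v n‖ ≤ 6 * C ^ 3 * Um := by
  obtain ⟨v, h1, h2⟩ := hyp_seq_all C η Um hC hη hηC hUm S S' hS hS' Y hY X N R hX hN hR hNYX u hu n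
  exact ⟨v, h1, h2 0 (Nat.zero_le _), h2 n le_rfl⟩

theorem hyp_cone (C η : ℝ) (hC : 1 ≤ C) (hη : 0 ≤ η)
    (hηC : η * (6 * C ^ 3) ≤ 1) (S S' : T →L[ℝ] T) (hS : ∀ t, S' (S t) = t)
    (hS' : ‖S'‖ ≤ η) (Y : V →L[ℝ] T) (hY : ‖Y‖ ≤ C) (X : ℕ → T →L[ℝ] V) (N : ℕ → T →L[ℝ] T)
    (R : ℕ → V →L[ℝ] V) (hX : ∀ j, ‖X j‖ ≤ C) (hN : ∀ j, ‖N j‖ ≤ C) (hR : ∀ j, ‖R j‖ ≤ η)
    (hNYX : ∀ j t, N j (Y (X j t)) = t) (n : ℕ) (v : ℕ → V)
    (hv : ∀ j < n, v (j + 1) = X j (S (Y (v j))) + R j (v j))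
    (h0 : ‖v 0‖ ≤ 4 * C ^ 2 * ‖Y (v 0)‖) :
    ∀ j, j ≤ n → ‖v j‖ ≤ 4 * C ^ 2 * ‖Y (v j)‖ ∧ 2 ^ j * ‖Y (v 0)‖ ≤ ‖Y (v j)‖ := by
  have hC0 : 0 ≤ C := by linarith
  have hC2 : 1 ≤ C ^ 2 := one_le_pow₀ hC
  have hC3 : C ^ 2 ≤ C ^ 3 := pow_le_pow_right₀ hC (by norm_num)
  have hC13 : C ≤ C ^ 3 := by
    nlinarith [mul_nonneg (mul_nonneg hC0 (by linarith : 0 ≤ C - 1)) (by linarith : 0 ≤ C + 1)]
  have e3 : η * C ^ 3 ≤ 1 / 6 := by linarith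
  have e2 : η * C ^ 2 ≤ 1 / 6 := (mul_le_mul_of_nonneg_left hC3 hη).trans e3
  have e1 : η * C ≤ 1 / 6 := (mul_le_mul_of_nonneg_left hC13 hη).trans e3
  have key : ∀ j, j ≤ n → ‖v j‖ ≤ 4 * C ^ 2 * ‖Y (v j)‖ ∧
      2 ^ j * ‖Y (v 0)‖ ≤ ‖Y (v j)‖ := by
    intro j
    induction j with
    | zero => exact fun _ => ⟨h0, by simp⟩
    | succ j ih =>
      intro hj
      obtain ⟨i1, i2⟩ := ih (by omega)
      obtain ⟨t, ht⟩ : ∃ t, t = Y (v j) := ⟨_, rfl⟩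
      obtain ⟨A, hA⟩ : ∃ A, A = ‖Y (X j (S t))‖ := ⟨_, rfl⟩
      have a1 : ‖S t‖ ≤ C * A := by
        conv_lhs => rw [← hNYX j (S t)]
        rw [hA]
        exact (N j).le_of_opNorm_le (hN j) _
      have a2 : ‖t‖ ≤ η * (C * A) := by
        conv_lhs => rw [← hS t]
        exact S'.le_of_opNorm_le_of_le hS' a1
      have hA0 : 0 ≤ A := hA ▸ norm_nonneg _
      have ht0 : 0 ≤ ‖t‖ := norm_nonneg _
      have a3 : 6 * ‖t‖ ≤ A := by nlinarith [mul_le_mul_of_nonneg_right e1 hA0]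
      have a4 : ‖R j (v j)‖ ≤ η * (4 * C ^ 2 * ‖t‖) := by
        rw [← ht] at i1
        exact (R j).le_of_opNorm_le_of_le (hR j) i1
      have hvj := hv j (by omega)
      rw [← ht] at hvj
      have b1 : ‖Y (R j (v j))‖ ≤ C * (η * (4 * C ^ 2 * ‖t‖)) :=
        Y.le_of_opNorm_le_of_le hY a4
      have b2 : C * (η * (4 * C ^ 2 * ‖t‖)) ≤ 2 / 3 * ‖t‖ := by
        nlinarith [mul_le_mul_of_nonneg_right e3 ht0]
      have b3 : A - 2 / 3 * ‖t‖ ≤ ‖Y (v (j + 1))‖ := by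
        rw [hvj, map_add]
        have := norm_sub_le (Y (X j (S t)) + Y (R j (v j))) (Y (R j (v j)))
        rw [add_sub_cancel_right, ← hA] at this
        linarith
      have b4 : ‖v (j + 1)‖ ≤ C * (C * A) + 2 / 3 * ‖t‖ := by
        rw [hvj]
        refine (norm_add_le _ _).trans (add_le_add ((X j).le_of_opNorm_le_of_le (hX j) a1) ?_)
        nlinarith [mul_le_mul_of_nonneg_right e2 ht0]
      refine ⟨?_, ?_⟩
      · have c1 : 4 * C ^ 2 * (A - 2 / 3 * ‖t‖) ≤ 4 * C ^ 2 * ‖Y (v (j + 1))‖ :=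
          mul_le_mul_of_nonneg_left b3 (by positivity)
        have c2 : 0 ≤ C ^ 2 * (A - 6 * ‖t‖) := mul_nonneg (by positivity) (by linarith)
        have c3 : 0 ≤ (C ^ 2 - 1) * ‖t‖ := mul_nonneg (by linarith) ht0
        have c4 : 0 ≤ C ^ 2 * ‖t‖ := by positivity
        nlinarith
      · rw [← ht] at i2
        rw [pow_succ]
        nlinarith
  exact key

theorem hyp_grow (C η : ℝ) (hC : 1 ≤ C) (hη : 0 ≤ η)
    (hηC : η * (6 * C ^ 3) ≤ 1) (S S' : T →L[ℝ] T) (hS : ∀ t, S' (S t) = t)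
    (hS' : ‖S'‖ ≤ η) (Y : V →L[ℝ] T) (hY : ‖Y‖ ≤ C) (X : ℕ → T →L[ℝ] V) (N : ℕ → T →L[ℝ] T)
    (R : ℕ → V →L[ℝ] V) (hX : ∀ j, ‖X j‖ ≤ C) (hN : ∀ j, ‖N j‖ ≤ C) (hR : ∀ j, ‖R j‖ ≤ η)
    (hNYX : ∀ j t, N j (Y (X j t)) = t) (n : ℕ) (v : ℕ → V)
    (hv : ∀ j < n, v (j + 1) = X j (S (Y (v j))) + R j (v j))
    (h0 : ‖v 0‖ ≤ 4 * C ^ 2 * ‖Y (v 0)‖) : 2 ^ n * ‖Y (v 0)‖ ≤ ‖Y (v n)‖ := by
  exact (hyp_cone C η hC hη hηC S S' hS hS' Y hY X N R hX hN hR hNYX n v hv h0 n le_rfl).2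

end

end Pool.AF
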