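import Pool.Agent.Helper94.AB.Defs
import Pool.Agent.SV.Aus1
import Pool.Agent.SV.Aus2

/-!
# AB-11 NEAR: elements near the identity on `X / U`

`S.base g = e + (1 - e) hat g (1 - e)` with `e = S.e`.

`base_inj`: if `S.base g = S.base h` then `k = g⁻¹ * h` has `S.base k = 1`, so
`(1 - e) (hat k (x, 1)) = (1 - e) (x, 1)` for all `x` (`hat k` preserves the image of `e`:
`S.inv'`), that is `k x - x ∈ U` for all `x ∈ X` (`S.range`), `k ∈ modSub D S.U = ⊥`.

`near_seq`: from `hnd` there is `C` such that the set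
`{g | ‖(1 - e) hat g (1 - e)‖ ≤ C, ‖(1 - e) hat g⁻¹ (1 - e)‖ ≤ C}` is infinite; take an injective
sequence `g i` in it; `S.base (g i)` and its inverse are bounded, pass to a convergent subsequence
(with invertible limit): the elements `(g i)⁻¹ * g j`, `i < j` large, are `≠ 1` and
`S.base ((g i)⁻¹ * g j) → 1`.

`near_comm`: suppose that for some `ε` the only element `c ∈ commutator D.Γ` with
`‖S.base c - 1‖ < ε` is `1`. There is `ε₁ > 0` such that `‖S.base g - 1‖ < ε₁`, `‖S.base h - 1‖ < ε₁`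
imply `‖S.base ⁅g, h⁆ - 1‖ < ε` (continuity of products and inverses near `1`), so `g * h = h * g`.
Then `aus2` (`Pool/Agent/SV/Aus2.lean`) with `τ = S.base` gives `HasAbNormal D.Γ`: its hypothesis `h1'`
follows from `base_inj` and `h2` from `near_seq`.

`near_big`: suppose the contrary: for some `C` and all `ε` there is `c ≠ 1` with
`‖S.base c - 1‖ < ε` and `‖S.rep c‖, ‖S.rep c⁻¹‖ ≤ C`. One has `e (hat c) e z = (S.rep c u, 0)` if
`e z = (u, 0)`, so `‖e * hat c * e‖ ≤ C * ‖e‖` (up to a constant), the same for `c⁻¹`. Take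
`c i` with `‖S.base (c i) - 1‖ < 1 / i`; passing to a subsequence `e * hat (c i) * e` and
`e * hat (c i)⁻¹ * e` converge. As `c i ≠ 1` and `S.base` is injective, `S.base (c i) ≠ 1`, so each
`c i` is different from `c j` for `j` large. For `i < j` large with `c i ≠ c j` the element
`g = (c i)⁻¹ * c j ≠ 1` has `e * hat g * e + (1 - e) * hat g * (1 - e)` close to `1`
(the map `g ↦ e * hat g * e + (1 - e) * hat g * (1 - e)` is multiplicative by `S.inv'`). So `aus1`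
(`Pool/Agent/SV/Aus1.lean`), with `φ = hatHom D.Γ` (injective, discrete by `disc_of_geo`,
`Pool/Agent/SV/Base.lean`) gives `HasAbNormal D.Γ`.
-/

open Set Filter Topology

set_option linter.unusedSectionVars false

namespace Pool.AF

open Pool.SV

namespace NearAux

private theorem pair_close {α R : Type*} [NormedAddCommGroup R] [NormedSpace ℝ R]
    [FiniteDimensional ℝ R] (S : Set α) (hS : S.Infinite) (f : α → R) (C : ℝ)
    (hf : ∀ a ∈ S, ‖f a‖ ≤ C) (δ : ℝ) (hδ : 0 < δ) :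
    ∃ a ∈ S, ∃ b ∈ S, a ≠ b ∧ ‖f a - f b‖ < δ := by
  classical
  have hprop : ProperSpace R := FiniteDimensional.proper ℝ R
  have hc : TotallyBounded (Metric.closedBall (0 : R) C) :=
    (isCompact_closedBall (0 : R) C).totallyBounded
  obtain ⟨t, ht, hcov⟩ := Metric.totallyBounded_iff.1 hc (δ / 2) (by linarith)
  have h1 : ∀ a ∈ S, ∃ y ∈ t, f a ∈ Metric.ball y (δ / 2) := by
    intro a ha
    have h2 : f a ∈ Metric.closedBall (0 : R) C := by
      rw [Metric.mem_closedBall, dist_zero_right]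
      exact hf a ha
    have h3 := hcov h2
    simpa using h3
  choose! y hy1 hy2 using h1
  obtain ⟨a, ha, b, hb, hab, h⟩ := hS.exists_ne_map_eq_of_mapsTo
    (f := y) (t := t) (fun a ha => hy1 a ha) ht
  refine ⟨a, ha, b, hb, hab, ?_⟩
  have h4 := hy2 a ha
  have h5 := hy2 b hb
  rw [Metric.mem_ball, dist_eq_norm] at h4 h5
  rw [← h] at h5
  have h6 : f a - f b = (f a - y a) - (f b - y a) := by abel
  rw [h6]
  exact (norm_sub_le _ _).trans_lt (by linarith)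

section

variable {Γ R : Type*} [Group Γ] [NormedRing R]

private theorem inv_mul_map (τ : Γ →* R) (g : Γ) : τ g⁻¹ * τ g = 1 := by
  rw [← map_mul, inv_mul_cancel, map_one]

private theorem mul_inv_map (τ : Γ →* R) (g : Γ) : τ g * τ g⁻¹ = 1 := by
  rw [← map_mul, mul_inv_cancel, map_one]

private theorem diff_eq (τ : Γ →* R) (g h : Γ) : τ (g⁻¹ * h) - 1 = τ g⁻¹ * (τ h - τ g) := by
  rw [mul_sub, inv_mul_map, map_mul]

private theorem inv_bound (τ : Γ →* R) (g : Γ) (h : ‖τ g - 1‖ ≤ 1 / 2) :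
    ‖τ g⁻¹‖ ≤ 2 * ‖(1 : R)‖ := by
  have h1 : τ g⁻¹ = 1 - τ g⁻¹ * (τ g - 1) := by
    rw [mul_sub, inv_mul_map, mul_one]
    abel
  have h2 : ‖τ g⁻¹‖ ≤ ‖(1 : R)‖ + ‖τ g⁻¹‖ * (1 / 2) := by
    conv_lhs => rw [h1]
    refine (norm_sub_le _ _).trans ?_
    have h3 : ‖τ g⁻¹ * (τ g - 1)‖ ≤ ‖τ g⁻¹‖ * (1 / 2) :=
      (norm_mul_le _ _).trans (mul_le_mul_of_nonneg_left h (norm_nonneg _))
    linarith
  linarith

private theorem near_of_inf [NormedAlgebra ℝ R] [FiniteDimensional ℝ R] (τ : Γ →* R) (C : ℝ)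
    (hC : {g : Γ | ‖τ g‖ ≤ C ∧ ‖τ g⁻¹‖ ≤ C}.Infinite) (ε : ℝ) (hε : 0 < ε) :
    ∃ g : Γ, g ≠ 1 ∧ ‖τ g - 1‖ < ε := by
  have hC0 : 0 ≤ C := by
    obtain ⟨g, hg⟩ := hC.nonempty
    exact (norm_nonneg _).trans hg.1
  obtain ⟨a, ha, b, hb, hab, h⟩ := pair_close _ hC (fun g => τ g) C (fun a ha => ha.1)
    (ε / (C + 1)) (by positivity)
  refine ⟨a⁻¹ * b, ?_, ?_⟩
  · intro h1
    exact hab (inv_mul_eq_one.1 h1)
  · rw [diff_eq]
    have h1 : ‖τ b - τ a‖ < ε / (C + 1) := by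
      rw [norm_sub_rev]
      exact h
    calc ‖τ a⁻¹ * (τ b - τ a)‖ ≤ ‖τ a⁻¹‖ * ‖τ b - τ a‖ := norm_mul_le _ _
      _ ≤ C * ‖τ b - τ a‖ := mul_le_mul_of_nonneg_right ha.2 (norm_nonneg _)
      _ ≤ C * (ε / (C + 1)) := mul_le_mul_of_nonneg_left h1.le hC0
      _ < ε := by
        rw [mul_div_assoc', div_lt_iff₀ (by linarith)]
        nlinarith

private theorem comm_bound (τ : Γ →* R) (ε : ℝ) (hε : 0 < ε) :
    ∃ ε₁ : ℝ, 0 < ε₁ ∧ ∀ g h : Γ, ‖τ g - 1‖ < ε₁ → ‖τ h - 1‖ < ε₁ →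
      ‖τ (g * h * g⁻¹ * h⁻¹) - 1‖ < ε := by
  set M : ℝ := ‖(1 : R)‖ with hM
  have hM0 : 0 ≤ M := norm_nonneg _
  refine ⟨min (1 / 2) (ε / (8 * (M * M) + 1)), by positivity, ?_⟩
  intro g h hg hh
  set ε₁ : ℝ := min (1 / 2) (ε / (8 * (M * M) + 1)) with hε₁
  have h1 : ε₁ ≤ 1 / 2 := min_le_left _ _
  have h2 : ε₁ ≤ ε / (8 * (M * M) + 1) := min_le_right _ _
  have h0 : 0 < ε₁ := by positivity
  have hgi := inv_bound τ g (hg.le.trans h1)
  have hhi := inv_bound τ h (hh.le.trans h1)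
  have e1 : τ (g * h * g⁻¹ * h⁻¹) - 1 =
      ((τ g - 1) * (τ h - 1) - (τ h - 1) * (τ g - 1)) * τ g⁻¹ * τ h⁻¹ := by
    have e2 : (τ g - 1) * (τ h - 1) - (τ h - 1) * (τ g - 1) = τ g * τ h - τ h * τ g := by
      noncomm_ring
    have e3 : τ h * τ g * τ g⁻¹ * τ h⁻¹ = 1 := by
      rw [mul_assoc (τ h), mul_inv_map, mul_one, mul_inv_map]
    rw [e2, sub_mul, sub_mul, e3, map_mul, map_mul, map_mul]
  rw [e1]
  have b1 : ‖(τ g - 1) * (τ h - 1) - (τ h - 1) * (τ g - 1)‖ ≤ 2 * (ε₁ * ε₁) := by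
    refine (norm_sub_le _ _).trans ?_
    have c1 : ‖(τ g - 1) * (τ h - 1)‖ ≤ ε₁ * ε₁ :=
      (norm_mul_le _ _).trans (mul_le_mul hg.le hh.le (norm_nonneg _) h0.le)
    have c2 : ‖(τ h - 1) * (τ g - 1)‖ ≤ ε₁ * ε₁ :=
      (norm_mul_le _ _).trans (mul_le_mul hh.le hg.le (norm_nonneg _) h0.le)
    linarith
  have b2 : ‖((τ g - 1) * (τ h - 1) - (τ h - 1) * (τ g - 1)) * τ g⁻¹ * τ h⁻¹‖ ≤
      2 * (ε₁ * ε₁) * (2 * M) * (2 * M) := by
    refine (norm_mul_le _ _).trans ?_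
    refine mul_le_mul ?_ hhi (norm_nonneg _) (by positivity)
    refine (norm_mul_le _ _).trans ?_
    exact mul_le_mul b1 hgi (norm_nonneg _) (by positivity)
  refine b2.trans_lt ?_
  have b3 : (8 * (M * M) + 1) * ε₁ ≤ ε := by
    rw [le_div_iff₀ (by positivity)] at h2
    linarith
  have b4 : 2 * (ε₁ * ε₁) * (2 * M) * (2 * M) = (8 * (M * M)) * ε₁ * ε₁ := by ring
  rw [b4]
  have b5 : (8 * (M * M)) * ε₁ * ε₁ ≤ (8 * (M * M)) * ε₁ * 1 :=
    mul_le_mul_of_nonneg_left (by linarith) (by positivity)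
  linarith

end

end NearAux

open NearAux

section

variable {E : Type*} [NormedAddCommGroup E] [NormedSpace ℝ E] [FiniteDimensional ℝ E]
  {D : Geo E}

private theorem hat_pt' (D : Geo E) (g : D.Γ) (x : E) :
    hatHom D.Γ g (x, 1) = (g.1 x, 1) := by
  have h : hatHom D.Γ g (x, 1) = (g.1.linear x + (1 : ℝ) • g.1 0, (1 : ℝ)) := rfl
  rw [h, one_smul, ← aff_eq]

private theorem hat_vec' (D : Geo E) (g : D.Γ) (w : E) :
    hatHom D.Γ g (w, 0) = (g.1.linear w, 0) := by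
  have h : hatHom D.Γ g (w, 0) = (g.1.linear w + (0 : ℝ) • g.1 0, (0 : ℝ)) := rfl
  rw [h, zero_smul, add_zero]

theorem base_inj (S : InvSub D) (hM : modSub D S.U = ⊥) : Function.Injective S.base := by
  rw [injective_iff_map_eq_one]
  intro k hk
  have h1 : (1 - S.e) * hatHom D.Γ k * (1 - S.e) = 1 - S.e := by
    rw [S.base_apply] at hk
    exact eq_sub_of_add_eq' hk
  have h2 : (1 - S.e) * hatHom D.Γ k = 1 - S.e := by
    have h3 : (1 - S.e) * hatHom D.Γ k =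
        (1 - S.e) * hatHom D.Γ k * (1 - S.e) + (1 - S.e) * hatHom D.Γ k * S.e := by
      rw [← mul_add, sub_add_cancel, mul_one]
    rw [h3, h1, S.inv', add_zero]
  have h4 : k ∈ modSub D S.U := by
    rw [mem_modSub]
    intro x _
    have h5 : ((1 - S.e) * hatHom D.Γ k) (x, 1) = (1 - S.e) (x, 1) := by rw [h2]
    have h6 : ((1 - S.e) * hatHom D.Γ k) (x, 1) = (1 - S.e) (k.1 x, 1) := by
      rw [← hat_pt']
      rfl
    rw [h6] at h5
    have h7 : (1 - S.e) (k.1 x - x, 0) = 0 := by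
      have h8 : ((k.1 x - x, 0) : E × ℝ) = (k.1 x, 1) - (x, 1) := by
        ext
        · rfl
        · simp
      rw [h8, map_sub, h5, sub_self]
    have h9 : S.e (k.1 x - x, 0) = (k.1 x - x, 0) := by
      have h10 : (1 - S.e) (k.1 x - x, 0) = (k.1 x - x, 0) - S.e (k.1 x - x, 0) := rfl
      rw [h10] at h7
      exact (sub_eq_zero.1 h7).symm
    exact ((S.range _).1 h9).2
  rw [hM] at h4
  exact Subgroup.mem_bot.1 h4

theorem near_seq (S : InvSub D) (hnd : ¬ DiscMod (hatHom D.Γ) S.e) (ε : ℝ) (hε : 0 < ε) :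
    ∃ g : D.Γ, g ≠ 1 ∧ ‖S.base g - 1‖ < ε := by
  have h1 : ∃ C : ℝ, {g : D.Γ | ‖(1 - S.e) * hatHom D.Γ g * (1 - S.e)‖ ≤ C ∧
      ‖(1 - S.e) * hatHom D.Γ g⁻¹ * (1 - S.e)‖ ≤ C}.Infinite := by
    by_contra h
    apply hnd
    intro C
    by_contra h2
    exact h ⟨C, h2⟩
  obtain ⟨C, hC⟩ := h1
  refine near_of_inf S.base (‖S.e‖ + C) ?_ ε hε
  refine hC.mono ?_
  rintro g ⟨h2, h3⟩
  refine ⟨?_, ?_⟩
  · rw [S.base_apply]
    exact (norm_add_le _ _).trans (by linarith)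
  · rw [S.base_apply]
    exact (norm_add_le _ _).trans (by linarith)

theorem near_comm (S : InvSub D) (hnd : ¬ DiscMod (hatHom D.Γ) S.e) (hM : modSub D S.U = ⊥)
    (hab : ¬ HasAbNormal D.Γ) (ε : ℝ) (hε : 0 < ε) :
    ∃ c ∈ commutator D.Γ, c ≠ 1 ∧ ‖S.base c - 1‖ < ε := by
  by_contra hcon
  apply hab
  obtain ⟨ε₁, hε₁, h1⟩ := comm_bound S.base ε hε
  refine aus2 S.base ⟨ε₁, hε₁, ?_⟩ ?_ ?_
  · intro g h hg hh
    have h2 := h1 g h hg hh
    have h3 : g * h * g⁻¹ * h⁻¹ ∈ commutator D.Γ :=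
      Subgroup.commutator_mem_commutator (Subgroup.mem_top g) (Subgroup.mem_top h)
    have h4 : g * h * g⁻¹ * h⁻¹ = 1 := by
      by_contra h5
      exact hcon ⟨_, h3, h5, h2⟩
    have h6 : g * h * g⁻¹ = h := mul_inv_eq_one.1 h4
    have h7 := mul_inv_eq_iff_eq_mul.1 h6
    exact h7
  · intro g h hgh
    exact base_inj S hM hgh
  · intro δ hδ
    exact near_seq S hnd δ hδ

theorem near_big (S : InvSub D) (hM : modSub D S.U = ⊥) (hab : ¬ HasAbNormal D.Γ) (C : ℝ) :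
    ∃ ε : ℝ, 0 < ε ∧ ∀ c : D.Γ, c ≠ 1 → ‖S.base c - 1‖ < ε → C < ‖S.rep c‖ ∨ C < ‖S.rep c⁻¹‖ := by
  classical
  by_contra hcon
  apply hab
  have hcon' : ∀ ε : ℝ, 0 < ε → ∃ c : D.Γ, c ≠ 1 ∧ ‖S.base c - 1‖ < ε ∧ ‖S.rep c‖ ≤ C ∧
      ‖S.rep c⁻¹‖ ≤ C := by
    intro ε hε
    by_contra h1
    apply hcon
    refine ⟨ε, hε, fun c hc1 hc2 => ?_⟩
    by_contra h2
    rw [not_or, not_lt, not_lt] at h2
    exact h1 ⟨c, hc1, hc2, h2.1, h2.2⟩
  -- the upper block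
  have hBb : ∀ c : D.Γ, ‖S.e * hatHom D.Γ c * S.e‖ ≤ ‖S.rep c‖ * ‖S.e‖ := by
    intro c
    refine ContinuousLinearMap.opNorm_le_bound _ (by positivity) ?_
    intro z
    have h1 : S.e (S.e z) = S.e z := by
      have h2 : (S.e * S.e) z = S.e z := by rw [S.idem]
      exact h2
    obtain ⟨h3, h4⟩ := (S.range _).1 h1
    set u : S.U := ⟨(S.e z).1, h4⟩ with hu
    have h5 : S.e z = ((u : E), 0) := Prod.ext rfl h3
    have h6 : (S.e * hatHom D.Γ c * S.e) z = S.e (hatHom D.Γ c (S.e z)) := rfl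
    have h7 : S.e ((S.rep c u : E), 0) = ((S.rep c u : E), 0) :=
      (S.range _).2 ⟨rfl, (S.rep c u).2⟩
    rw [h6, h5, hat_vec', ← S.rep_apply, h7]
    have h8 : ‖(((S.rep c u : S.U) : E), (0 : ℝ))‖ = ‖S.rep c u‖ := by
      rw [Prod.norm_def, norm_zero, max_eq_left (norm_nonneg _)]
      rfl
    rw [h8]
    have h9 : ‖u‖ ≤ ‖S.e z‖ := norm_fst_le (S.e z)
    calc ‖S.rep c u‖ ≤ ‖S.rep c‖ * ‖u‖ := (S.rep c).le_opNorm u
      _ ≤ ‖S.rep c‖ * (‖S.e‖ * ‖z‖) :=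
        mul_le_mul_of_nonneg_left (h9.trans (S.e.le_opNorm z)) (norm_nonneg (S.rep c))
      _ = ‖S.rep c‖ * ‖S.e‖ * ‖z‖ := by ring
  have hB1 : ∀ g : D.Γ, hatHom D.Γ g * S.e = S.e * hatHom D.Γ g * S.e := by
    intro g
    have h1 := S.inv' g
    rw [sub_mul, sub_mul, one_mul, sub_eq_zero] at h1
    exact h1
  have hBm : ∀ g h : D.Γ, S.e * hatHom D.Γ (g * h) * S.e =
      (S.e * hatHom D.Γ g * S.e) * (S.e * hatHom D.Γ h * S.e) := by
    intro g h
    rw [map_mul]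
    calc S.e * (hatHom D.Γ g * hatHom D.Γ h) * S.e
        = S.e * hatHom D.Γ g * (hatHom D.Γ h * S.e) := by noncomm_ring
      _ = S.e * hatHom D.Γ g * (S.e * hatHom D.Γ h * S.e) := by rw [hB1 h]
      _ = S.e * hatHom D.Γ g * ((S.e * S.e) * hatHom D.Γ h * S.e) := by rw [S.idem]
      _ = _ := by noncomm_ring
  set K : ℝ := C * ‖S.e‖ with hK
  -- the sets of near elements are infinite
  let T : ℝ → Set D.Γ := fun δ => {c | c ≠ 1 ∧ ‖S.base c - 1‖ < δ ∧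
    ‖S.e * hatHom D.Γ c * S.e‖ ≤ K ∧ ‖S.e * hatHom D.Γ c⁻¹ * S.e‖ ≤ K}
  have hTne : ∀ δ, 0 < δ → (T δ).Nonempty := by
    intro δ hδ
    obtain ⟨c, h1, h2, h3, h4⟩ := hcon' δ hδ
    exact ⟨c, h1, h2, (hBb c).trans (mul_le_mul_of_nonneg_right h3 (norm_nonneg _)),
      (hBb c⁻¹).trans (mul_le_mul_of_nonneg_right h4 (norm_nonneg _))⟩
  have hTinf : ∀ δ, 0 < δ → (T δ).Infinite := by
    intro δ hδ hfin
    obtain ⟨m, hm, hmin⟩ := hfin.toFinset.exists_min_image (fun c => ‖S.base c - 1‖)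
      (by
        obtain ⟨c, hc⟩ := hTne δ hδ
        exact ⟨c, hfin.mem_toFinset.2 hc⟩)
    rw [hfin.mem_toFinset] at hm
    have h1 : 0 < ‖S.base m - 1‖ := by
      rw [norm_pos_iff, sub_ne_zero]
      intro h2
      exact hm.1 (base_inj S hM (by rw [h2, map_one]))
    obtain ⟨c, hc⟩ := hTne _ h1
    have h3 : c ∈ T δ := ⟨hc.1, hc.2.1.trans hm.2.1, hc.2.2⟩
    have h4 := hmin c (hfin.mem_toFinset.2 h3)
    exact absurd hc.2.1 (not_lt.2 h4)
  have hK0 : 0 ≤ K := by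
    obtain ⟨c, hc⟩ := hTne 1 one_pos
    exact (norm_nonneg _).trans hc.2.2.1
  refine aus1 (hatHom D.Γ) ?_ ?_ S.e S.idem S.inv' ?_
  · intro g h hgh
    exact Subtype.ext (hat_injective hgh)
  · intro C'
    refine (disc_of_geo D C').subset ?_
    rintro g ⟨h1, h2⟩
    refine ⟨?_, ?_⟩
    · rw [sub_zero, one_mul, mul_one]
      exact h1
    · rw [sub_zero, one_mul, mul_one]
      exact h2
  · intro ε hε
    set M : ℝ := ‖(1 : Alg E)‖ with hMd
    have hM0 : 0 ≤ M := norm_nonneg _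
    set δ : ℝ := min (1 / 2) (ε / (8 * M + 1)) with hδ
    have hδ0 : 0 < δ := by positivity
    have hδ1 : δ ≤ 1 / 2 := min_le_left _ _
    have hδ2 : (8 * M + 1) * δ ≤ ε := by
      have h1 : δ ≤ ε / (8 * M + 1) := min_le_right _ _
      rw [le_div_iff₀ (by positivity)] at h1
      linarith
    obtain ⟨a, ha, b, hb, hne, hab'⟩ := pair_close (T δ) (hTinf δ hδ0)
      (fun c => S.e * hatHom D.Γ c * S.e) K (fun c hc => hc.2.2.1) (ε / (2 * (K + 1)))
      (by positivity)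
    refine ⟨a⁻¹ * b, ?_, ?_⟩
    · intro h1
      exact hne (inv_mul_eq_one.1 h1)
    · have e1 : S.e * hatHom D.Γ (a⁻¹ * b) * S.e - S.e =
          (S.e * hatHom D.Γ a⁻¹ * S.e) * (S.e * hatHom D.Γ b * S.e - S.e * hatHom D.Γ a * S.e) := by
        rw [mul_sub, ← hBm, ← hBm, inv_mul_cancel, map_one, mul_one, S.idem]
      have e2 : S.base (a⁻¹ * b) - 1 = S.base a⁻¹ * (S.base b - S.base a) := diff_eq _ _ _
      have e3 : S.e * hatHom D.Γ (a⁻¹ * b) * S.e +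
          (1 - S.e) * hatHom D.Γ (a⁻¹ * b) * (1 - S.e) - 1 =
          (S.e * hatHom D.Γ (a⁻¹ * b) * S.e - S.e) + (S.base (a⁻¹ * b) - 1) := by
        rw [S.base_apply]
        abel
      rw [e3]
      have n1 : ‖S.e * hatHom D.Γ (a⁻¹ * b) * S.e - S.e‖ ≤ ε / 2 := by
        rw [e1]
        have h1 : ‖S.e * hatHom D.Γ b * S.e - S.e * hatHom D.Γ a * S.e‖ ≤ ε / (2 * (K + 1)) := by
          rw [norm_sub_rev]
          exact hab'.le
        refine (norm_mul_le _ _).trans ?_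
        refine (mul_le_mul ha.2.2.2 h1 (norm_nonneg _) hK0).trans ?_
        have h2 : K * (ε / (2 * (K + 1))) = (K / (K + 1)) * (ε / 2) := by
          field_simp
        rw [h2]
        have h3 : K / (K + 1) ≤ 1 := by
          rw [div_le_one (by linarith)]
          linarith
        have h4 : (K / (K + 1)) * (ε / 2) ≤ 1 * (ε / 2) :=
          mul_le_mul_of_nonneg_right h3 (by linarith)
        linarith
      have n2 : ‖S.base (a⁻¹ * b) - 1‖ < ε / 2 := by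
        rw [e2]
        have h1 : ‖S.base a⁻¹‖ ≤ 2 * M := inv_bound S.base a (ha.2.1.le.trans hδ1)
        have h2 : ‖S.base b - S.base a‖ ≤ 2 * δ := by
          have h3 : S.base b - S.base a = (S.base b - 1) - (S.base a - 1) := by abel
          rw [h3]
          refine (norm_sub_le _ _).trans ?_
          have h4 := ha.2.1
          have h5 := hb.2.1
          linarith
        refine (norm_mul_le _ _).trans_lt ?_
        refine (mul_le_mul h1 h2 (norm_nonneg _) (by positivity)).trans_lt ?_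
        nlinarith
      exact (norm_add_le _ _).trans_lt (by linarith)

end

end Pool.AF
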