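import Pool.Agent.Helper94.AB.Uni
import Pool.Agent.Helper94.AB.Near
import Pool.Agent.Helper94.AL.Alg

/-!
# Irreducibility of the subgroups generated by the elements near the identity
-/

open Set Filter Topology

set_option linter.unusedSectionVars false

namespace Pool.AF

open Pool.SV
open scoped Pointwise

section

variable {E : Type*} [NormedAddCommGroup E] [NormedSpace ℝ E] [FiniteDimensional ℝ E]
  {D : Geo E}

/-- The linear action on `U`, as linear maps. -/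
noncomputable def InvSub.lrep (S : InvSub D) : D.Γ →* (S.U →ₗ[ℝ] S.U) where
  toFun g := (S.rep g : S.U →ₗ[ℝ] S.U)
  map_one' := by rw [map_one]; rfl
  map_mul' g h := by rw [map_mul]; rfl

theorem InvSub.lrep_apply (S : InvSub D) (g : D.Γ) (u : S.U) : S.lrep g u = S.rep g u := rfl

/-- Every subgroup of finite index acts irreducibly on `U`. -/
def InvSub.Irr (S : InvSub D) : Prop := ∀ H : Subgroup D.Γ, H.FiniteIndex →
  ∀ U : Submodule ℝ S.U, (∀ h ∈ H, ∀ u ∈ U, S.lrep h u ∈ U) → U = ⊥ ∨ U = ⊤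

/-- The subgroup generated by the elements of `commutator D.Γ` near the identity. -/
def nearSub (S : InvSub D) (ε : ℝ) : Subgroup D.Γ :=
  Subgroup.closure {c | c ∈ commutator D.Γ ∧ ‖S.base c - 1‖ < ε}

theorem nearSub_mono (S : InvSub D) {ε ε' : ℝ} (h : ε ≤ ε') : nearSub S ε ≤ nearSub S ε' :=
  Subgroup.closure_mono (fun _ hc => ⟨hc.1, hc.2.trans_le h⟩)

theorem nearSub_le (S : InvSub D) (ε : ℝ) : nearSub S ε ≤ commutator D.Γ := by
  rw [nearSub, Subgroup.closure_le]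
  exact fun _ hc => hc.1

theorem base_mul_inv (S : InvSub D) (g : D.Γ) : S.base g * S.base g⁻¹ = 1 := by
  rw [← map_mul, mul_inv_cancel, map_one]

theorem base_inv_mul (S : InvSub D) (g : D.Γ) : S.base g⁻¹ * S.base g = 1 := by
  rw [← map_mul, inv_mul_cancel, map_one]

theorem rep_mul_inv (S : InvSub D) (g : D.Γ) : S.rep g * S.rep g⁻¹ = 1 := by
  rw [← map_mul, mul_inv_cancel, map_one]

theorem rep_inv_mul (S : InvSub D) (g : D.Γ) : S.rep g⁻¹ * S.rep g = 1 := by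
  rw [← map_mul, inv_mul_cancel, map_one]

theorem nearSub_conj (S : InvSub D) (g : D.Γ) (ε : ℝ) (hε : 0 < ε) :
    ∃ ε' : ℝ, 0 < ε' ∧ ∀ δ ∈ nearSub S ε', g⁻¹ * δ * g ∈ nearSub S ε := by
  have hpos : 0 < ‖S.base g⁻¹‖ * ‖S.base g‖ + 1 := by positivity
  refine ⟨ε / (‖S.base g⁻¹‖ * ‖S.base g‖ + 1), by positivity, ?_⟩
  intro δ hδ
  have key : nearSub S (ε / (‖S.base g⁻¹‖ * ‖S.base g‖ + 1)) ≤
      (nearSub S ε).comap (MulAut.conj g⁻¹).toMonoidHom := by
    rw [nearSub, Subgroup.closure_le]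
    rintro c ⟨hc1, hc2⟩
    rw [SetLike.mem_coe, Subgroup.mem_comap]
    refine Subgroup.subset_closure ⟨?_, ?_⟩
    · have := (inferInstance : (commutator D.Γ).Normal).conj_mem c hc1 g⁻¹
      exact this
    · have h1 : S.base ((MulAut.conj g⁻¹).toMonoidHom c) - 1 =
          S.base g⁻¹ * (S.base c - 1) * S.base g := by
        rw [mul_sub, sub_mul, mul_one, base_inv_mul]
        congr 1
        change S.base (g⁻¹ * c * g⁻¹⁻¹) = _
        rw [inv_inv, map_mul, map_mul]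
      rw [h1]
      calc ‖S.base g⁻¹ * (S.base c - 1) * S.base g‖
          ≤ ‖S.base g⁻¹‖ * ‖S.base c - 1‖ * ‖S.base g‖ :=
            (norm_mul_le _ _).trans (mul_le_mul_of_nonneg_right (norm_mul_le _ _) (norm_nonneg _))
        _ = (‖S.base g⁻¹‖ * ‖S.base g‖) * ‖S.base c - 1‖ := by ring
        _ ≤ (‖S.base g⁻¹‖ * ‖S.base g‖ + 1) * ‖S.base c - 1‖ := by
            refine mul_le_mul_of_nonneg_right ?_ (norm_nonneg _)
            linarith
        _ < (‖S.base g⁻¹‖ * ‖S.base g‖ + 1) * (ε / (‖S.base g⁻¹‖ * ‖S.base g‖ + 1)) :=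
            mul_lt_mul_of_pos_left hc2 hpos
        _ = ε := by field_simp
  have h2 := key hδ
  rw [Subgroup.mem_comap] at h2
  have h3 : (MulAut.conj g⁻¹).toMonoidHom δ = g⁻¹ * δ * g := by
    change g⁻¹ * δ * g⁻¹⁻¹ = _
    rw [inv_inv]
  rwa [h3] at h2

/-- The elements near the identity act by large linear maps. -/
theorem near_large (S : InvSub D) (hnd : ¬ DiscMod (hatHom D.Γ) S.e) (hM : modSub D S.U = ⊥)
    (hab : ¬ HasAbNormal D.Γ) (C ε : ℝ) (hε : 0 < ε) :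
    ∃ c ∈ commutator D.Γ, ‖S.base c - 1‖ < ε ∧ (C < ‖S.rep c‖ ∨ C < ‖S.rep c⁻¹‖) := by
  obtain ⟨ε₁, hε₁, h1⟩ := near_big S hM hab C
  obtain ⟨c, hc, hc1, hc2⟩ := near_comm S hnd hM hab (min ε ε₁) (lt_min hε hε₁)
  exact ⟨c, hc, hc2.trans_le (min_le_left _ _), h1 c hc1 (hc2.trans_le (min_le_right _ _))⟩

theorem irr_near (S : InvSub D) (h3 : Module.finrank ℝ S.U = 3) (hirr : S.Irr)
    (hnd : ¬ DiscMod (hatHom D.Γ) S.e) (hM : modSub D S.U = ⊥)
    (hab : ¬ HasAbNormal D.Γ) (ε : ℝ) (hε : 0 < ε) (U : Submodule ℝ S.U)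
    (hU : ∀ c ∈ commutator D.Γ, ‖S.base c - 1‖ < ε → ∀ u ∈ U, S.lrep c u ∈ U) :
    U = ⊥ ∨ U = ⊤ := by
  have hmem : nearSub S ε ∈ {Δ : Subgroup D.Γ | ∃ ε : ℝ, 0 < ε ∧ Δ = nearSub S ε} :=
    ⟨ε, hε, rfl⟩
  refine uni h3 S.lrep hirr {Δ | ∃ ε : ℝ, 0 < ε ∧ Δ = nearSub S ε} ⟨_, hmem⟩ ?_ ?_ ?_ ?_
    _ hmem U ?_
  · rintro _ ⟨a, ha, rfl⟩ _ ⟨b, hb, rfl⟩
    exact ⟨nearSub S (min a b), ⟨_, lt_min ha hb, rfl⟩, nearSub_mono S (min_le_left _ _),
      nearSub_mono S (min_le_right _ _)⟩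
  · rintro g _ ⟨a, ha, rfl⟩
    obtain ⟨b, hb, h⟩ := nearSub_conj S g a ha
    exact ⟨nearSub S b, ⟨b, hb, rfl⟩, h⟩
  · rintro _ ⟨a, ha, rfl⟩ δ hδ
    exact det_commutator S.lrep δ (nearSub_le S a hδ)
  · rintro _ ⟨a, ha, rfl⟩
    obtain ⟨c, hc, hc1, hc2⟩ := near_large S hnd hM hab ‖(1 : S.U →L[ℝ] S.U)‖ a ha
    refine ⟨c, Subgroup.subset_closure ⟨hc, hc1⟩, fun h => ?_⟩
    have h1 : S.rep c = 1 := by
      apply ContinuousLinearMap.ext
      intro u
      exact LinearMap.congr_fun h u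
    have h2 : S.rep c⁻¹ = 1 := by
      have := rep_inv_mul S c
      rwa [h1, mul_one] at this
    rw [h1, h2] at hc2
    rcases hc2 with h | h <;> exact lt_irrefl _ h
  · intro δ hδ
    have key : ∀ δ ∈ nearSub S ε, (∀ u ∈ U, S.lrep δ u ∈ U) := by
      intro δ hδ
      induction hδ using Subgroup.closure_induction'' with
      | one => intro u hu; rw [map_one]; exact hu
      | mem c hc => exact hU c hc.1 hc.2
      | inv_mem c hc =>
        intro u hu
        have h1 := hU c hc.1 hc.2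
        have h2 : U.map (S.lrep c) = U := by
          refine Submodule.eq_of_le_of_finrank_eq ?_ ?_
          · rintro _ ⟨v, hv, rfl⟩
            exact h1 v hv
          · have hinj : Function.Injective (S.lrep c) := by
              intro a b hab
              have h3 := congrArg (S.lrep c⁻¹) hab
              rw [← Module.End.mul_apply, ← Module.End.mul_apply, ← map_mul, inv_mul_cancel,
                map_one] at h3
              exact h3
            exact (LinearEquiv.finrank_eq (Submodule.equivMapOfInjective _ hinj U)).symm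
        rw [← h2] at hu
        obtain ⟨v, hv, rfl⟩ := hu
        rw [← Module.End.mul_apply, ← map_mul, inv_mul_cancel, map_one]
        exact hv
      | mul a b _ _ ha hb =>
        intro u hu
        rw [map_mul]
        exact ha _ (hb u hu)
    exact key δ hδ

theorem irr_fin (S : InvSub D) (h3 : Module.finrank ℝ S.U = 3) (hirr : S.Irr)
    (hnd : ¬ DiscMod (hatHom D.Γ) S.e) (hM : modSub D S.U = ⊥)
    (hab : ¬ HasAbNormal D.Γ) (H : Subgroup D.Γ) (hH : H ≤ commutator D.Γ)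
    (hfi : H.relIndex (commutator D.Γ) ≠ 0) (U : Submodule ℝ S.U)
    (hU : ∀ h ∈ H, ∀ u ∈ U, S.lrep h u ∈ U) : U = ⊥ ∨ U = ⊤ := by
  refine uni h3 S.lrep hirr {H | H ≤ commutator D.Γ ∧ H.relIndex (commutator D.Γ) ≠ 0}
    ⟨H, hH, hfi⟩ ?_ ?_ ?_ ?_ H ⟨hH, hfi⟩ U hU
  · rintro A ⟨hA, hA'⟩ B ⟨hB, hB'⟩
    exact ⟨A ⊓ B, ⟨inf_le_left.trans hA, Subgroup.relIndex_inf_ne_zero hA' hB'⟩, inf_le_left,
      inf_le_right⟩
  · rintro g A ⟨hA, hA'⟩
    refine ⟨MulAut.conj g • A, ⟨?_, ?_⟩, ?_⟩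
    · have h1 : MulAut.conj g • A ≤ MulAut.conj g • commutator D.Γ :=
        Subgroup.pointwise_smul_le_pointwise_smul_iff.mpr hA
      rwa [Subgroup.Normal.conj_smul_eq_self g (commutator D.Γ)] at h1
    · have h1 := Subgroup.relIndex_pointwise_smul (MulAut.conj g) A (commutator D.Γ)
      rw [Subgroup.Normal.conj_smul_eq_self g (commutator D.Γ)] at h1
      rw [h1]
      exact hA'
    · intro δ hδ
      rw [Subgroup.mem_pointwise_smul_iff_inv_smul_mem, ← map_inv] at hδ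
      have h2 : MulAut.conj g⁻¹ • δ = g⁻¹ * δ * g := by
        change g⁻¹ * δ * g⁻¹⁻¹ = _
        rw [inv_inv]
      rwa [h2] at hδ
  · rintro A ⟨hA, hA'⟩ δ hδ
    exact det_commutator S.lrep δ (hA hδ)
  · rintro A ⟨hA, hA'⟩
    by_contra hcon
    push Not at hcon
    have hfi' : (A.subgroupOf (commutator D.Γ)).FiniteIndex := ⟨hA'⟩
    have hfin : Finite (commutator D.Γ ⧸ A.subgroupOf (commutator D.Γ)) := inferInstance
    have hrep : ∀ a ∈ A, S.rep a = 1 := by
      intro a ha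
      apply ContinuousLinearMap.ext
      intro u
      exact LinearMap.congr_fun (hcon a ha) u
    -- the norms are bounded
    have hbdd : ∃ C : ℝ, ∀ c ∈ commutator D.Γ, ‖S.rep c‖ ≤ C := by
      obtain ⟨C, hC⟩ := (Set.finite_range (fun q : commutator D.Γ ⧸ A.subgroupOf (commutator D.Γ) =>
        ‖S.rep (q.out : commutator D.Γ).1‖)).bddAbove
      refine ⟨C, fun c hc => ?_⟩
      have h1 := hC ⟨QuotientGroup.mk ⟨c, hc⟩, rfl⟩
      obtain ⟨a, ha⟩ := QuotientGroup.mk_out_eq_mul (A.subgroupOf (commutator D.Γ)) ⟨c, hc⟩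
      change ‖S.rep ((QuotientGroup.mk ⟨c, hc⟩ : commutator D.Γ ⧸ _).out : commutator D.Γ).1‖ ≤ C
        at h1
      rw [ha] at h1
      have h2 : S.rep ((⟨c, hc⟩ : commutator D.Γ) * (a : commutator D.Γ) : commutator D.Γ).1 =
          S.rep c := by
        have h3 : ((⟨c, hc⟩ : commutator D.Γ) * (a : commutator D.Γ) : commutator D.Γ).1 =
          c * (a : commutator D.Γ).1 := rfl
        rw [h3, map_mul, hrep _ (Subgroup.mem_subgroupOf.mp a.2), mul_one]
      rwa [h2] at h1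
    obtain ⟨C, hC⟩ := hbdd
    obtain ⟨c, hc, _, hc2⟩ := near_large S hnd hM hab C 1 one_pos
    rcases hc2 with h | h
    · exact absurd (hC c hc) (not_le.mpr h)
    · exact absurd (hC _ ((commutator D.Γ).inv_mem hc)) (not_le.mpr h)

end

end Pool.AF
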