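import Pool.Agent.Helper94.AB.Defs

/-!
# AB-7 LIM: the limit character

`τ : G →* R` defines a (non Hausdorff) topology on `G`; `γ n → 1` in it; `t₁, t₂ : G → ℝ` are
asymptotically multiplicative: `t (f * γ n * g) / a n → t f * t g`; the quotient `t₂ / t₁` is bounded
above and below on bounded sets, and `t₁ ≠ 0` on a dense set. Then `|t₂| = χ |t₁|` for a positive
multiplicative function `χ`.

Proof. Let `Q = {h | t₁ h ≠ 0}` and `ψ h = log |t₂ h / t₁ h|` for `h ∈ Q` (`t₂ h ≠ 0` by the bound).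
For `g ∈ G`, the elements `h` with `‖τ h - τ g‖ < ε` have `‖τ h‖` and, if `ε ‖τ g⁻¹‖ ≤ 1/2`, also
`‖τ h⁻¹‖ ≤ 2 ‖1‖ ‖τ g⁻¹‖` bounded; so `ψ` is bounded on `Q` near `g`, and `Q` meets every
neighbourhood of `g`. Define `up g = inf_ε sup {ψ h | h ∈ Q, ‖τ h - τ g‖ < ε}` and
`lo g = sup_ε inf {ψ h | h ∈ Q, ‖τ h - τ g‖ < ε}`, so `lo g ≤ up g`.

`up (f * g) ≥ up f + up g`: for `δ > 0` take `h ∈ Q` near `f` and `k ∈ Q` near `g` with
`ψ h > up f - δ`, `ψ k > up g - δ`. By `h1`, `t₁ (h * γ n * k) / a n → t₁ h * t₁ k ≠ 0`, and the same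
for `t₂`, so for large `n` `h * γ n * k ∈ Q` and `ψ (h * γ n * k) → ψ h + ψ k`; and
`τ (h * γ n * k) → τ h * τ k`, near `τ (f * g)`. Similarly `lo (f * g) ≤ lo f + lo g`.

So `up 1 ≥ 2 up 1`, `up 1 ≤ 0`, `lo 1 ≥ 0`, and `up 1 = lo 1 = 0`. Then
`up g ≤ - up g⁻¹ ≤ - lo g⁻¹ ≤ lo g ≤ up g`, so `up = lo` is additive. `χ = exp ∘ up`. For `f ∈ Q`,
`lo f ≤ ψ f ≤ up f`, so `|t₂ f| = χ f * |t₁ f|`. If `t₁ f = 0` then `t₂ f = 0` by the bound.
-/

open Set Filter Topology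

set_option linter.unusedSectionVars false

namespace Pool.AF

namespace LC

variable {G R : Type*} [Group G] [NormedRing R]

/-- The filter of the elements of `Q` near `g`. -/
def nb (τ : G →* R) (Q : Set G) (g : G) : Filter G := comap τ (𝓝 (τ g)) ⊓ 𝓟 Q

theorem nb_basis (τ : G →* R) (Q : Set G) (g : G) :
    (nb τ Q g).HasBasis (fun ε : ℝ => 0 < ε) (fun ε => τ ⁻¹' Metric.ball (τ g) ε ∩ Q) :=
  (Metric.nhds_basis_ball.comap τ).inf_principal Q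

theorem nb_neBot (τ : G →* R) (Q : Set G) (g : G)
    (h : ∀ ε : ℝ, 0 < ε → ∃ f, ‖τ f - τ g‖ < ε ∧ f ∈ Q) : (nb τ Q g).NeBot := by
  rw [(nb_basis τ Q g).neBot_iff]
  intro ε hε
  obtain ⟨f, hf, hQ⟩ := h ε hε
  exact ⟨f, by simpa [dist_eq_norm] using hf, hQ⟩

theorem le_limsup_nb {τ : G →* R} {Q : Set G} {ψ : G → ℝ} {g : G} {c : ℝ}
    (hb : IsBoundedUnder (· ≤ ·) (nb τ Q g) ψ)
    (h : ∀ ε : ℝ, 0 < ε → ∃ x ∈ Q, ‖τ x - τ g‖ < ε ∧ c ≤ ψ x) : c ≤ limsup ψ (nb τ Q g) := by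
  refine le_limsup_of_frequently_le ?_ hb
  rw [(nb_basis τ Q g).frequently_iff]
  intro ε hε
  obtain ⟨x, hx, hx1, hx2⟩ := h ε hε
  exact ⟨x, ⟨by simpa [dist_eq_norm] using hx1, hx⟩, hx2⟩

theorem of_lt_limsup {τ : G →* R} {Q : Set G} {ψ : G → ℝ} {g : G} {c : ℝ}
    (hb : IsCoboundedUnder (· ≤ ·) (nb τ Q g) ψ) (h : c < limsup ψ (nb τ Q g)) {ε : ℝ}
    (hε : 0 < ε) : ∃ x ∈ Q, ‖τ x - τ g‖ < ε ∧ c < ψ x := by
  have := frequently_lt_of_lt_limsup hb h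
  rw [(nb_basis τ Q g).frequently_iff] at this
  obtain ⟨x, hx, hx2⟩ := this ε hε
  exact ⟨x, hx.2, by simpa [dist_eq_norm] using hx.1, hx2⟩

/-- Superadditivity of the upper limit. -/
theorem super (τ : G →* R) (Q : Set G) (ψ : G → ℝ)
    (hb : ∀ g, IsBoundedUnder (· ≤ ·) (nb τ Q g) ψ)
    (hc : ∀ g, IsCoboundedUnder (· ≤ ·) (nb τ Q g) ψ)
    (hmul : ∀ h ∈ Q, ∀ k ∈ Q, ∀ ε : ℝ, 0 < ε → ∀ δ : ℝ, 0 < δ →
      ∃ x ∈ Q, ‖τ x - τ h * τ k‖ < ε ∧ |ψ x - (ψ h + ψ k)| < δ) (f g : G) :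
    limsup ψ (nb τ Q f) + limsup ψ (nb τ Q g) ≤ limsup ψ (nb τ Q (f * g)) := by
  refine le_of_forall_pos_le_add fun δ hδ => ?_
  have h1 : limsup ψ (nb τ Q f) + limsup ψ (nb τ Q g) - δ ≤ limsup ψ (nb τ Q (f * g)) := by
    refine le_limsup_nb (hb _) fun ε hε => ?_
    have hcont : ContinuousAt (fun p : R × R => p.1 * p.2) (τ f, τ g) :=
      (continuous_mul (M := R)).continuousAt
    obtain ⟨η, hη, hη2⟩ := Metric.continuousAt_iff.1 hcont (ε / 2) (half_pos hε)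
    obtain ⟨h, hhQ, hh1, hh2⟩ := of_lt_limsup (hc f)
      (show limsup ψ (nb τ Q f) - δ / 3 < limsup ψ (nb τ Q f) by linarith) hη
    obtain ⟨k, hkQ, hk1, hk2⟩ := of_lt_limsup (hc g)
      (show limsup ψ (nb τ Q g) - δ / 3 < limsup ψ (nb τ Q g) by linarith) hη
    obtain ⟨x, hxQ, hx1, hx2⟩ := hmul h hhQ k hkQ (ε / 2) (half_pos hε) (δ / 3) (by linarith)
    have h3 : dist ((τ h, τ k) : R × R) (τ f, τ g) < η := by
      rw [Prod.dist_eq, max_lt_iff, dist_eq_norm, dist_eq_norm]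
      exact ⟨hh1, hk1⟩
    have h4 := hη2 h3
    rw [dist_eq_norm] at h4
    refine ⟨x, hxQ, ?_, ?_⟩
    · have h5 : τ x - τ (f * g) = (τ x - τ h * τ k) + (τ h * τ k - τ f * τ g) := by
        rw [map_mul]; abel
      rw [h5]
      refine lt_of_le_of_lt (norm_add_le _ _) ?_
      simp only at h4
      linarith
    · have := (abs_lt.1 hx2).1
      linarith
  linarith

/-- A locally bounded function on `Q` which is asymptotically additive is the restriction of a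
homomorphism. -/
theorem abs_char (τ : G →* R) (Q : Set G) (ψ : G → ℝ)
    (hne : ∀ g, (nb τ Q g).NeBot)
    (hbd : ∀ g, ∃ D : ℝ, ∀ᶠ h in nb τ Q g, |ψ h| ≤ D)
    (hmul : ∀ h ∈ Q, ∀ k ∈ Q, ∀ ε : ℝ, 0 < ε → ∀ δ : ℝ, 0 < δ →
      ∃ x ∈ Q, ‖τ x - τ h * τ k‖ < ε ∧ |ψ x - (ψ h + ψ k)| < δ) :
    ∃ u : G → ℝ, (∀ f g, u (f * g) = u f + u g) ∧ ∀ f ∈ Q, ψ f = u f := by
  have b1 : ∀ g, IsBoundedUnder (· ≤ ·) (nb τ Q g) ψ := by
    intro g
    obtain ⟨D, hD⟩ := hbd g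
    exact ⟨D, Filter.eventually_map.2 (hD.mono fun h hh => (abs_le.1 hh).2)⟩
  have b2 : ∀ g, IsBoundedUnder (· ≥ ·) (nb τ Q g) ψ := by
    intro g
    obtain ⟨D, hD⟩ := hbd g
    exact ⟨-D, Filter.eventually_map.2 (hD.mono fun h hh => (abs_le.1 hh).1)⟩
  have b3 : ∀ g, IsBoundedUnder (· ≤ ·) (nb τ Q g) (fun h => -ψ h) := by
    intro g
    obtain ⟨D, hD⟩ := hbd g
    exact ⟨D, Filter.eventually_map.2 (hD.mono fun h hh => by
      have := (abs_le.1 hh).1; linarith)⟩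
  have b4 : ∀ g, IsBoundedUnder (· ≥ ·) (nb τ Q g) (fun h => -ψ h) := by
    intro g
    obtain ⟨D, hD⟩ := hbd g
    exact ⟨-D, Filter.eventually_map.2 (hD.mono fun h hh => by
      have := (abs_le.1 hh).2; linarith)⟩
  have c1 : ∀ g, IsCoboundedUnder (· ≤ ·) (nb τ Q g) ψ := fun g => by
    haveI := hne g
    exact (b2 g).isCoboundedUnder_le
  have c3 : ∀ g, IsCoboundedUnder (· ≤ ·) (nb τ Q g) (fun h => -ψ h) := fun g => by
    haveI := hne g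
    exact (b4 g).isCoboundedUnder_le
  have s1 := super τ Q ψ b1 c1 hmul
  have s2 := super τ Q (fun h => -ψ h) b3 c3 (fun h hh k hk ε hε δ hδ => by
    obtain ⟨x, hx, hx1, hx2⟩ := hmul h hh k hk ε hε δ hδ
    refine ⟨x, hx, hx1, ?_⟩
    rw [show -ψ x - (-ψ h + -ψ k) = -(ψ x - (ψ h + ψ k)) by ring, abs_neg]
    exact hx2)
  obtain ⟨u, hu⟩ : ∃ u : G → ℝ, u = fun g => limsup ψ (nb τ Q g) := ⟨_, rfl⟩
  obtain ⟨w, hw⟩ : ∃ w : G → ℝ, w = fun g => limsup (fun h => -ψ h) (nb τ Q g) := ⟨_, rfl⟩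
  have su : ∀ f g, u f + u g ≤ u (f * g) := by
    intro f g; rw [hu]; exact s1 f g
  have sw : ∀ f g, w f + w g ≤ w (f * g) := by
    intro f g; rw [hw]; exact s2 f g
  have suw : ∀ g, 0 ≤ u g + w g := by
    intro g
    haveI := hne g
    by_contra hlt
    push Not at hlt
    obtain ⟨c, hc1, hc2⟩ : ∃ c : ℝ, u g < c ∧ c < -w g := exists_between (by linarith)
    have e1 : ∀ᶠ h in nb τ Q g, ψ h < c :=
      eventually_lt_of_limsup_lt (by rw [hu] at hc1; exact hc1) (b1 g)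
    have e2 : ∀ᶠ h in nb τ Q g, -ψ h < -c := by
      refine eventually_lt_of_limsup_lt ?_ (b3 g)
      have : w g < -c := by linarith
      rw [hw] at this
      exact this
    obtain ⟨h, hh1, hh2⟩ := (e1.and e2).exists
    linarith
  have u1 : u 1 ≤ 0 := by
    have := su 1 1
    rw [one_mul] at this
    linarith
  have w1 : w 1 ≤ 0 := by
    have := sw 1 1
    rw [one_mul] at this
    linarith
  have uw0 : ∀ g, u g + w g = 0 := by
    intro g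
    have h1 := su g g⁻¹
    have h2 := sw g g⁻¹
    rw [mul_inv_cancel] at h1 h2
    have h3 := suw g
    have h4 := suw g⁻¹
    linarith
  refine ⟨u, ?_, ?_⟩
  · intro f g
    have h1 := su f g
    have h2 := sw f g
    have h3 := uw0 f
    have h4 := uw0 g
    have h5 := uw0 (f * g)
    linarith
  · intro f hf
    have h1 : ψ f ≤ u f := by
      rw [hu]
      exact le_limsup_nb (b1 f) fun ε hε => ⟨f, hf, by simpa using hε, le_rfl⟩
    have h2 : -ψ f ≤ w f := by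
      rw [hw]
      exact le_limsup_nb (ψ := fun h => -ψ h) (b3 f) fun ε hε => ⟨f, hf, by simpa using hε, le_rfl⟩
    have h3 := uw0 f
    linarith

end LC

theorem lim_char {G R : Type*} [Group G] [NormedRing R] [NormedAlgebra ℝ R] (τ : G →* R)
    (t₁ t₂ : G → ℝ) (γ : ℕ → G) (a : ℕ → ℝ) (ha : ∀ n, 0 < a n)
    (hγ : Tendsto (fun n => τ (γ n)) atTop (𝓝 1))
    (h1 : ∀ f g, Tendsto (fun n => t₁ (f * γ n * g) / a n) atTop (𝓝 (t₁ f * t₁ g)))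
    (h2 : ∀ f g, Tendsto (fun n => t₂ (f * γ n * g) / a n) atTop (𝓝 (t₂ f * t₂ g)))
    (hbd : ∀ C : ℝ, ∃ D : ℝ, 0 < D ∧ ∀ f, ‖τ f‖ ≤ C → ‖τ f⁻¹‖ ≤ C →
      |t₂ f| ≤ D * |t₁ f| ∧ |t₁ f| ≤ D * |t₂ f|)
    (hdense : ∀ g : G, ∀ ε : ℝ, 0 < ε → ∃ f, ‖τ f - τ g‖ < ε ∧ t₁ f ≠ 0) :
    ∃ χ : G → ℝ, (∀ g, 0 < χ g) ∧ (∀ g h, χ (g * h) = χ g * χ h) ∧
      ∀ f, |t₂ f| = χ f * |t₁ f| := by
  obtain ⟨Q, hQ⟩ : ∃ Q : Set G, Q = {h | t₁ h ≠ 0} := ⟨_, rfl⟩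
  have hQ1 : ∀ h, h ∈ Q ↔ t₁ h ≠ 0 := fun h => by rw [hQ]; rfl
  have hzero : ∀ h, t₁ h = 0 ↔ t₂ h = 0 := by
    intro h
    obtain ⟨D, hD, hh⟩ := hbd (max ‖τ h‖ ‖τ h⁻¹‖)
    obtain ⟨h3, h4⟩ := hh h (le_max_left _ _) (le_max_right _ _)
    constructor
    · intro h0
      rw [h0, abs_zero, mul_zero] at h3
      exact abs_eq_zero.1 (le_antisymm h3 (abs_nonneg _))
    · intro h0
      rw [h0, abs_zero, mul_zero] at h4
      exact abs_eq_zero.1 (le_antisymm h4 (abs_nonneg _))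
  obtain ⟨ψ, hψ⟩ : ∃ ψ : G → ℝ, ψ = fun h => Real.log |t₂ h| - Real.log |t₁ h| := ⟨_, rfl⟩
  suffices H : ∃ u : G → ℝ, (∀ f g, u (f * g) = u f + u g) ∧ ∀ f ∈ Q, ψ f = u f by
    obtain ⟨u, hu1, hu2⟩ := H
    refine ⟨fun g => Real.exp (u g), fun g => Real.exp_pos _, fun g h => ?_, fun f => ?_⟩
    · show Real.exp (u (g * h)) = Real.exp (u g) * Real.exp (u h)
      rw [hu1, Real.exp_add]
    · by_cases hf : t₁ f = 0
      · rw [(hzero f).1 hf, hf]; simp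
      · have hf2 : t₂ f ≠ 0 := fun h => hf ((hzero f).2 h)
        have h3 := hu2 f ((hQ1 f).2 hf)
        show |t₂ f| = Real.exp (u f) * |t₁ f|
        rw [← h3, hψ]
        show |t₂ f| = Real.exp (Real.log |t₂ f| - Real.log |t₁ f|) * |t₁ f|
        rw [Real.exp_sub, Real.exp_log (abs_pos.2 hf2), Real.exp_log (abs_pos.2 hf)]
        field_simp
  refine LC.abs_char τ Q ψ ?_ ?_ ?_
  · intro g
    refine LC.nb_neBot τ Q g fun ε hε => ?_
    obtain ⟨f, hf1, hf2⟩ := hdense g ε hε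
    exact ⟨f, hf1, (hQ1 f).2 hf2⟩
  · intro g
    obtain ⟨D, hD, hh⟩ := hbd (max (‖τ g‖ + 1) (2 * ‖τ g⁻¹‖))
    refine ⟨|Real.log D|, ?_⟩
    obtain ⟨ε, hε0, hε1, hε2⟩ : ∃ ε : ℝ, 0 < ε ∧ ε ≤ 1 ∧ ε * ‖τ g⁻¹‖ ≤ 1 / 2 := by
      refine ⟨1 / (2 * (‖τ g⁻¹‖ + 1)), by positivity, ?_, ?_⟩
      · rw [div_le_one (by positivity)]
        have := norm_nonneg (τ g⁻¹)
        linarith
      · rw [div_mul_eq_mul_div, div_le_div_iff₀ (by positivity) (by norm_num)]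
        have := norm_nonneg (τ g⁻¹)
        linarith
    refine ((LC.nb_basis τ Q g).mem_iff).2 ⟨ε, hε0, ?_⟩
    rintro h ⟨hh1, hhQ⟩
    have hh2 : ‖τ h - τ g‖ < ε := by simpa [dist_eq_norm] using hh1
    have n1 : ‖τ h‖ ≤ ‖τ g‖ + 1 := by
      have : τ h = τ g + (τ h - τ g) := by abel
      rw [this]
      exact le_trans (norm_add_le _ _) (by linarith)
    have n2 : ‖τ h⁻¹‖ ≤ 2 * ‖τ g⁻¹‖ := by
      have e1 : τ h⁻¹ = τ g⁻¹ - τ h⁻¹ * (τ h - τ g) * τ g⁻¹ := by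
        rw [mul_sub, sub_mul, ← map_mul, ← map_mul, ← map_mul, ← map_mul]
        simp
      have e2 : ‖τ h⁻¹‖ ≤ ‖τ g⁻¹‖ + ‖τ h⁻¹‖ * ε * ‖τ g⁻¹‖ := by
        conv_lhs => rw [e1]
        refine le_trans (norm_sub_le _ _) ?_
        have := norm_mul_le (τ h⁻¹ * (τ h - τ g)) (τ g⁻¹)
        have h6 := norm_mul_le (τ h⁻¹) (τ h - τ g)
        have h7 : ‖τ h⁻¹‖ * ‖τ h - τ g‖ ≤ ‖τ h⁻¹‖ * ε :=
          mul_le_mul_of_nonneg_left hh2.le (norm_nonneg _)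
        have h8 := mul_le_mul_of_nonneg_right (h6.trans h7) (norm_nonneg (τ g⁻¹))
        linarith
      have e3 : ‖τ h⁻¹‖ * ε * ‖τ g⁻¹‖ ≤ ‖τ h⁻¹‖ * (1 / 2) := by
        rw [mul_assoc]
        exact mul_le_mul_of_nonneg_left hε2 (norm_nonneg _)
      linarith
    obtain ⟨h3, h4⟩ := hh h (n1.trans (le_max_left _ _)) (n2.trans (le_max_right _ _))
    have p1 : 0 < |t₁ h| := abs_pos.2 ((hQ1 h).1 hhQ)
    have p2 : 0 < |t₂ h| := abs_pos.2 fun h0 => (hQ1 h).1 hhQ ((hzero h).2 h0)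
    have l1 : Real.log |t₂ h| ≤ Real.log D + Real.log |t₁ h| := by
      rw [← Real.log_mul hD.ne' p1.ne']
      exact Real.log_le_log p2 h3
    have l2 : Real.log |t₁ h| ≤ Real.log D + Real.log |t₂ h| := by
      rw [← Real.log_mul hD.ne' p2.ne']
      exact Real.log_le_log p1 h4
    show |ψ h| ≤ |Real.log D|
    rw [hψ]
    refine le_trans (abs_le.2 ⟨?_, ?_⟩) (le_abs_self _)
    · show -Real.log D ≤ Real.log |t₂ h| - Real.log |t₁ h|
      linarith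
    · show Real.log |t₂ h| - Real.log |t₁ h| ≤ Real.log D
      linarith
  · intro h hh k hk ε hε δ hδ
    have q1 : t₁ h * t₁ k ≠ 0 := mul_ne_zero ((hQ1 h).1 hh) ((hQ1 k).1 hk)
    have q2 : t₂ h * t₂ k ≠ 0 := mul_ne_zero (fun h0 => (hQ1 h).1 hh ((hzero h).2 h0))
      (fun h0 => (hQ1 k).1 hk ((hzero k).2 h0))
    have T0 : Tendsto (fun n => τ (h * γ n * k)) atTop (𝓝 (τ h * τ k)) := by
      have : Tendsto (fun n => τ h * τ (γ n) * τ k) atTop (𝓝 (τ h * 1 * τ k)) :=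
        (hγ.const_mul (τ h)).mul_const (τ k)
      simpa [map_mul] using this
    have T1 : Tendsto (fun n => Real.log |t₁ (h * γ n * k) / a n|) atTop
        (𝓝 (Real.log |t₁ h * t₁ k|)) :=
      ((Real.continuousAt_log (abs_ne_zero.2 q1)).tendsto).comp (h1 h k).abs
    have T2 : Tendsto (fun n => Real.log |t₂ (h * γ n * k) / a n|) atTop
        (𝓝 (Real.log |t₂ h * t₂ k|)) :=
      ((Real.continuousAt_log (abs_ne_zero.2 q2)).tendsto).comp (h2 h k).abs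
    have T3 : ∀ᶠ n in atTop, t₁ (h * γ n * k) / a n ≠ 0 := (h1 h k).eventually_ne q1
    have T4 := T2.sub T1
    have T5 : ∀ᶠ n in atTop, |Real.log |t₂ (h * γ n * k) / a n| -
        Real.log |t₁ (h * γ n * k) / a n| - (Real.log |t₂ h * t₂ k| - Real.log |t₁ h * t₁ k|)| < δ := by
      have := (Metric.tendsto_nhds.1 T4) δ hδ
      simp only [Real.dist_eq] at this
      exact this
    have T6 : ∀ᶠ n in atTop, ‖τ (h * γ n * k) - τ h * τ k‖ < ε := by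
      have := (Metric.tendsto_nhds.1 T0) ε hε
      simpa [dist_eq_norm] using this
    obtain ⟨n, hn3, hn5, hn6⟩ := (T3.and (T5.and T6)).exists
    have hx : t₁ (h * γ n * k) ≠ 0 := fun h0 => hn3 (by rw [h0, zero_div])
    have hx2 : t₂ (h * γ n * k) ≠ 0 := fun h0 => hx ((hzero _).2 h0)
    refine ⟨h * γ n * k, (hQ1 _).2 hx, hn6, ?_⟩
    have e1 : Real.log |t₂ (h * γ n * k) / a n| =
        Real.log |t₂ (h * γ n * k)| - Real.log (a n) := by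
      rw [abs_div, abs_of_pos (ha n), Real.log_div (abs_ne_zero.2 hx2) (ha n).ne']
    have e2 : Real.log |t₁ (h * γ n * k) / a n| =
        Real.log |t₁ (h * γ n * k)| - Real.log (a n) := by
      rw [abs_div, abs_of_pos (ha n), Real.log_div (abs_ne_zero.2 hx) (ha n).ne']
    have e3 : Real.log |t₂ h * t₂ k| = Real.log |t₂ h| + Real.log |t₂ k| := by
      rw [abs_mul, Real.log_mul (abs_ne_zero.2 (left_ne_zero_of_mul q2))
        (abs_ne_zero.2 (right_ne_zero_of_mul q2))]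
    have e4 : Real.log |t₁ h * t₁ k| = Real.log |t₁ h| + Real.log |t₁ k| := by
      rw [abs_mul, Real.log_mul (abs_ne_zero.2 (left_ne_zero_of_mul q1))
        (abs_ne_zero.2 (right_ne_zero_of_mul q1))]
    rw [e1, e2, e3, e4] at hn5
    rw [hψ]
    show |Real.log |t₂ (h * γ n * k)| - Real.log |t₁ (h * γ n * k)| -
      ((Real.log |t₂ h| - Real.log |t₁ h|) + (Real.log |t₂ k| - Real.log |t₁ k|))| < δ
    convert hn5 using 2
    ring

end Pool.AF
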