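import Pool.Agent.Helper94.AB.Three
import Pool.Agent.Helper94.AM.Main

/-!
# Lineality space of dimension at most three
-/

open Set Finset

set_option linter.unusedSectionVars false

namespace Pool.AF

open Pool.SV

section

variable {E : Type*} [NormedAddCommGroup E] [NormedSpace ℝ E] [FiniteDimensional ℝ E]

/-- The lineality space as an invariant subspace. -/
theorem exists_linInv (D : Geo E) : ∃ S : InvSub D, S.U = linSub D := by
  obtain ⟨e, he⟩ := exists_adapted (E := E) 1 (fun i => if i = 0 then ⊥ else linSub D) (by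
    intro i hi
    have h0 : i = 0 := by omega
    subst h0
    simp)
  refine ⟨{ U := linSub D, e := e 1, le := le_rfl, inv := linSub_inv D, idem := he.idem 1 le_rfl,
            range := fun v => ?_ }, rfl⟩
  have := he.range 1 le_rfl v
  simpa using this

theorem nd_of_line (D : Geo E)
    (hcc : ∃ K ⊆ D.X, IsCompact K ∧ ∀ x ∈ D.X, ∃ g ∈ D.Γ, g x ∈ K) (hV : linSub D ≠ ⊥)
    (S : InvSub D) (hS : S.U = linSub D) : ¬ DiscMod (hatHom D.Γ) S.e := by
  obtain ⟨v, hv, hv0⟩ := Submodule.exists_mem_ne_zero_of_ne_bot hV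
  refine not_discMod D hcc ⟨v, hv0, hv⟩ S.e S.idem ?_
  intro w
  rw [S.range, hS]
  exact Iff.rfl

theorem vanish_three' (D : Geo E) (hpos : 0 < Module.finrank ℝ E)
    (hcc : ∃ K ⊆ D.X, IsCompact K ∧ ∀ x ∈ D.X, ∃ g ∈ D.Γ, g x ∈ K) (hX : D.X ≠ Set.univ)
    (h3 : Module.finrank ℝ (linSub D) = 3) : Vanish D := by
  classical
  by_cases hne : modSub D (linSub D) = ⊥
  swap
  · exact vanish_three D hpos hcc hX h3 hne
  by_cases hab : HasAbNormal D.Γ
  · exact vanish_of_hasAbNormal D hpos hab hcc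
  have hV : linSub D ≠ ⊥ := by
    intro h
    rw [h, finrank_bot] at h3
    omega
  by_cases hirr : ∀ H : Subgroup D.Γ, H.FiniteIndex → ∀ U : Submodule ℝ (linSub D),
      (∀ h ∈ H, ∀ u ∈ U, linRep D h u ∈ U) → U = ⊥ ∨ U = ⊤
  swap
  · push Not at hirr
    obtain ⟨H, hH, U, hU, hU0, hU1⟩ := hirr
    have h1 : 0 < Module.finrank ℝ U := by
      rw [Nat.pos_iff_ne_zero]
      intro h
      exact hU0 (Submodule.finrank_eq_zero.mp h)
    have h2 := Submodule.finrank_lt hU1
    exact vanish_flag2 D hpos hcc hX H hH U hU0 hU1 hU (by omega) (by omega)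
  obtain ⟨⟨U, e, le, inv, idem, range⟩, hS⟩ := exists_linInv D
  simp only at hS
  subst hS
  set S : InvSub D := ⟨linSub D, e, le, inv, idem, range⟩ with hSdef
  have hgood : S.Good :=
    { h3 := h3
      irr := hirr
      nd := nd_of_line D hcc hV S rfl
      mod := hne
      ab := hab }
  obtain ⟨B, hB1, hB2, hB3⟩ := form_of_good S hgood
  obtain ⟨Γ₁, hle, hfin, hT⟩ := type_of_form D.Γ (linSub D) h3 (linSub_inv D) B hB1 hB2 (by
    intro g hg
    obtain ⟨c, hc, hc2⟩ := hB3 ⟨g, hg⟩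
    refine ⟨c, hc, fun x y x' y' hx hy => ?_⟩
    have e1 : x' = S.lrep ⟨g, hg⟩ x := Subtype.ext hx
    have e2 : y' = S.lrep ⟨g, hg⟩ y := Subtype.ext hy
    rw [e1, e2]
    exact hc2 x y)
  exact vanish_of_virtual_coneFlag D hpos hcc Γ₁ hle hfin (coneFlag_one D Γ₁ hle hX hV hT)

/-- The lineality space has dimension at most three. -/
theorem vanish_le_three (D : Geo E) (hpos : 0 < Module.finrank ℝ E)
    (hcc : ∃ K ⊆ D.X, IsCompact K ∧ ∀ x ∈ D.X, ∃ g ∈ D.Γ, g x ∈ K) (hX : D.X ≠ Set.univ)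
    (h3 : Module.finrank ℝ (linSub D) ≤ 3) : Vanish D := by
  by_cases h : Module.finrank ℝ (linSub D) = 3
  · exact vanish_three' D hpos hcc hX h
  · exact vanish_two D hpos hcc hX (by omega)

end

end Pool.AF
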