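import Pool.Agent.Helper94.AB.Defs

/-!
# AB-6 RANK: rank one approximation in dimension three

`rank_one_dec`. Choose a basis of `U` and write `M n`, `M' n` for the matrices of `A n`, `A' n`:
`M n * M' n = 1`, `det (M n) = 1`, so `M' n` is the adjugate of `M n`, and the norm of a linear map
is equivalent to the sum (or maximum) of the absolute values of the entries. Let `(i, j)` be a
position of a largest entry `a = (M n) i j` in absolute value. For every `k, l`:
`M k l - M k j * M i l / M i j` is `0` if `k = i` or `l = j` and otherwise `± (2 × 2 minor) / M i j`,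
that is `±` an entry of the adjugate divided by `a`; its absolute value is at most
`const * ‖A' n‖ / ‖A n‖`, which tends to `0`. So `M n - a • (x yᵀ)` tends to `0`, with
`x k = M k j / a`, `y l = M i l / a`, all entries in `[-1, 1]`, `x i = 1`, `y j = 1`. Pass to a
subsequence `φ` on which `(i, j)` is constant and `x`, `y` converge; the limits are nonzero.
`|a n| → ∞`: `1 ≤ const * ‖A n‖ * ‖A' n‖`, so
`‖A n‖ ^ 2 ≥ const * (‖A' n‖ / ‖A n‖)⁻¹ → ∞`.

`rank_one_lim`. The `2 × 2` minors of the matrix of `(a n)⁻¹ • A n` are `±` the entries of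
`(a n)⁻² • A' n = (a n)⁻¹ • ((a n)⁻¹ • A' n) → 0`. So all `2 × 2` minors of the matrix of `B` vanish:
its rank is at most one, and `B = y.smulRight x` (take a nonzero entry `(i, j)` of the matrix, `x` its
column `j`, `y` its row `i` divided by the entry; if `B = 0` take `x = 0`).
-/

open Set Filter Topology

set_option linter.unusedSectionVars false

namespace Pool.AF

private theorem minor_bound (M M' : Matrix (Fin 3) (Fin 3) ℝ) (h : M * M' = 1) (hd : M.det = 1)
    (m : ℝ) (hm : ∀ i j, |M' i j| ≤ m) (i j k l : Fin 3) :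
    |M k l * M i j - M k j * M i l| ≤ m := by
  have hadj : Matrix.adjugate M = M' := by
    calc Matrix.adjugate M = Matrix.adjugate M * (M * M') := by rw [h, mul_one]
      _ = (Matrix.adjugate M * M) * M' := by rw [mul_assoc]
      _ = M' := by rw [Matrix.adjugate_mul, hd, one_smul, one_mul]
  have hm2 : ∀ i j, |Matrix.adjugate M i j| ≤ m := by rw [hadj]; exact hm
  rw [Matrix.adjugate_fin_three] at hm2
  have h00 := abs_le.1 (hm2 0 0)
  have h01 := abs_le.1 (hm2 0 1)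
  have h02 := abs_le.1 (hm2 0 2)
  have h10 := abs_le.1 (hm2 1 0)
  have h11 := abs_le.1 (hm2 1 1)
  have h12 := abs_le.1 (hm2 1 2)
  have h20 := abs_le.1 (hm2 2 0)
  have h21 := abs_le.1 (hm2 2 1)
  have h22 := abs_le.1 (hm2 2 2)
  simp at h00 h01 h02 h10 h11 h12 h20 h21 h22
  obtain ⟨a00, b00⟩ := h00
  obtain ⟨a01, b01⟩ := h01
  obtain ⟨a02, b02⟩ := h02
  obtain ⟨a10, b10⟩ := h10
  obtain ⟨a11, b11⟩ := h11
  obtain ⟨a12, b12⟩ := h12
  obtain ⟨a20, b20⟩ := h20
  obtain ⟨a21, b21⟩ := h21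
  obtain ⟨a22, b22⟩ := h22
  rw [abs_le]
  fin_cases i <;> fin_cases j <;> fin_cases k <;> fin_cases l <;> constructor <;> simp <;> linarith

section r1aux

variable {U : Type*} [NormedAddCommGroup U] [NormedSpace ℝ U] [FiniteDimensional ℝ U]

/-- The matrix of a continuous linear map. -/
private noncomputable def r1L (b : Module.Basis (Fin 3) ℝ U) :
    (U →L[ℝ] U) ≃ₗ[ℝ] (Fin 3 → Fin 3 → ℝ) :=
  (LinearMap.toContinuousLinearMap.symm).trans
    ((LinearMap.toMatrix b b).trans (Matrix.ofLinearEquiv ℝ).symm)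

private noncomputable def r1C (b : Module.Basis (Fin 3) ℝ U) :
    (U →L[ℝ] U) ≃L[ℝ] (Fin 3 → Fin 3 → ℝ) := (r1L b).toContinuousLinearEquiv

private theorem r1C_apply (b : Module.Basis (Fin 3) ℝ U) (A : U →L[ℝ] U) :
    r1C b A = LinearMap.toMatrix b b (A : U →ₗ[ℝ] U) := rfl

private theorem r1C_entry (b : Module.Basis (Fin 3) ℝ U) (A : U →L[ℝ] U) (i j : Fin 3) :
    r1C b A i j = b.repr (A (b j)) i := by
  rw [r1C_apply, LinearMap.toMatrix_apply]
  rfl

private theorem r1C_smulRight (b : Module.Basis (Fin 3) ℝ U) (y : U →L[ℝ] ℝ) (x : U)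
    (i j : Fin 3) : r1C b (y.smulRight x) i j = y (b j) * b.repr x i := by
  rw [r1C_entry]
  simp

private theorem r1C_minor (b : Module.Basis (Fin 3) ℝ U) (A A' : U →L[ℝ] U) (h : A * A' = 1)
    (hd : LinearMap.det (A : U →ₗ[ℝ] U) = 1) (i j k l : Fin 3) :
    |r1C b A k l * r1C b A i j - r1C b A k j * r1C b A i l| ≤ ‖r1C b A'‖ := by
  rw [r1C_apply]
  refine minor_bound _ (LinearMap.toMatrix b b (A' : U →ₗ[ℝ] U)) ?_ ?_ _ ?_ i j k l
  · rw [← LinearMap.toMatrix_mul]
    have h2 : ((A : U →ₗ[ℝ] U) * (A' : U →ₗ[ℝ] U)) = 1 := by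
      ext v
      have := DFunLike.congr_fun h v
      exact this
    rw [h2, LinearMap.toMatrix_one]
  · rw [LinearMap.det_toMatrix, hd]
  · intro p q
    have h1 := norm_le_pi_norm (r1C b A' p) q
    have h2 := norm_le_pi_norm (r1C b A') p
    exact (Real.norm_eq_abs _ ▸ h1).trans h2

end r1aux

section

variable {U : Type*} [NormedAddCommGroup U] [NormedSpace ℝ U] [FiniteDimensional ℝ U]

theorem rank_one_dec (h3 : Module.finrank ℝ U = 3) (A A' : ℕ → U →L[ℝ] U)
    (hinv : ∀ n, A n * A' n = 1) (hdet : ∀ n, LinearMap.det ((A n : U →L[ℝ] U) : U →ₗ[ℝ] U) = 1)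
    (h0 : Tendsto (fun n => ‖A' n‖ / ‖A n‖) atTop (𝓝 0)) :
    ∃ (φ : ℕ → ℕ) (a : ℕ → ℝ) (x : ℕ → U) (y : ℕ → U →L[ℝ] ℝ) (x₀ : U) (y₀ : U →L[ℝ] ℝ),
      StrictMono φ ∧ x₀ ≠ 0 ∧ y₀ ≠ 0 ∧ Tendsto x atTop (𝓝 x₀) ∧ Tendsto y atTop (𝓝 y₀) ∧
      (∀ n, a n ≠ 0) ∧ Tendsto (fun n => (a n)⁻¹) atTop (𝓝 0) ∧
      Tendsto (fun n => ‖A (φ n) - (y n).smulRight (a n • x n)‖) atTop (𝓝 0) := by
  classical
  let b : Module.Basis (Fin 3) ℝ U := Module.finBasisOfFinrankEq ℝ U h3
  have : Nontrivial U := Module.nontrivial_of_finrank_pos (R := ℝ) (by rw [h3]; norm_num)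
  -- norm comparisons
  obtain ⟨C₁, hC₁, hb₁⟩ : ∃ C : ℝ, 0 < C ∧ ∀ D : U →L[ℝ] U, ‖r1C b D‖ ≤ C * ‖D‖ := by
    refine ⟨‖(r1C b : (U →L[ℝ] U) →L[ℝ] (Fin 3 → Fin 3 → ℝ))‖ + 1, by positivity, fun D => ?_⟩
    have := ContinuousLinearMap.le_opNorm (r1C b : (U →L[ℝ] U) →L[ℝ] (Fin 3 → Fin 3 → ℝ)) D
    calc ‖r1C b D‖ ≤ ‖(r1C b : (U →L[ℝ] U) →L[ℝ] (Fin 3 → Fin 3 → ℝ))‖ * ‖D‖ := this
      _ ≤ _ := by nlinarith [norm_nonneg D]
  obtain ⟨C₂, hC₂, hb₂⟩ : ∃ C : ℝ, 0 < C ∧ ∀ D : U →L[ℝ] U, ‖D‖ ≤ C * ‖r1C b D‖ := by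
    refine ⟨‖((r1C b).symm : (Fin 3 → Fin 3 → ℝ) →L[ℝ] (U →L[ℝ] U))‖ + 1, by positivity,
      fun D => ?_⟩
    have := ContinuousLinearMap.le_opNorm
      ((r1C b).symm : (Fin 3 → Fin 3 → ℝ) →L[ℝ] (U →L[ℝ] U)) (r1C b D)
    have h2 : ((r1C b).symm : (Fin 3 → Fin 3 → ℝ) →L[ℝ] (U →L[ℝ] U)) (r1C b D) = D :=
      (r1C b).symm_apply_apply D
    rw [h2] at this
    nlinarith [norm_nonneg (r1C b D)]
  have hA0 : ∀ n, A n ≠ 0 := by
    intro n h
    have h1 := hinv n
    rw [h, zero_mul] at h1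
    exact zero_ne_one h1
  have hm : ∀ n, 0 < ‖r1C b (A n)‖ := by
    intro n
    rw [norm_pos_iff]
    intro h
    apply hA0 n
    exact (r1C b).map_eq_zero_iff.1 h
  have hAn : ∀ n, 0 < ‖A n‖ := fun n => norm_pos_iff.2 (hA0 n)
  let N : ℕ → (Fin 3 → Fin 3 → ℝ) := fun n => (‖r1C b (A n)‖)⁻¹ • r1C b (A n)
  have hN : ∀ n, N n ∈ Metric.sphere (0 : Fin 3 → Fin 3 → ℝ) 1 := by
    intro n
    rw [mem_sphere_zero_iff_norm, norm_smul, norm_inv, norm_norm]
    exact inv_mul_cancel₀ (hm n).ne'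
  obtain ⟨N0, hN0, φ, hφ, hlim⟩ := (isCompact_sphere (0 : Fin 3 → Fin 3 → ℝ) 1).tendsto_subseq hN
  have hN0' : N0 ≠ 0 := by
    intro h
    rw [h, mem_sphere_zero_iff_norm, norm_zero] at hN0
    exact zero_ne_one hN0
  obtain ⟨i, j, hij⟩ : ∃ i j, N0 i j ≠ 0 := by
    by_contra hcon
    push Not at hcon
    exact hN0' (by ext i j; exact hcon i j)
  have hent : ∀ k l, Tendsto (fun n => N (φ n) k l) atTop (𝓝 (N0 k l)) := by
    intro k l
    have h1 := (tendsto_pi_nhds.1 hlim k)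
    exact (tendsto_pi_nhds.1 h1 l)
  set c : ℝ := |N0 i j| / 2 with hc
  have hc0 : 0 < c := by
    rw [hc]
    have := abs_pos.2 hij
    linarith
  have hev : ∀ᶠ n in atTop, c < |N (φ n) i j| := by
    have h1 : Tendsto (fun n => |N (φ n) i j|) atTop (𝓝 |N0 i j|) := (hent i j).abs
    refine h1.eventually (lt_mem_nhds ?_)
    rw [hc]
    have := abs_pos.2 hij
    linarith
  obtain ⟨n0, hn0⟩ := eventually_atTop.1 hev
  let ψ : ℕ → ℕ := fun n => φ (n + n0)
  have hψ : StrictMono ψ := fun p q hpq => hφ (by omega)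
  have hψN : ∀ k l, Tendsto (fun n => N (ψ n) k l) atTop (𝓝 (N0 k l)) := by
    intro k l
    exact (hent k l).comp (tendsto_add_atTop_nat n0)
  have hψc : ∀ n, c < |N (ψ n) i j| := fun n => hn0 _ (by omega)
  let P : ℕ → (Fin 3 → Fin 3 → ℝ) := fun n => r1C b (A (ψ n))
  have hPN : ∀ n k l, P n k l = ‖r1C b (A (ψ n))‖ * N (ψ n) k l := by
    intro n k l
    change r1C b (A (ψ n)) k l = ‖r1C b (A (ψ n))‖ * ((‖r1C b (A (ψ n))‖)⁻¹ * r1C b (A (ψ n)) k l)
    rw [← mul_assoc, mul_inv_cancel₀ (hm _).ne', one_mul]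
  have ha : ∀ n, c * ‖r1C b (A (ψ n))‖ ≤ |P n i j| := by
    intro n
    rw [hPN, abs_mul, abs_of_pos (hm _), mul_comm]
    exact mul_le_mul_of_nonneg_left (hψc n).le (hm _).le
  have ha0 : ∀ n, 0 < |P n i j| := fun n => lt_of_lt_of_le (mul_pos hc0 (hm _)) (ha n)
  have ha1 : ∀ n, P n i j ≠ 0 := fun n => abs_pos.1 (ha0 n)
  have hratio : ∀ n k l k' l', N (ψ n) k' l' ≠ 0 →
      P n k l / P n k' l' = N (ψ n) k l / N (ψ n) k' l' := by
    intro n k l k' l' _
    rw [hPN, hPN, mul_div_mul_left _ _ (hm _).ne']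
  have hNij : ∀ n, N (ψ n) i j ≠ 0 := fun n => abs_pos.1 (hc0.trans (hψc n))
  -- bound for the inverse of the entry
  have hinvb : ∀ n, |(P n i j)⁻¹| ≤ (C₂ / c) * ‖A (ψ n)‖⁻¹ := by
    intro n
    rw [abs_inv]
    have h1 : ‖A (ψ n)‖ ≤ C₂ * ‖r1C b (A (ψ n))‖ := hb₂ _
    have h2 : (c / C₂) * ‖A (ψ n)‖ ≤ |P n i j| := by
      refine le_trans ?_ (ha n)
      rw [div_mul_eq_mul_div, div_le_iff₀ hC₂]
      nlinarith
    have h3 : 0 < (c / C₂) * ‖A (ψ n)‖ := mul_pos (div_pos hc0 hC₂) (hAn _)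
    calc |P n i j|⁻¹ ≤ ((c / C₂) * ‖A (ψ n)‖)⁻¹ := inv_anti₀ h3 h2
      _ = _ := by rw [mul_inv, inv_div]
  have hr : Tendsto (fun n => ‖A' (ψ n)‖ / ‖A (ψ n)‖) atTop (𝓝 0) := h0.comp hψ.tendsto_atTop
  have hAinv : Tendsto (fun n => ‖A (ψ n)‖⁻¹) atTop (𝓝 0) := by
    have h1 : Tendsto (fun n => Real.sqrt (‖A' (ψ n)‖ / ‖A (ψ n)‖)) atTop (𝓝 0) := by
      have := (Real.continuous_sqrt.tendsto 0).comp hr
      rwa [Real.sqrt_zero] at this
    refine squeeze_zero (fun n => inv_nonneg.2 (norm_nonneg _)) (fun n => ?_) h1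
    apply Real.le_sqrt_of_sq_le
    have h2 : 1 ≤ ‖A (ψ n)‖ * ‖A' (ψ n)‖ := by
      have h3 := norm_mul_le (A (ψ n)) (A' (ψ n))
      rw [hinv] at h3
      have h4 : ‖(1 : U →L[ℝ] U)‖ = 1 := norm_one
      linarith
    rw [le_div_iff₀ (hAn _), sq, mul_assoc, inv_mul_cancel₀ (hAn _).ne', mul_one]
    rw [inv_le_iff_one_le_mul₀ (hAn _)]
    linarith [mul_comm ‖A (ψ n)‖ ‖A' (ψ n)‖]
  refine ⟨ψ, fun n => P n i j, fun n => ∑ k, (P n k j / P n i j) • b k,
    fun n => ∑ l, (P n i l / P n i j) • LinearMap.toContinuousLinearMap (b.coord l),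
    ∑ k, (N0 k j / N0 i j) • b k,
    ∑ l, (N0 i l / N0 i j) • LinearMap.toContinuousLinearMap (b.coord l),
    hψ, ?_, ?_, ?_, ?_, ha1, ?_, ?_⟩
  · intro h
    have h1 := congrArg (fun v => b.repr v i) h
    simp only [map_sum, map_smul, Module.Basis.repr_self, Finsupp.coe_finsetSum,
      Finsupp.coe_smul, Finset.sum_apply, Pi.smul_apply, map_zero, Finsupp.coe_zero,
      Pi.zero_apply, smul_eq_mul] at h1
    rw [Finset.sum_eq_single i] at h1
    · rw [Finsupp.single_eq_same, mul_one, div_self hij] at h1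
      exact one_ne_zero h1
    · intro k _ hk
      rw [Finsupp.single_eq_of_ne' hk, mul_zero]
    · intro h'
      exact absurd (Finset.mem_univ i) h'
  · intro h
    have h1 := DFunLike.congr_fun h (b j)
    simp only [_root_.sum_apply, _root_.smul_apply,
      LinearMap.coe_toContinuousLinearMap', Module.Basis.coord_apply, Module.Basis.repr_self,
      smul_eq_mul, _root_.zero_apply] at h1
    rw [Finset.sum_eq_single j] at h1
    · rw [Finsupp.single_eq_same, mul_one, div_self hij] at h1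
      exact one_ne_zero h1
    · intro k _ hk
      rw [Finsupp.single_eq_of_ne hk, mul_zero]
    · intro h'
      exact absurd (Finset.mem_univ j) h'
  · refine tendsto_finsetSum _ fun k _ => ?_
    refine Tendsto.smul_const ?_ _
    have h1 : (fun n => P n k j / P n i j) = fun n => N (ψ n) k j / N (ψ n) i j := by
      funext n
      exact hratio n _ _ _ _ (hNij n)
    rw [h1]
    exact (hψN k j).div (hψN i j) hij
  · refine tendsto_finsetSum _ fun l _ => ?_
    refine Tendsto.smul_const ?_ _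
    have h1 : (fun n => P n i l / P n i j) = fun n => N (ψ n) i l / N (ψ n) i j := by
      funext n
      exact hratio n _ _ _ _ (hNij n)
    rw [h1]
    exact (hψN i l).div (hψN i j) hij
  · refine squeeze_zero_norm (fun n => ?_) (by simpa using hAinv.const_mul (C₂ / c))
    rw [Real.norm_eq_abs]
    exact hinvb n
  · have hlim2 : Tendsto (fun n => (C₂ * (C₁ * (C₂ / c))) * (‖A' (ψ n)‖ / ‖A (ψ n)‖)) atTop
        (𝓝 0) := by simpa using hr.const_mul (C₂ * (C₁ * (C₂ / c)))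
    refine squeeze_zero (fun n => norm_nonneg _) (fun n => ?_) hlim2
    refine (hb₂ _).trans ?_
    rw [mul_assoc]
    refine mul_le_mul_of_nonneg_left ?_ hC₂.le
    have hbd : 0 ≤ (C₁ * (C₂ / c)) * (‖A' (ψ n)‖ / ‖A (ψ n)‖) := by positivity
    rw [pi_norm_le_iff_of_nonneg hbd]
    intro k
    rw [pi_norm_le_iff_of_nonneg hbd]
    intro l
    rw [Real.norm_eq_abs]
    have hx : b.repr (∑ k, (P n k j / P n i j) • b k) k = P n k j / P n i j := by
      simp only [map_sum, map_smul, Module.Basis.repr_self, Finsupp.coe_finsetSum,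
        Finsupp.coe_smul, Finset.sum_apply, Pi.smul_apply, smul_eq_mul]
      rw [Finset.sum_eq_single k]
      · rw [Finsupp.single_eq_same, mul_one]
      · intro k' _ hk
        rw [Finsupp.single_eq_of_ne' hk, mul_zero]
      · intro h'
        exact absurd (Finset.mem_univ k) h'
    have hy : (∑ l, (P n i l / P n i j) • LinearMap.toContinuousLinearMap (b.coord l)) (b l)
        = P n i l / P n i j := by
      simp only [_root_.sum_apply, _root_.smul_apply,
        LinearMap.coe_toContinuousLinearMap', Module.Basis.coord_apply, Module.Basis.repr_self,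
        smul_eq_mul]
      rw [Finset.sum_eq_single l]
      · rw [Finsupp.single_eq_same, mul_one]
      · intro k' _ hk
        rw [Finsupp.single_eq_of_ne hk, mul_zero]
      · intro h'
        exact absurd (Finset.mem_univ l) h'
    have he : r1C b (A (ψ n) - (∑ l, (P n i l / P n i j) •
          LinearMap.toContinuousLinearMap (b.coord l)).smulRight
          (P n i j • ∑ k, (P n k j / P n i j) • b k)) k l
        = (P n k l * P n i j - P n k j * P n i l) * (P n i j)⁻¹ := by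
      rw [map_sub, Pi.sub_apply, Pi.sub_apply, r1C_smulRight, hy, map_smul, Finsupp.smul_apply,
        hx, smul_eq_mul]
      change P n k l - P n i l / P n i j * (P n i j * (P n k j / P n i j)) = _
      have := ha1 n
      field_simp
    rw [he, abs_mul]
    have h1 := r1C_minor b (A (ψ n)) (A' (ψ n)) (hinv _) (hdet _) i j k l
    calc |P n k l * P n i j - P n k j * P n i l| * |(P n i j)⁻¹|
        ≤ (C₁ * ‖A' (ψ n)‖) * ((C₂ / c) * ‖A (ψ n)‖⁻¹) := by
          refine mul_le_mul (h1.trans (hb₁ _)) (hinvb n) (abs_nonneg _) (by positivity)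
      _ = _ := by rw [div_eq_mul_inv ‖A' (ψ n)‖]; ring

theorem rank_one_lim (h3 : Module.finrank ℝ U = 3) (A A' : ℕ → U →L[ℝ] U)
    (hinv : ∀ n, A n * A' n = 1) (hdet : ∀ n, LinearMap.det ((A n : U →L[ℝ] U) : U →ₗ[ℝ] U) = 1)
    (a : ℕ → ℝ) (ha : Tendsto a atTop atTop) (B B' : U →L[ℝ] U)
    (hB : Tendsto (fun n => (a n)⁻¹ • A n) atTop (𝓝 B))
    (hB' : Tendsto (fun n => (a n)⁻¹ • A' n) atTop (𝓝 B')) :
    ∃ (x : U) (y : U →L[ℝ] ℝ), B = y.smulRight x := by
  classical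
  let b : Module.Basis (Fin 3) ℝ U := Module.finBasisOfFinrankEq ℝ U h3
  have hP : Tendsto (fun n => r1C b ((a n)⁻¹ • A n)) atTop (𝓝 (r1C b B)) :=
    ((r1C b).continuous.tendsto B).comp hB
  have hP' : Tendsto (fun n => r1C b ((a n)⁻¹ • A' n)) atTop (𝓝 (r1C b B')) :=
    ((r1C b).continuous.tendsto B').comp hB'
  have hent : ∀ k l, Tendsto (fun n => r1C b ((a n)⁻¹ • A n) k l) atTop (𝓝 (r1C b B k l)) :=
    fun k l => tendsto_pi_nhds.1 (tendsto_pi_nhds.1 hP k) l
  have hminor : ∀ i j k l, r1C b B k l * r1C b B i j = r1C b B k j * r1C b B i l := by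
    intro i j k l
    have h1 : Tendsto (fun n => r1C b ((a n)⁻¹ • A n) k l * r1C b ((a n)⁻¹ • A n) i j
        - r1C b ((a n)⁻¹ • A n) k j * r1C b ((a n)⁻¹ • A n) i l) atTop
        (𝓝 (r1C b B k l * r1C b B i j - r1C b B k j * r1C b B i l)) :=
      ((hent k l).mul (hent i j)).sub ((hent k j).mul (hent i l))
    have h2 : Tendsto (fun n => |(a n)⁻¹| * ‖r1C b ((a n)⁻¹ • A' n)‖) atTop (𝓝 0) := by
      have h3 : Tendsto (fun n => |(a n)⁻¹|) atTop (𝓝 0) := by
        have := (tendsto_inv_atTop_zero.comp ha).abs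
        simpa using this
      simpa using h3.mul hP'.norm
    have h4 : Tendsto (fun n => r1C b ((a n)⁻¹ • A n) k l * r1C b ((a n)⁻¹ • A n) i j
        - r1C b ((a n)⁻¹ • A n) k j * r1C b ((a n)⁻¹ • A n) i l) atTop (𝓝 0) := by
      refine squeeze_zero_norm (fun n => ?_) h2
      rw [Real.norm_eq_abs, map_smul, map_smul, norm_smul, Real.norm_eq_abs]
      have h5 := r1C_minor b (A n) (A' n) (hinv n) (hdet n) i j k l
      calc |((a n)⁻¹ • r1C b (A n)) k l * ((a n)⁻¹ • r1C b (A n)) i j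
            - ((a n)⁻¹ • r1C b (A n)) k j * ((a n)⁻¹ • r1C b (A n)) i l|
          = |(a n)⁻¹ * (a n)⁻¹ * (r1C b (A n) k l * r1C b (A n) i j
              - r1C b (A n) k j * r1C b (A n) i l)| := by
            congr 1
            simp only [Pi.smul_apply, smul_eq_mul]
            ring
        _ = |(a n)⁻¹| * |(a n)⁻¹| * |r1C b (A n) k l * r1C b (A n) i j
              - r1C b (A n) k j * r1C b (A n) i l| := by rw [abs_mul, abs_mul]
        _ ≤ |(a n)⁻¹| * |(a n)⁻¹| * ‖r1C b (A' n)‖ :=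
            mul_le_mul_of_nonneg_left h5 (by positivity)
        _ = _ := by ring
    have h6 := tendsto_nhds_unique h1 h4
    linarith
  by_cases hB0 : r1C b B = 0
  · refine ⟨0, 0, ?_⟩
    have : B = 0 := (r1C b).map_eq_zero_iff.1 hB0
    rw [this]
    ext v
    simp
  obtain ⟨i, j, hij⟩ : ∃ i j, r1C b B i j ≠ 0 := by
    by_contra hcon
    push Not at hcon
    exact hB0 (by ext i j; exact hcon i j)
  refine ⟨∑ k, r1C b B k j • b k,
    ∑ l, (r1C b B i l / r1C b B i j) • LinearMap.toContinuousLinearMap (b.coord l), ?_⟩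
  apply (r1C b).injective
  ext k l
  rw [r1C_smulRight]
  have hx : b.repr (∑ k, r1C b B k j • b k) k = r1C b B k j := by
    simp only [map_sum, map_smul, Module.Basis.repr_self, Finsupp.coe_finsetSum,
      Finsupp.coe_smul, Finset.sum_apply, Pi.smul_apply, smul_eq_mul]
    rw [Finset.sum_eq_single k]
    · rw [Finsupp.single_eq_same, mul_one]
    · intro k' _ hk
      rw [Finsupp.single_eq_of_ne' hk, mul_zero]
    · intro h'
      exact absurd (Finset.mem_univ k) h'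
  have hy : (∑ l, (r1C b B i l / r1C b B i j) • LinearMap.toContinuousLinearMap (b.coord l)) (b l)
      = r1C b B i l / r1C b B i j := by
    simp only [_root_.sum_apply, _root_.smul_apply,
      LinearMap.coe_toContinuousLinearMap', Module.Basis.coord_apply, Module.Basis.repr_self,
      smul_eq_mul]
    rw [Finset.sum_eq_single l]
    · rw [Finsupp.single_eq_same, mul_one]
    · intro k' _ hk
      rw [Finsupp.single_eq_of_ne hk, mul_zero]
    · intro h'
      exact absurd (Finset.mem_univ l) h'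
  rw [hx, hy]
  have := hminor i j k l
  field_simp
  linarith

end

end Pool.AF
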