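import Pool.Agent.Helper94.AB.Defs

/-!
# AB-3 SEL: finitely many steering elements

Proof. `R` is finite-dimensional, so `τ (γ n)` and `τ (γ n)⁻¹` have a common convergent
subsequence `φ`, with limits `b` and `b'`, `b * b' = b' * b = 1`. Let `Z` be the closure of
`{τ g | ‖τ g - 1‖ ≤ 1/2}`, a compact set. For `z ∈ Z` one has `‖z - 1‖ ≤ 1/2`; choose `g` with
`‖τ g - 1‖ ≤ 1/2` and `τ g` close to `z`. As `‖τ g⁻¹‖ ≤ 2 ‖1‖` (from
`τ g⁻¹ = 1 - τ g⁻¹ * (τ g - 1)`), the element `τ (g⁻¹ * (γ (φ m))⁻¹)` for large `m` satisfies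
`‖τ (g⁻¹ * (γ (φ m))⁻¹) * b * z - 1‖ < 1/8`, since `τ (γ (φ m))⁻¹ * b` is close to `1` and
`τ g⁻¹ * z` is close to `1`. By `hP` there is `f ∈ P` with `τ f` so close to it that
`‖τ f * b * z - 1‖ < 1/4`. The sets `{z' | ‖τ f * b * z' - 1‖ < 1/4}` are open and cover the compact
`Z`: take a finite subcover, with elements `f ∈ F`. For large `n`, for all `f ∈ F` and all `z ∈ Z`:
`‖τ f * τ (γ (φ n)) * z - τ f * b * z‖ ≤ ‖τ f‖ * ‖τ (γ (φ n)) - b‖ * ‖z‖ < 1/4`.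
-/

open Set Filter Topology

set_option linter.unusedSectionVars false

namespace Pool.AF

theorem steer_sel {G R : Type*} [Group G] [NormedRing R] [NormedAlgebra ℝ R]
    [FiniteDimensional ℝ R] (τ : G →* R) (P : Set G)
    (hP : ∀ g : G, ∀ ε : ℝ, 0 < ε → ∃ f ∈ P, ‖τ f - τ g‖ < ε) (γ : ℕ → G) (C : ℝ)
    (h1 : ∀ n, ‖τ (γ n)‖ ≤ C) (h2 : ∀ n, ‖τ (γ n)⁻¹‖ ≤ C) :
    ∃ (φ : ℕ → ℕ) (F : Set G) (n₀ : ℕ), StrictMono φ ∧ F.Finite ∧ F ⊆ P ∧
      ∀ n, n₀ ≤ n → ∀ g : G, ‖τ g - 1‖ ≤ 1 / 2 →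
        ∃ f ∈ F, ‖τ (f * γ (φ n) * g) - 1‖ ≤ 1 / 2 := by
  classical
  have : ProperSpace R := FiniteDimensional.proper ℝ R
  -- the subsequence
  obtain ⟨b, -, φ₁, hφ₁, hb₁⟩ := tendsto_subseq_of_bounded
    (Metric.isBounded_closedBall (x := (0 : R)) (r := C))
    (x := fun n => τ (γ n)) (fun n => by simpa using h1 n)
  obtain ⟨b', -, φ₂, hφ₂, hb'₂⟩ := tendsto_subseq_of_bounded
    (Metric.isBounded_closedBall (x := (0 : R)) (r := C))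
    (x := fun n => τ (γ (φ₁ n))⁻¹) (fun n => by simpa using h2 (φ₁ n))
  set φ : ℕ → ℕ := fun n => φ₁ (φ₂ n) with hφdef
  have hφ : StrictMono φ := hφ₁.comp hφ₂
  have hb : Tendsto (fun n => τ (γ (φ n))) atTop (𝓝 b) := hb₁.comp hφ₂.tendsto_atTop
  have hb' : Tendsto (fun n => τ (γ (φ n))⁻¹) atTop (𝓝 b') := hb'₂
  have hbb : b' * b = 1 := by
    have h3 : Tendsto (fun n => τ (γ (φ n))⁻¹ * τ (γ (φ n))) atTop (𝓝 (b' * b)) := hb'.mul hb
    have h4 : (fun n => τ (γ (φ n))⁻¹ * τ (γ (φ n))) = fun _ => (1 : R) := by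
      funext n
      rw [← map_mul, inv_mul_cancel, map_one]
    rw [h4] at h3
    exact tendsto_nhds_unique h3 tendsto_const_nhds
  -- norm bounds
  set K : ℝ := ‖(1 : R)‖ with hK
  have hK0 : 0 ≤ K := norm_nonneg _
  have hnorm : ∀ g : G, ‖τ g - 1‖ ≤ 1 / 2 → ‖τ g‖ ≤ K + 1 / 2 := by
    intro g hg
    calc ‖τ g‖ = ‖1 + (τ g - 1)‖ := by congr 1; abel
      _ ≤ ‖(1 : R)‖ + ‖τ g - 1‖ := norm_add_le _ _
      _ ≤ K + 1 / 2 := by linarith
  have hinv : ∀ g : G, ‖τ g - 1‖ ≤ 1 / 2 → ‖τ g⁻¹‖ ≤ 2 * K := by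
    intro g hg
    have h3 : τ g⁻¹ * τ g = 1 := by rw [← map_mul, inv_mul_cancel, map_one]
    have h4 : τ g⁻¹ = 1 - τ g⁻¹ * (τ g - 1) := by rw [mul_sub, h3, mul_one]; abel
    have h5 : ‖τ g⁻¹‖ ≤ K + ‖τ g⁻¹‖ * (1 / 2) := by
      calc ‖τ g⁻¹‖ = ‖1 - τ g⁻¹ * (τ g - 1)‖ := by rw [← h4]
        _ ≤ ‖(1 : R)‖ + ‖τ g⁻¹ * (τ g - 1)‖ := norm_sub_le _ _
        _ ≤ K + ‖τ g⁻¹‖ * ‖τ g - 1‖ := by
            have := norm_mul_le (τ g⁻¹) (τ g - 1)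
            linarith
        _ ≤ K + ‖τ g⁻¹‖ * (1 / 2) := by
            have := mul_le_mul_of_nonneg_left hg (norm_nonneg (τ g⁻¹))
            linarith
    linarith
  -- the compact set
  set Z : Set R := closure {x | ∃ g, τ g = x ∧ ‖x - 1‖ ≤ 1 / 2} with hZ
  have hZc : IsCompact Z := by
    apply Metric.isCompact_of_isClosed_isBounded isClosed_closure
    apply Bornology.IsBounded.closure
    apply (Metric.isBounded_closedBall (x := (1 : R)) (r := 1 / 2)).subset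
    rintro x ⟨g, -, hx⟩
    rw [Metric.mem_closedBall, dist_eq_norm]
    exact hx
  have hex : ∀ z ∈ Z, ∃ f ∈ P, ‖τ f * b * z - 1‖ < 1 / 4 := by
    intro z hz
    have hε : (0 : ℝ) < 1 / (32 * (K + 1)) := by positivity
    obtain ⟨x, ⟨g, rfl, hg⟩, hxz⟩ := Metric.mem_closure_iff.1 hz _ hε
    rw [dist_eq_norm] at hxz
    have h3 : ‖τ g⁻¹ * z - 1‖ < 1 / 8 := by
      have h4 : τ g⁻¹ * τ g = 1 := by rw [← map_mul, inv_mul_cancel, map_one]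
      have h5 : τ g⁻¹ * z - 1 = τ g⁻¹ * (z - τ g) := by rw [mul_sub, h4]
      rw [h5]
      calc ‖τ g⁻¹ * (z - τ g)‖ ≤ ‖τ g⁻¹‖ * ‖z - τ g‖ := norm_mul_le _ _
        _ ≤ (2 * K) * (1 / (32 * (K + 1))) :=
            mul_le_mul (hinv g hg) hxz.le (norm_nonneg _) (by linarith)
        _ < 1 / 8 := by
            rw [mul_one_div, div_lt_div_iff₀ (by positivity) (by norm_num)]
            nlinarith
    have h6 : Tendsto (fun n => ‖τ g⁻¹ * (τ (γ (φ n))⁻¹ * b) * z - 1‖) atTop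
        (𝓝 ‖τ g⁻¹ * (b' * b) * z - 1‖) :=
      (((hb'.mul_const b).const_mul (τ g⁻¹)).mul_const z).sub_const 1 |>.norm
    rw [hbb, mul_one] at h6
    obtain ⟨m, hm⟩ := (h6.eventually_lt_const h3).exists
    set h : G := g⁻¹ * (γ (φ m))⁻¹ with hh
    have h7 : ‖τ h * b * z - 1‖ < 1 / 8 := by
      have : τ h * b * z = τ g⁻¹ * (τ (γ (φ m))⁻¹ * b) * z := by
        rw [hh, map_mul, ← mul_assoc (τ g⁻¹)]
      rw [this]
      exact hm
    have hδ : (0 : ℝ) < 1 / (8 * (‖b * z‖ + 1)) := by positivity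
    obtain ⟨f, hf, hfh⟩ := hP h _ hδ
    refine ⟨f, hf, ?_⟩
    have h8 : τ f * b * z - 1 = (τ f - τ h) * (b * z) + (τ h * b * z - 1) := by
      noncomm_ring
    rw [h8]
    calc ‖(τ f - τ h) * (b * z) + (τ h * b * z - 1)‖
        ≤ ‖(τ f - τ h) * (b * z)‖ + ‖τ h * b * z - 1‖ := norm_add_le _ _
      _ ≤ ‖τ f - τ h‖ * ‖b * z‖ + ‖τ h * b * z - 1‖ := by
          have := norm_mul_le (τ f - τ h) (b * z)
          linarith
      _ < 1 / 4 := by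
          have h9 : ‖τ f - τ h‖ * ‖b * z‖ ≤ 1 / (8 * (‖b * z‖ + 1)) * ‖b * z‖ :=
            mul_le_mul_of_nonneg_right hfh.le (norm_nonneg _)
          have h10 : 1 / (8 * (‖b * z‖ + 1)) * ‖b * z‖ ≤ 1 / 8 := by
            rw [one_div_mul_eq_div, div_le_div_iff₀ (by positivity) (by norm_num)]
            nlinarith [norm_nonneg (b * z)]
          linarith
  choose! fz hfzP hfz using hex
  obtain ⟨t, ht⟩ := hZc.elim_nhds_subcover' (fun z _ => {z' | ‖τ (fz z) * b * z' - 1‖ < 1 / 4})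
    (by
      intro z hz
      have hcont : Continuous (fun z' : R => ‖τ (fz z) * b * z' - 1‖) := by fun_prop
      exact (isOpen_lt hcont continuous_const).mem_nhds (hfz z hz))
  have hev : ∀ᶠ n in atTop, ∀ x ∈ t,
      ‖τ (fz (x : R))‖ * ‖τ (γ (φ n)) - b‖ * (K + 1 / 2) < 1 / 4 := by
    rw [Filter.eventually_all_finset]
    intro x _
    have h3 : Tendsto (fun n => ‖τ (fz (x : R))‖ * ‖τ (γ (φ n)) - b‖ * (K + 1 / 2)) atTop
        (𝓝 (‖τ (fz (x : R))‖ * ‖b - b‖ * (K + 1 / 2))) :=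
      (((hb.sub_const b).norm).const_mul _).mul_const _
    rw [sub_self, norm_zero, mul_zero, zero_mul] at h3
    exact h3.eventually_lt_const (by norm_num)
  obtain ⟨n₀, hn₀⟩ := Filter.eventually_atTop.1 hev
  refine ⟨φ, (fun x : Z => fz (x : R)) '' (t : Set Z), n₀, hφ, (t.finite_toSet).image _, ?_, ?_⟩
  · rintro _ ⟨x, -, rfl⟩
    exact hfzP x x.2
  · intro n hn g hg
    have hgZ : τ g ∈ Z := subset_closure ⟨g, rfl, hg⟩
    have hcov := ht hgZ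
    simp only [Set.mem_iUnion] at hcov
    obtain ⟨x, hxt, hx⟩ := hcov
    refine ⟨fz (x : R), ⟨x, hxt, rfl⟩, ?_⟩
    have h3 := hn₀ n hn x hxt
    have h4 : τ (fz (x : R) * γ (φ n) * g) - 1
        = τ (fz (x : R)) * (τ (γ (φ n)) - b) * τ g + (τ (fz (x : R)) * b * τ g - 1) := by
      rw [map_mul, map_mul]
      noncomm_ring
    rw [h4]
    have h5 : ‖τ (fz (x : R)) * (τ (γ (φ n)) - b) * τ g‖
        ≤ ‖τ (fz (x : R))‖ * ‖τ (γ (φ n)) - b‖ * (K + 1 / 2) := by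
      calc _ ≤ ‖τ (fz (x : R)) * (τ (γ (φ n)) - b)‖ * ‖τ g‖ := norm_mul_le _ _
        _ ≤ (‖τ (fz (x : R))‖ * ‖τ (γ (φ n)) - b‖) * ‖τ g‖ :=
            mul_le_mul_of_nonneg_right (norm_mul_le _ _) (norm_nonneg _)
        _ ≤ _ := mul_le_mul_of_nonneg_left (hnorm g hg) (by positivity)
    have h6 : ‖τ (fz (x : R)) * b * τ g - 1‖ < 1 / 4 := hx
    have h7 := norm_add_le (τ (fz (x : R)) * (τ (γ (φ n)) - b) * τ g)
      (τ (fz (x : R)) * b * τ g - 1)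
    linarith

end Pool.AF
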