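import Pool.Agent.Helper94.AB.HypSeq
import Pool.Agent.Helper94.AB.Sel
import Pool.Agent.Helper94.AB.BaseC

/-!
# AB-5 STEER (uses AB-2 `hyp_seq`, `hyp_grow`, AB-3 `steer_sel`, AB-4)

A group acting properly discontinuously on `X` contains no sequence `γ n` that is bounded on
`X / U`, whose linear part on `U` is asymptotically `Xn ∘ An ∘ Yn` with `An` very expanding, if the
elements `f` with `Y ∘ S.rep f ∘ X` injective are dense in the topology of `S.base`.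

Proof. Apply `steer_sel` to the group `G₀`, `τ = S.base` restricted to `G₀`,
`P = {f | Y ∘ rep f ∘ X injective}` and `γ`: get `φ`, a finite set `F ⊆ P`, `n₀`. For `f ∈ F` the map
`Y ∘ rep f ∘ X : T → T` is invertible (`T` is finite-dimensional) and
`Yn (φ n) ∘ rep f ∘ Xn (φ n)` converges to it, so there is `C₁ ≥ 1` and for large `n` a left
inverse `N` of `Yn (φ n) ∘ rep f ∘ Xn (φ n)` of norm `≤ C₁` for each `f ∈ F`; `C₁` can also be
chosen to bound the norms of `Yn (φ n)` and of `rep f ∘ Xn (φ n)`, `f ∈ F`, `n` large. Put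
`η = 1 / (6 C₁ ^ 3)`. Fix one `n ≥ n₀` large such that also `‖An' (φ n)‖ ≤ η` and
`‖rep f ∘ Rn (φ n)‖ ≤ η` for `f ∈ F`. Write `γ = γ (φ n)`, `A = An (φ n)` etc.

Choose inductively `f 0, f 1, … ∈ F` such that `w 0 = 1`, `w (j+1) = f j * γ * w j` satisfy
`‖S.base (w j) - 1‖ ≤ 1/2`. Put `h j = f j * γ`. Take `x₁` from `exists_base_pt`, the compact `K`
from `base_compact` and `p j = act (S.base (w j)) x₁ ∈ K`. One has
`(h j) (p j) - p (j+1) ∈ U`: it is `(w (j+1) x₁ - p (j+1)) - (h j).linear (w j x₁ - p j)`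
(`base_split`); call it `u j ∈ U`; it is bounded by some `Um` independent of `j` (`p j, p (j+1) ∈ K`
compact, `h j` in the finite set `F * γ`, affine maps are continuous). The linear part:
`rep (h j) = rep (f j) ∘ (Xn ∘ A ∘ Yn + Rn) = X j ∘ A ∘ Y + R j` with `X j = rep (f j) ∘ Xn`,
`R j = rep (f j) ∘ Rn`. So if `v : ℕ → U` satisfies the recursion of `hyp_seq` then the points
`p j + v j` satisfy `h j (p j + v j) = p (j+1) + v (j+1)` for `j < m`, so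
`w m (p 0 + v 0) = p m + v m`. By `hyp_seq` for each `m` there is such a `v` with
`‖v 0‖, ‖v m‖ ≤ 6 C₁ ^ 3 Um`. So all the `w m`, `m ∈ ℕ`, move some point of the compact
`K' = {p + v | p ∈ K, v ∈ U, ‖v‖ ≤ 6 C₁ ^ 3 Um} ⊆ X` into `K'`. By `D.pd` they form a finite set,
so `w l = w m` for some `l < m`. Then `h (m-1) * ⋯ * h l = 1`. But by `hyp_grow` (for the sequence
shifted by `l`, `n = m - l ≥ 1`), starting from `v 0 = X l t` with `t ≠ 0` (`T` is nontrivial;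
`‖v 0‖ ≤ C₁ ‖t‖ = C₁ ‖N (Y (v 0))‖ ≤ C₁ ^ 2 ‖Y (v 0)‖`, `Y (v 0) ≠ 0`), the linear part on `U` of the
product moves `v 0` to a vector `v'` with `‖Y v'‖ ≥ 2 ‖Y (v 0)‖ > ‖Y (v 0)‖`: contradiction.
-/

open Set Filter Topology

set_option linter.unusedSectionVars false

namespace Pool.AF

open Pool.SV

section

private theorem steer_tendsto_comp {A B C : Type*} [NormedAddCommGroup A] [NormedSpace ℝ A]
    [NormedAddCommGroup B] [NormedSpace ℝ B] [NormedAddCommGroup C] [NormedSpace ℝ C]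
    {f : ℕ → B →L[ℝ] C} {g : ℕ → A →L[ℝ] B} {f0 : B →L[ℝ] C} {g0 : A →L[ℝ] B}
    (hf : Tendsto f atTop (𝓝 f0)) (hg : Tendsto g atTop (𝓝 g0)) :
    Tendsto (fun n => (f n).comp (g n)) atTop (𝓝 (f0.comp g0)) :=
  ((continuous_fst.clm_comp continuous_snd).tendsto (f0, g0)).comp (hf.prodMk_nhds hg)

private theorem steer_ev {A B : Type*} [NormedAddCommGroup A] [NormedSpace ℝ A]
    [NormedAddCommGroup B] [NormedSpace ℝ B] {f : ℕ → A →L[ℝ] B} {f0 : A →L[ℝ] B}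
    (hf : Tendsto f atTop (𝓝 f0)) {c : ℝ} (hc : ‖f0‖ < c) :
    ∀ᶠ n in atTop, ‖f n‖ < c := by
  have h1 := hf.norm
  exact h1.eventually_lt_const hc

private theorem steer_seq {G : Type*} (P : G → Prop) (Q : G → G → Prop) (x0 : G)
    (h0 : P x0) (hs : ∀ x, P x → ∃ y, P y ∧ Q x y) :
    ∃ w : ℕ → G, w 0 = x0 ∧ (∀ j, P (w j)) ∧ ∀ j, Q (w j) (w (j + 1)) := by
  choose! s hs1 hs2 using hs
  have hP : ∀ j, P (s^[j] x0) := by
    intro j
    induction j with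
    | zero => exact h0
    | succ j ih =>
      rw [Function.iterate_succ_apply']
      exact hs1 _ ih
  refine ⟨fun n => s^[n] x0, rfl, hP, fun j => ?_⟩
  change Q (s^[j] x0) (s^[j + 1] x0)
  rw [Function.iterate_succ_apply']
  exact hs2 _ (hP j)

private theorem steer_unit {T : Type*} [NormedAddCommGroup T]
    [NormedSpace ℝ T] [FiniteDimensional ℝ T] {M : ℕ → T →L[ℝ] T} {L : T →L[ℝ] T}
    (hM : Tendsto M atTop (𝓝 L)) (hL : ∀ t, L t = 0 → t = 0) (B : ℝ)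
    (hB : ‖Ring.inverse L‖ ≤ B) :
    ∀ᶠ n in atTop, ∃ N : T →L[ℝ] T, ‖N‖ ≤ B + 1 ∧ ∀ t, N (M n t) = t := by
  haveI : CompleteSpace T := FiniteDimensional.complete ℝ T
  have hinj : Function.Injective L := by
    intro a b hab
    have h1 : L (a - b) = 0 := by rw [map_sub, hab, sub_self]
    exact sub_eq_zero.1 (hL _ h1)
  have hunit : IsUnit L := by
    rw [ContinuousLinearMap.isUnit_iff_bijective]
    refine ⟨hinj, ?_⟩
    have := (LinearMap.injective_iff_surjective (f := (L : T →ₗ[ℝ] T))).1 hinj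
    exact this
  obtain ⟨U, hU⟩ := hunit
  have h1 : ∀ᶠ n in atTop, IsUnit (M n) :=
    hM.eventually (Units.isOpen.mem_nhds ⟨U, hU⟩)
  have h2 : Tendsto (fun n => Ring.inverse (M n)) atTop (𝓝 (Ring.inverse L)) := by
    have h3 := NormedRing.inverse_continuousAt U
    rw [hU] at h3
    exact h3.tendsto.comp hM
  have h3 : ∀ᶠ n in atTop, ‖Ring.inverse (M n)‖ < B + 1 :=
    h2.norm.eventually_lt_const (by linarith)
  filter_upwards [h1, h3] with n hn1 hn2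
  refine ⟨Ring.inverse (M n), hn2.le, fun t => ?_⟩
  have h4 := Ring.inverse_mul_cancel (M n) hn1
  calc (Ring.inverse (M n)) (M n t) = (Ring.inverse (M n) * M n) t := rfl
    _ = t := by rw [h4]; rfl

variable {E : Type*} [NormedAddCommGroup E] [NormedSpace ℝ E] [FiniteDimensional ℝ E]

/-- The dynamical part of `steer`: one fixed element `g` and a finite set `F`. -/
private theorem steer_core (D : Geo E) (S : InvSub D) (G₀ : Subgroup D.Γ) {T : Type*}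
    [NormedAddCommGroup T] [NormedSpace ℝ T] [FiniteDimensional ℝ T] [Nontrivial T]
    (F : Set G₀) (hF : F.Finite) (g : G₀) (C η : ℝ) (hC : 1 ≤ C) (hη : 0 ≤ η)
    (hηC : η * (6 * C ^ 3) ≤ 1)
    (hsel : ∀ x : G₀, ‖S.base (x : D.Γ) - 1‖ ≤ 1 / 2 →
      ∃ f ∈ F, ‖S.base ((f * g * x : G₀) : D.Γ) - 1‖ ≤ 1 / 2)
    (X : T →L[ℝ] S.U) (A A' : T →L[ℝ] T) (Y : S.U →L[ℝ] T) (R : S.U →L[ℝ] S.U)
    (hdec : ∀ u, S.rep (g : D.Γ) u = X (A (Y u)) + R u) (hA : ∀ t, A' (A t) = t)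
    (hA' : ‖A'‖ ≤ η) (hY : ‖Y‖ ≤ C)
    (hX : ∀ f ∈ F, ‖(S.rep ((f : G₀) : D.Γ)).comp X‖ ≤ C)
    (hR : ∀ f ∈ F, ‖(S.rep ((f : G₀) : D.Γ)).comp R‖ ≤ η)
    (hN : ∀ f ∈ F, ∃ N : T →L[ℝ] T, ‖N‖ ≤ C ∧
      ∀ t, N (Y (S.rep ((f : G₀) : D.Γ) (X t))) = t) : False := by
  classical
  -- the walk
  obtain ⟨w, hw0, hw1, hw2⟩ := steer_seq (fun x : G₀ => ‖S.base (x : D.Γ) - 1‖ ≤ 1 / 2)
    (fun x y => ∃ f ∈ F, y = f * g * x) 1 (by simp) (by
      intro x hx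
      obtain ⟨f, hf, h1⟩ := hsel x hx
      exact ⟨f * g * x, h1, f, hf, rfl⟩)
  choose f hfF hw using hw2
  choose! N hNC hN using hN
  obtain ⟨x₁, hx₁, he⟩ := exists_base_pt S
  obtain ⟨K, hKX, hK, hKm⟩ := base_compact S x₁ hx₁ he
  set p : ℕ → E := fun j => act (S.base ((w j : G₀) : D.Γ)) x₁ with hp
  have hpK : ∀ j, p j ∈ K := fun j => hKm _ (hw1 j)
  -- the elements h j
  set h : ℕ → D.Γ := fun j => ((f j * g : G₀) : D.Γ) with hh
  have hwh : ∀ j, ((w (j + 1) : G₀) : D.Γ) = h j * ((w j : G₀) : D.Γ) := by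
    intro j
    rw [hw j]
    rfl
  have hmem : ∀ j, (h j).1 (p j) - p (j + 1) ∈ S.U := by
    intro j
    have h1 := base_split S x₁ he ((w (j + 1) : G₀) : D.Γ)
    have h2 := base_split S x₁ he ((w j : G₀) : D.Γ)
    have h3 := S.inv (h j).1 (h j).2 _ h2
    have h4 : (h j).1.linear ((((w j : G₀) : D.Γ) : E ≃ᵃ[ℝ] E) x₁ - p j) =
        (h j).1 ((((w j : G₀) : D.Γ) : E ≃ᵃ[ℝ] E) x₁) - (h j).1 (p j) := by
      have := (h j).1.toAffineMap.linearMap_vsub ((((w j : G₀) : D.Γ) : E ≃ᵃ[ℝ] E) x₁) (p j)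
      simpa using this
    have h5 : (((w (j + 1) : G₀) : D.Γ) : E ≃ᵃ[ℝ] E) x₁ =
        (h j).1 ((((w j : G₀) : D.Γ) : E ≃ᵃ[ℝ] E) x₁) := by
      rw [hwh j]
      rfl
    have h6 := S.U.sub_mem h1 h3
    rw [h4, h5] at h6
    have h7 : (h j).1 ((((w j : G₀) : D.Γ) : E ≃ᵃ[ℝ] E) x₁) - p (j + 1) -
        ((h j).1 ((((w j : G₀) : D.Γ) : E ≃ᵃ[ℝ] E) x₁) - (h j).1 (p j)) =
        (h j).1 (p j) - p (j + 1) := by abel
    rwa [h7] at h6
  -- bound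
  obtain ⟨B1, hB1⟩ := hK.isBounded.exists_norm_le
  have hB2 : ∃ B2 : ℝ, ∀ f ∈ F, ∀ x ∈ K, ‖(((f * g : G₀) : D.Γ) : E ≃ᵃ[ℝ] E) x‖ ≤ B2 := by
    have hc : ∀ f : G₀, ∃ b : ℝ, ∀ x ∈ K, ‖(((f * g : G₀) : D.Γ) : E ≃ᵃ[ℝ] E) x‖ ≤ b := by
      intro f
      have hcont : Continuous (((f * g : G₀) : D.Γ) : E ≃ᵃ[ℝ] E) :=
        AffineMap.continuous_of_finiteDimensional
          ((((f * g : G₀) : D.Γ) : E ≃ᵃ[ℝ] E) : E →ᵃ[ℝ] E)
      obtain ⟨b, hb⟩ := (hK.image hcont).isBounded.exists_norm_le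
      exact ⟨b, fun x hx => hb _ (Set.mem_image_of_mem _ hx)⟩
    choose b hb using hc
    obtain ⟨B2, hB2⟩ := (hF.image b).bddAbove
    exact ⟨B2, fun f hf x hx => (hb f x hx).trans (hB2 (Set.mem_image_of_mem _ hf))⟩
  obtain ⟨B2, hB2⟩ := hB2
  set u : ℕ → S.U := fun j => ⟨(h j).1 (p j) - p (j + 1), hmem j⟩ with hu
  set Um : ℝ := max 0 (B2 + B1) with hUm
  have huU : ∀ j, ‖u j‖ ≤ Um := by
    intro j
    have h1 : ‖u j‖ = ‖(h j).1 (p j) - p (j + 1)‖ := rfl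
    rw [h1]
    refine (norm_sub_le _ _).trans ((add_le_add (hB2 _ (hfF j) _ (hpK j)) (hB1 _ (hpK _))).trans
      (le_max_right _ _))
  -- linear part
  set Xj : ℕ → T →L[ℝ] S.U := fun j => (S.rep ((f j : G₀) : D.Γ)).comp X with hXj
  set Rj : ℕ → S.U →L[ℝ] S.U := fun j => (S.rep ((f j : G₀) : D.Γ)).comp R with hRj
  have hrep : ∀ j (v : S.U), S.rep (h j) v = Xj j (A (Y v)) + Rj j v := by
    intro j v
    have h1 : S.rep (h j) = S.rep ((f j : G₀) : D.Γ) * S.rep ((g : G₀) : D.Γ) := by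
      rw [← map_mul]
      rfl
    rw [h1]
    change S.rep ((f j : G₀) : D.Γ) (S.rep ((g : G₀) : D.Γ) v) = _
    rw [hdec, map_add]
    rfl
  have hstep : ∀ j (v : S.U), (h j).1 (p j + (v : E)) =
      p (j + 1) + ((S.rep (h j) v + u j : S.U) : E) := by
    intro j v
    have h1 : (h j).1 (p j + (v : E)) = (h j).1.linear (v : E) + (h j).1 (p j) := by
      have := (h j).1.map_vadd (p j) (v : E)
      rw [vadd_eq_add, vadd_eq_add] at this
      rw [add_comm (p j)]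
      exact this
    rw [h1, Submodule.coe_add, S.rep_apply]
    change _ = p (j + 1) + ((h j).1.linear (v : E) + ((h j).1 (p j) - p (j + 1)))
    abel
  -- finiteness
  set ρ : ℝ := 6 * C ^ 3 * Um with hρ
  set K' : Set E := (fun q : E × S.U => q.1 + (q.2 : E)) '' (K ×ˢ Metric.closedBall 0 ρ) with hK'
  have hK'c : IsCompact K' := by
    haveI : ProperSpace S.U := FiniteDimensional.proper ℝ S.U
    exact (hK.prod (isCompact_closedBall 0 ρ)).image (by fun_prop)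
  have hK'X : K' ⊆ D.X := by
    rintro _ ⟨⟨a, v⟩, ⟨ha, -⟩, rfl⟩
    have h1 : (v : E) ∈ linSub D := S.le v.2
    have h2 := h1 a (hKX ha) 1
    rw [one_smul] at h2
    exact h2
  have hmove : ∀ m : ℕ, (((w m : G₀) : D.Γ) : E ≃ᵃ[ℝ] E) ∈
      {g : E ≃ᵃ[ℝ] E | g ∈ D.Γ ∧ ∃ x ∈ K', g x ∈ K'} := by
    intro m
    obtain ⟨v, hv, hv0, hvm⟩ := hyp_seq C η Um hC hη hηC (le_max_left _ _) A A' hA hA' Y hY Xj
      (fun j => N (f j)) Rj (fun j => hX _ (hfF j)) (fun j => hNC _ (hfF j))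
      (fun j => hR _ (hfF j)) (fun j t => hN _ (hfF j) t) u huU m
    refine ⟨((w m : G₀) : D.Γ).2, p 0 + (v 0 : E), ?_, ?_⟩
    · exact ⟨(p 0, v 0), ⟨hpK 0, by rw [mem_closedBall_zero_iff]; exact hv0⟩, rfl⟩
    · have hind : ∀ j ≤ m, (((w j : G₀) : D.Γ) : E ≃ᵃ[ℝ] E) (p 0 + (v 0 : E)) =
          p j + (v j : E) := by
        intro j hj
        induction j with
        | zero =>
          rw [hw0]
          rfl
        | succ j ih =>
          have h1 : (((w (j + 1) : G₀) : D.Γ) : E ≃ᵃ[ℝ] E) (p 0 + (v 0 : E)) =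
              (h j).1 ((((w j : G₀) : D.Γ) : E ≃ᵃ[ℝ] E) (p 0 + (v 0 : E))) := by
            rw [hwh j]
            rfl
          rw [h1, ih (by omega), hstep, hrep, ← hv j (by omega)]
      rw [hind m le_rfl]
      exact ⟨(p m, v m), ⟨hpK m, by rw [mem_closedBall_zero_iff]; exact hvm⟩, rfl⟩
  have hfin := D.pd K' hK'X hK'c
  have hninj : ¬ Function.Injective
      (fun m : ℕ => (((w m : G₀) : D.Γ) : E ≃ᵃ[ℝ] E)) := by
    intro hinj
    exact (Set.infinite_of_injective_forall_mem hinj hmove) hfin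
  have hex : ∃ l m : ℕ, l < m ∧ ((w l : G₀) : D.Γ) = ((w m : G₀) : D.Γ) := by
    rw [Function.Injective] at hninj
    push Not at hninj
    obtain ⟨a, b, hab, hne⟩ := hninj
    rcases lt_or_gt_of_ne hne with hlt | hlt
    · exact ⟨a, b, hlt, Subtype.ext hab⟩
    · exact ⟨b, a, hlt, Subtype.ext hab.symm⟩
  obtain ⟨l, m, hlm, hwlm⟩ := hex
  -- growth
  obtain ⟨t, ht⟩ := exists_ne (0 : T)
  set v0 : S.U := Xj l t with hv0
  set z : S.U := S.rep (((w l : G₀) : D.Γ))⁻¹ v0 with hz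
  set v : ℕ → S.U := fun j => S.rep ((w (l + j) : G₀) : D.Γ) z with hv
  have hv00 : v 0 = v0 := by
    have h1 : S.rep ((w l : G₀) : D.Γ) * S.rep (((w l : G₀) : D.Γ))⁻¹ = 1 := by
      rw [← map_mul, mul_inv_cancel, map_one]
    change (S.rep ((w l : G₀) : D.Γ) * S.rep (((w l : G₀) : D.Γ))⁻¹) v0 = v0
    rw [h1]
    rfl
  have hvs : ∀ j < m - l, v (j + 1) = Xj (l + j) (A (Y (v j))) + Rj (l + j) (v j) := by
    intro j _
    rw [← hrep]
    have h1 : S.rep ((w (l + (j + 1)) : G₀) : D.Γ) =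
        S.rep (h (l + j)) * S.rep ((w (l + j) : G₀) : D.Γ) := by
      rw [← map_mul, ← hwh (l + j)]
      rfl
    change S.rep ((w (l + (j + 1)) : G₀) : D.Γ) z = _
    rw [h1]
    rfl
  have hvm : v (m - l) = v 0 := by
    change S.rep ((w (l + (m - l)) : G₀) : D.Γ) z = S.rep ((w l : G₀) : D.Γ) z
    rw [hwlm]
    congr 4
    omega
  have hNt : N (f l) (Y v0) = t := hN _ (hfF l) t
  have hC0 : (0 : ℝ) ≤ C := le_trans zero_le_one hC
  have hY0 : Y v0 ≠ 0 := by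
    intro h0
    rw [h0, map_zero] at hNt
    exact ht hNt.symm
  have h0 : ‖v 0‖ ≤ 4 * C ^ 2 * ‖Y (v 0)‖ := by
    rw [hv00]
    have h1 : ‖v0‖ ≤ C * ‖t‖ := (ContinuousLinearMap.le_opNorm _ _).trans
      (mul_le_mul_of_nonneg_right (hX _ (hfF l)) (norm_nonneg _))
    have h2 : ‖t‖ ≤ C * ‖Y v0‖ := by
      conv_lhs => rw [← hNt]
      exact (ContinuousLinearMap.le_opNorm _ _).trans
        (mul_le_mul_of_nonneg_right (hNC _ (hfF l)) (norm_nonneg _))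
    have h3 : C * ‖t‖ ≤ C * (C * ‖Y v0‖) := mul_le_mul_of_nonneg_left h2 hC0
    have h4 : 0 ≤ C ^ 2 * ‖Y v0‖ := by positivity
    nlinarith
  have hgrow := hyp_grow C η hC hη hηC A A' hA hA' Y hY (fun j => Xj (l + j))
      (fun j => N (f (l + j))) (fun j => Rj (l + j)) (fun j => hX _ (hfF _))
      (fun j => hNC _ (hfF _)) (fun j => hR _ (hfF _)) (fun j t => hN _ (hfF _) t) (m - l) v hvs h0
  rw [hvm, hv00] at hgrow
  have hpos : 0 < ‖Y v0‖ := norm_pos_iff.2 hY0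
  have h2 : (2 : ℝ) ≤ 2 ^ (m - l) := by
    calc (2 : ℝ) = 2 ^ 1 := (pow_one _).symm
      _ ≤ 2 ^ (m - l) := pow_le_pow_right₀ (by norm_num) (by omega)
  nlinarith

theorem steer (D : Geo E) (S : InvSub D) (G₀ : Subgroup D.Γ) {T : Type*} [NormedAddCommGroup T]
    [NormedSpace ℝ T] [FiniteDimensional ℝ T] [Nontrivial T] (γ : ℕ → D.Γ)
    (hγ : ∀ n, γ n ∈ G₀) (C : ℝ) (hb : ∀ n, ‖S.base (γ n)‖ ≤ C)
    (hb' : ∀ n, ‖S.base (γ n)⁻¹‖ ≤ C) (Xn : ℕ → T →L[ℝ] S.U) (An An' : ℕ → T →L[ℝ] T)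
    (Yn : ℕ → S.U →L[ℝ] T) (Rn : ℕ → S.U →L[ℝ] S.U) (X : T →L[ℝ] S.U) (Y : S.U →L[ℝ] T)
    (hdec : ∀ n u, S.rep (γ n) u = Xn n (An n (Yn n u)) + Rn n u)
    (hA : ∀ n t, An' n (An n t) = t) (hA0 : Tendsto (fun n => ‖An' n‖) atTop (𝓝 0))
    (hR0 : Tendsto (fun n => ‖Rn n‖) atTop (𝓝 0)) (hX : Tendsto Xn atTop (𝓝 X))
    (hY : Tendsto Yn atTop (𝓝 Y))
    (hdense : ∀ g ∈ G₀, ∀ ε : ℝ, 0 < ε → ∃ f ∈ G₀, ‖S.base f - S.base g‖ < ε ∧
      ∀ t, Y (S.rep f (X t)) = 0 → t = 0) : False := by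
  classical
  obtain ⟨φ, F, n₀, hφ, hFfin, hFP, hsel⟩ := steer_sel (S.base.comp G₀.subtype)
    {f : G₀ | ∀ t, Y (S.rep (f : D.Γ) (X t)) = 0 → t = 0} (by
      intro g ε hε
      obtain ⟨f, hf, h1, h2⟩ := hdense g g.2 ε hε
      exact ⟨⟨f, hf⟩, h2, h1⟩) (fun n => ⟨γ n, hγ n⟩) C hb hb'
  have hφt : Tendsto φ atTop atTop := hφ.tendsto_atTop
  have hXφ : Tendsto (fun n => Xn (φ n)) atTop (𝓝 X) := hX.comp hφt
  have hYφ : Tendsto (fun n => Yn (φ n)) atTop (𝓝 Y) := hY.comp hφt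
  have hR1 : Tendsto Rn atTop (𝓝 0) := by
    have h1 := (tendsto_zero_iff_norm_tendsto_zero (f := Rn) (a := atTop)).2
    exact h1 hR0
  have hRφ : Tendsto (fun n => Rn (φ n)) atTop (𝓝 0) := hR1.comp hφt
  have hAφ : Tendsto (fun n => ‖An' (φ n)‖) atTop (𝓝 0) := hA0.comp hφt
  obtain ⟨B1, hB1⟩ := (hFfin.image (fun f : G₀ =>
    ‖Ring.inverse (Y.comp ((S.rep (f : D.Γ)).comp X))‖)).bddAbove
  obtain ⟨B2, hB2⟩ := (hFfin.image (fun f : G₀ => ‖(S.rep (f : D.Γ)).comp X‖)).bddAbove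
  set C₁ : ℝ := max 1 (max (‖Y‖ + 1) (max (B1 + 1) (B2 + 1))) with hC₁
  have hC1 : 1 ≤ C₁ := le_max_left _ _
  have hC2 : ‖Y‖ + 1 ≤ C₁ := (le_max_left _ _).trans (le_max_right _ _)
  have hC3 : B1 + 1 ≤ C₁ :=
    (le_max_left _ _).trans ((le_max_right _ _).trans (le_max_right _ _))
  have hC4 : B2 + 1 ≤ C₁ :=
    (le_max_right _ _).trans ((le_max_right _ _).trans (le_max_right _ _))
  have hCpos : 0 < C₁ := lt_of_lt_of_le one_pos hC1
  set η : ℝ := 1 / (6 * C₁ ^ 3) with hη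
  have hηpos : 0 < η := by positivity
  have hηC : η * (6 * C₁ ^ 3) ≤ 1 := by
    rw [hη, one_div, inv_mul_cancel₀ (by positivity)]
  have ev1 : ∀ᶠ n in atTop, ‖An' (φ n)‖ < η := hAφ.eventually_lt_const hηpos
  have hYC : ‖Y‖ < C₁ := by linarith
  have ev2 : ∀ᶠ n in atTop, ‖Yn (φ n)‖ < C₁ := steer_ev hYφ hYC
  have ev3 : ∀ᶠ n in atTop, ∀ f ∈ F, ‖(S.rep ((f : G₀) : D.Γ)).comp (Xn (φ n))‖ < C₁ := by
    rw [eventually_all_finite hFfin]
    intro f hf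
    have h1 : ‖(S.rep (f : D.Γ)).comp X‖ ≤ B2 := hB2 (Set.mem_image_of_mem _ hf)
    have h2 : ‖(S.rep (f : D.Γ)).comp X‖ < C₁ := by linarith
    exact steer_ev (steer_tendsto_comp tendsto_const_nhds hXφ) h2
  have ev4 : ∀ᶠ n in atTop, ∀ f ∈ F, ‖(S.rep ((f : G₀) : D.Γ)).comp (Rn (φ n))‖ < η := by
    rw [eventually_all_finite hFfin]
    intro f hf
    refine steer_ev (steer_tendsto_comp (tendsto_const_nhds (x := S.rep ((f : G₀) : D.Γ))) hRφ) ?_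
    rw [ContinuousLinearMap.comp_zero, norm_zero]
    exact hηpos
  have ev5 : ∀ᶠ n in atTop, ∀ f ∈ F, ∃ N : T →L[ℝ] T, ‖N‖ ≤ B1 + 1 ∧
      ∀ t, N (((Yn (φ n)).comp ((S.rep ((f : G₀) : D.Γ)).comp (Xn (φ n)))) t) = t := by
    rw [eventually_all_finite hFfin]
    intro f hf
    have h1 : Tendsto (fun n => (Yn (φ n)).comp ((S.rep ((f : G₀) : D.Γ)).comp (Xn (φ n))))
        atTop (𝓝 (Y.comp ((S.rep ((f : G₀) : D.Γ)).comp X))) :=
      steer_tendsto_comp hYφ (steer_tendsto_comp tendsto_const_nhds hXφ)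
    have h2 : ∀ t, (Y.comp ((S.rep ((f : G₀) : D.Γ)).comp X)) t = 0 → t = 0 :=
      fun t ht => hFP hf t ht
    exact steer_unit h1 h2 B1 (hB1 (Set.mem_image_of_mem _ hf))
  obtain ⟨n, hn1, hn2, hn3, hn4, hn5, hn6⟩ :=
    (ev1.and (ev2.and (ev3.and (ev4.and (ev5.and (eventually_ge_atTop n₀)))))).exists
  refine steer_core D S G₀ F hFfin ⟨γ (φ n), hγ _⟩ C₁ η hC1 hηpos.le hηC
    (fun x hx => hsel n hn6 x hx) (Xn (φ n)) (An (φ n)) (An' (φ n)) (Yn (φ n)) (Rn (φ n))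
    (hdec (φ n)) (hA (φ n)) hn1.le hn2.le (fun f hf => (hn3 f hf).le)
    (fun f hf => (hn4 f hf).le) (fun f hf => ?_)
  obtain ⟨N, hN1, hN2⟩ := hn5 f hf
  exact ⟨N, hN1.trans hC3, hN2⟩

end

end Pool.AF
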