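import Pool.Agent.Helper94.AB.IrrN
import Pool.Agent.Helper94.AB.Steer
import Pool.Agent.Helper94.AB.RankOne
import Pool.Agent.Helper94.AB.Dense

/-!
# The norms of an element and of its inverse are comparable
-/

open Set Filter Topology

set_option linter.unusedSectionVars false

namespace Pool.AF

open Pool.SV

section

variable {E : Type*} [NormedAddCommGroup E] [NormedSpace ℝ E] [FiniteDimensional ℝ E]
  {D : Geo E}

/-- The common hypotheses. -/
structure InvSub.Good (S : InvSub D) : Prop where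
  h3 : Module.finrank ℝ S.U = 3
  irr : S.Irr
  nd : ¬ DiscMod (hatHom D.Γ) S.e
  mod : modSub D S.U = ⊥
  ab : ¬ HasAbNormal D.Γ

theorem dense_rep (S : InvSub D) (hS : S.Good) (x : S.U) (hx : x ≠ 0) (y : S.U →L[ℝ] ℝ)
    (hy : y ≠ 0) (g : D.Γ) (hg : g ∈ commutator D.Γ) (ε : ℝ) (hε : 0 < ε) :
    ∃ f ∈ commutator D.Γ, ‖S.base f - S.base g‖ < ε ∧ y (S.rep f x) ≠ 0 := by
  refine dense_pair S.base S.lrep (commutator D.Γ)
    (fun ε hε U hU => irr_near S hS.h3 hS.irr hS.nd hS.mod hS.ab ε hε U hU) x hx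
    (y : S.U →ₗ[ℝ] ℝ) ?_ g hg ε hε
  intro h
  apply hy
  apply ContinuousLinearMap.ext
  intro v
  exact LinearMap.congr_fun h v

theorem det_rep (S : InvSub D) (g : D.Γ) (hg : g ∈ commutator D.Γ) :
    LinearMap.det ((S.rep g : S.U →L[ℝ] S.U) : S.U →ₗ[ℝ] S.U) = 1 :=
  det_commutator S.lrep g hg

theorem ratio (S : InvSub D) (hS : S.Good) (C : ℝ) : ∃ κ : ℝ, 0 < κ ∧
    ∀ f ∈ commutator D.Γ, ‖S.base f‖ ≤ C → ‖S.base f⁻¹‖ ≤ C →
      κ * ‖S.rep f‖ ≤ ‖S.rep f⁻¹‖ := by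
  by_contra hcon
  push Not at hcon
  have h1 : ∀ n : ℕ, ∃ f ∈ commutator D.Γ, ‖S.base f‖ ≤ C ∧ ‖S.base f⁻¹‖ ≤ C ∧
      ‖S.rep f⁻¹‖ < (1 / ((n : ℝ) + 1)) * ‖S.rep f‖ := fun n => hcon _ (by positivity)
  choose f hf hb hb' hr using h1
  have hpos : ∀ n, 0 < ‖S.rep (f n)‖ := by
    intro n
    by_contra h
    have h2 : ‖S.rep (f n)‖ = 0 := le_antisymm (not_lt.mp h) (norm_nonneg (S.rep (f n)))
    have h3 := hr n
    rw [h2, mul_zero] at h3
    exact absurd h3 (not_lt.mpr (norm_nonneg (S.rep (f n)⁻¹)))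
  have hlim : Tendsto (fun n => ‖S.rep (f n)⁻¹‖ / ‖S.rep (f n)‖) atTop (𝓝 0) := by
    refine squeeze_zero (fun n => by positivity) (fun n => ?_)
      tendsto_one_div_add_atTop_nhds_zero_nat
    rw [div_le_iff₀ (hpos n)]
    exact (hr n).le
  obtain ⟨φ, a, x, y, x₀, y₀, hφ, hx₀, hy₀, hx, hy, ha, ha0, hR⟩ :=
    rank_one_dec hS.h3 (fun n => S.rep (f n)) (fun n => S.rep (f n)⁻¹)
      (fun n => rep_mul_inv S (f n)) (fun n => det_rep S (f n) (hf n)) hlim
  refine steer D S (commutator D.Γ) (T := ℝ) (fun n => f (φ n)) (fun n => hf _) C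
    (fun n => hb _) (fun n => hb' _)
    (fun n => (ContinuousLinearMap.id ℝ ℝ).smulRight (x n))
    (fun n => a n • ContinuousLinearMap.id ℝ ℝ) (fun n => (a n)⁻¹ • ContinuousLinearMap.id ℝ ℝ)
    y (fun n => S.rep (f (φ n)) - (y n).smulRight (a n • x n))
    ((ContinuousLinearMap.id ℝ ℝ).smulRight x₀) y₀ ?_ ?_ ?_ hR ?_ hy ?_
  · intro n u
    simp only [ContinuousLinearMap.smulRight_apply, FunLike.coe_smul,
      ContinuousLinearMap.coe_id', Pi.smul_apply, id_eq, smul_eq_mul,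
      FunLike.coe_sub, Pi.sub_apply]
    rw [smul_smul, mul_comm (a n)]
    abel
  · intro n t
    simp only [FunLike.coe_smul, ContinuousLinearMap.coe_id', Pi.smul_apply, id_eq,
      smul_eq_mul]
    rw [← mul_assoc, inv_mul_cancel₀ (ha n), one_mul]
  · have h4 : Tendsto (fun n => ‖(a n)⁻¹‖ * ‖ContinuousLinearMap.id ℝ ℝ‖) atTop (𝓝 0) := by
      have := (ha0.norm).mul_const ‖ContinuousLinearMap.id ℝ ℝ‖
      simpa using this
    refine h4.congr (fun n => ?_)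
    rw [norm_smul]
  · have h5 : Continuous (fun x : S.U => (ContinuousLinearMap.id ℝ ℝ).smulRight x) :=
      ((ContinuousLinearMap.smulRightL ℝ ℝ S.U) (ContinuousLinearMap.id ℝ ℝ)).continuous
    exact (h5.tendsto x₀).comp hx
  · intro g hg ε hε
    obtain ⟨k, hk, hk1, hk2⟩ := dense_rep S hS x₀ hx₀ y₀ hy₀ g hg ε hε
    refine ⟨k, hk, hk1, fun t ht => ?_⟩
    simp only [ContinuousLinearMap.smulRight_apply, ContinuousLinearMap.coe_id', id_eq,
      map_smul, smul_eq_mul, mul_eq_zero] at ht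
    exact ht.resolve_right hk2

end

end Pool.AF
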