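import Pool.Agent.Helper94.AB.RankOne
import Pool.Agent.Helper94.AB.LimChar

/-!
# The limit rank one maps and the limit character
-/

open Set Filter Topology

set_option linter.unusedSectionVars false

namespace Pool.AF

section

variable {G R W : Type*} [Group G] [NormedRing R] [NormedAlgebra ℝ R] [CompleteSpace R]
  [NormedAddCommGroup W] [NormedSpace ℝ W] [FiniteDimensional ℝ W]

/-- The hypotheses on a group with a homomorphism to a normed algebra (the action on the base) and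
a representation. -/
structure Rec3 (τ : G →* R) (ρ : G →* (W →L[ℝ] W)) (N : Subgroup G) : Prop where
  h3 : Module.finrank ℝ W = 3
  det : ∀ g ∈ N, LinearMap.det ((ρ g : W →L[ℝ] W) : W →ₗ[ℝ] W) = 1
  rat : ∀ C : ℝ, ∃ κ : ℝ, 0 < κ ∧ ∀ f ∈ N, ‖τ f‖ ≤ C → ‖τ f⁻¹‖ ≤ C → κ * ‖ρ f‖ ≤ ‖ρ f⁻¹‖
  large : ∀ C ε : ℝ, 0 < ε → ∃ c ∈ N, ‖τ c - 1‖ < ε ∧ (C < ‖ρ c‖ ∨ C < ‖ρ c⁻¹‖)
  dense : ∀ x : W, x ≠ 0 → ∀ y : W →L[ℝ] ℝ, y ≠ 0 → ∀ g ∈ N, ∀ ε : ℝ, 0 < ε →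
    ∃ f ∈ N, ‖τ f - τ g‖ < ε ∧ y (ρ f x) ≠ 0

/-- Data of the limit of a sequence of elements tending to the identity. -/
structure LimData (τ : G →* R) (ρ : G →* (W →L[ℝ] W)) (N : Subgroup G) where
  γ : ℕ → G
  a : ℕ → ℝ
  x : W
  y : W →L[ℝ] ℝ
  x' : W
  y' : W →L[ℝ] ℝ
  mem : ∀ n, γ n ∈ N
  pos : ∀ n, 0 < a n
  base : Tendsto (fun n => τ (γ n)) atTop (𝓝 1)
  base' : Tendsto (fun n => τ (γ n)⁻¹) atTop (𝓝 1)
  hx : x ≠ 0
  hy : y ≠ 0
  hx' : x' ≠ 0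
  hy' : y' ≠ 0
  lim : Tendsto (fun n => (a n)⁻¹ • ρ (γ n)) atTop (𝓝 (y.smulRight x))
  lim' : Tendsto (fun n => (a n)⁻¹ • ρ (γ n)⁻¹) atTop (𝓝 (y'.smulRight x'))

theorem hom_mul_inv {M : Type*} [Monoid M] (τ : G →* M) (g : G) : τ g * τ g⁻¹ = 1 := by
  rw [← map_mul, mul_inv_cancel, map_one]

theorem hom_inv_mul {M : Type*} [Monoid M] (τ : G →* M) (g : G) : τ g⁻¹ * τ g = 1 := by
  rw [← map_mul, inv_mul_cancel, map_one]

/-- The inverses of elements tending to the identity. -/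
theorem tendsto_base_inv (τ : G →* R) (γ : ℕ → G)
    (h : Tendsto (fun n => τ (γ n)) atTop (𝓝 1)) :
    Tendsto (fun n => τ (γ n)⁻¹) atTop (𝓝 1) := by
  have h1 : ∀ n, Ring.inverse (τ (γ n)) = τ (γ n)⁻¹ := by
    intro n
    exact Ring.inverse_unit (⟨τ (γ n), τ (γ n)⁻¹, hom_mul_inv τ _, hom_inv_mul τ _⟩ : Rˣ)
  have h2 : Tendsto (fun n => Ring.inverse (τ (γ n))) atTop (𝓝 (Ring.inverse 1)) :=
    (NormedRing.inverse_continuousAt (1 : Rˣ)).tendsto.comp h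
  rw [Ring.inverse_one] at h2
  exact h2.congr h1

variable {τ : G →* R} {ρ : G →* (W →L[ℝ] W)} {N : Subgroup G}

theorem exists_limData (hS : Rec3 τ ρ N) : Nonempty (LimData τ ρ N) := by
  -- a sequence
  have h0 : ∀ n : ℕ, ∃ c ∈ N, ‖τ c - 1‖ < 1 / ((n : ℝ) + 1) ∧
      ((n : ℝ) < ‖ρ c‖ ∨ (n : ℝ) < ‖ρ c⁻¹‖) := fun n =>
    hS.large n _ (by positivity)
  choose c hc hc1 hc2 using h0
  have hbase : Tendsto (fun n => τ (c n)) atTop (𝓝 1) := by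
    rw [tendsto_iff_norm_sub_tendsto_zero]
    exact squeeze_zero (fun n => norm_nonneg _) (fun n => (hc1 n).le)
      tendsto_one_div_add_atTop_nhds_zero_nat
  have hbase' := tendsto_base_inv τ c hbase
  obtain ⟨C₁, hC₁⟩ := hbase.norm.bddAbove_range
  obtain ⟨C₂, hC₂⟩ := hbase'.norm.bddAbove_range
  obtain ⟨κ, hκ, hrat⟩ := hS.rat (max C₁ C₂)
  have hb1 : ∀ n, ‖τ (c n)‖ ≤ max C₁ C₂ := fun n => (hC₁ ⟨n, rfl⟩).trans (le_max_left _ _)
  have hb2 : ∀ n, ‖τ (c n)⁻¹‖ ≤ max C₁ C₂ := fun n => (hC₂ ⟨n, rfl⟩).trans (le_max_right _ _)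
  have hr1 : ∀ n, κ * ‖ρ (c n)‖ ≤ ‖ρ (c n)⁻¹‖ := fun n => hrat _ (hc n) (hb1 n) (hb2 n)
  have hr2 : ∀ n, κ * ‖ρ (c n)⁻¹‖ ≤ ‖ρ (c n)‖ := by
    intro n
    have := hrat _ ((N).inv_mem (hc n)) (hb2 n) (by rw [inv_inv]; exact hb1 n)
    rwa [inv_inv] at this
  -- the norms tend to infinity
  have hlow : ∀ n : ℕ, min 1 κ * (n : ℝ) ≤ ‖ρ (c n)‖ := by
    intro n
    rcases hc2 n with h | h
    · calc min 1 κ * (n : ℝ) ≤ 1 * n :=
          mul_le_mul_of_nonneg_right (min_le_left _ _) (Nat.cast_nonneg n)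
        _ ≤ _ := by rw [one_mul]; exact h.le
    · calc min 1 κ * (n : ℝ) ≤ κ * n :=
          mul_le_mul_of_nonneg_right (min_le_right _ _) (Nat.cast_nonneg n)
        _ ≤ κ * ‖ρ (c n)⁻¹‖ := mul_le_mul_of_nonneg_left h.le hκ.le
        _ ≤ _ := hr2 n
  have hinf : Tendsto (fun n => ‖ρ (c n)‖) atTop atTop := by
    refine tendsto_atTop_mono hlow ?_
    exact tendsto_natCast_atTop_atTop.const_mul_atTop (lt_min one_pos hκ)
  have hpos : ∀ n, 0 < ‖ρ (c (n + 1))‖ := by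
    intro n
    refine lt_of_lt_of_le ?_ (hlow (n + 1))
    have := lt_min one_pos hκ
    positivity
  -- shift the sequence by one so that all the norms are positive
  set d : ℕ → G := fun n => c (n + 1) with hd
  set Nn : ℕ → ℝ := fun n => ‖ρ (d n)‖ with hNn
  have hinfN : Tendsto Nn atTop atTop := (tendsto_add_atTop_iff_nat 1).mpr hinf
  have hcpt : IsCompact (Metric.closedBall (0 : (W →L[ℝ] W) × (W →L[ℝ] W)) (max 1 κ⁻¹)) :=
    isCompact_closedBall _ _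
  have hin : ∀ n, (((Nn n)⁻¹ • ρ (d n), (Nn n)⁻¹ • ρ (d n)⁻¹) :
      (W →L[ℝ] W) × (W →L[ℝ] W)) ∈ Metric.closedBall 0 (max 1 κ⁻¹) := by
    intro n
    rw [mem_closedBall_zero_iff, Prod.norm_mk, max_le_iff]
    have hp : 0 < Nn n := hpos n
    refine ⟨?_, ?_⟩
    · rw [norm_smul, norm_inv, Real.norm_of_nonneg hp.le, inv_mul_cancel₀ hp.ne']
      exact le_max_left _ _
    · rw [norm_smul, norm_inv, Real.norm_of_nonneg hp.le]
      refine le_trans ?_ (le_max_right _ _)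
      rw [inv_mul_le_iff₀ hp, ← div_eq_mul_inv, le_div_iff₀ hκ, mul_comm]
      exact hr2 (n + 1)
  obtain ⟨⟨B, B'⟩, _, φ, hφ, hlim⟩ := hcpt.tendsto_subseq hin
  rw [Prod.tendsto_iff] at hlim
  obtain ⟨hl1, hl2⟩ := hlim
  simp only [Function.comp_def] at hl1 hl2
  have hB0 : B ≠ 0 := by
    intro h
    have h1 := hl1.norm
    rw [h, norm_zero] at h1
    have h2 : (fun n => ‖(Nn (φ n))⁻¹ • ρ (d (φ n))‖) = fun _ => (1 : ℝ) := by
      funext n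
      rw [norm_smul, norm_inv, Real.norm_of_nonneg (hpos _).le]
      exact inv_mul_cancel₀ (hpos _).ne'
    rw [h2] at h1
    exact one_ne_zero (tendsto_nhds_unique tendsto_const_nhds h1)
  have hB0' : B' ≠ 0 := by
    intro h
    have h1 := hl2.norm
    rw [h, norm_zero] at h1
    have h2 : ∀ n, κ ≤ ‖(Nn (φ n))⁻¹ • ρ (d (φ n))⁻¹‖ := by
      intro n
      rw [norm_smul, norm_inv, Real.norm_of_nonneg (hpos _).le, ← div_eq_inv_mul,
        le_div_iff₀ (hpos _)]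
      exact hr1 (φ n + 1)
    exact absurd (ge_of_tendsto' h1 h2) (not_le.mpr hκ)
  obtain ⟨x, y, hxy⟩ := rank_one_lim hS.h3 (fun n => ρ (d (φ n))) (fun n => ρ (d (φ n))⁻¹)
    (fun n => hom_mul_inv ρ _) (fun n => hS.det _ (hc _)) (fun n => Nn (φ n))
    (hinfN.comp hφ.tendsto_atTop) B B' hl1 hl2
  obtain ⟨x', y', hxy'⟩ := rank_one_lim hS.h3 (fun n => ρ (d (φ n))⁻¹)
    (fun n => ρ (d (φ n)))
    (fun n => hom_inv_mul ρ _) (fun n => hS.det _ ((N).inv_mem (hc _)))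
    (fun n => Nn (φ n)) (hinfN.comp hφ.tendsto_atTop) B' B hl2 hl1
  have hne : ∀ (B : W →L[ℝ] W) (x : W) (y : W →L[ℝ] ℝ), B ≠ 0 → B = y.smulRight x →
      x ≠ 0 ∧ y ≠ 0 := by
    intro B x y hB h
    refine ⟨fun hx => hB ?_, fun hy => hB ?_⟩
    · rw [h, hx]
      apply ContinuousLinearMap.ext
      intro v
      simp
    · rw [h, hy]
      apply ContinuousLinearMap.ext
      intro v
      simp
  refine ⟨{ γ := fun n => d (φ n), a := fun n => Nn (φ n), x := x, y := y, x' := x', y' := y',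
            mem := fun n => hc _, pos := fun n => hpos _, base := ?_, base' := ?_,
            hx := (hne B x y hB0 hxy).1, hy := (hne B x y hB0 hxy).2,
            hx' := (hne B' x' y' hB0' hxy').1, hy' := (hne B' x' y' hB0' hxy').2,
            lim := by rw [← hxy]; exact hl1, lim' := by rw [← hxy']; exact hl2 }⟩
  · exact ((tendsto_add_atTop_iff_nat 1).mpr hbase).comp hφ.tendsto_atTop
  · exact ((tendsto_add_atTop_iff_nat 1).mpr hbase').comp hφ.tendsto_atTop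

/-- The limits of the products. -/
theorem LimData.tendsto_mul (L : LimData τ ρ N) (f g : G) :
    Tendsto (fun n => (L.a n)⁻¹ • ρ (f * L.γ n * g)) atTop
      (𝓝 (ρ f * (L.y.smulRight L.x) * ρ g)) := by
  have h1 : Tendsto (fun n => ρ f * ((L.a n)⁻¹ • ρ (L.γ n)) * ρ g) atTop
      (𝓝 (ρ f * (L.y.smulRight L.x) * ρ g)) := (L.lim.const_mul _).mul_const _
  refine h1.congr (fun n => ?_)
  rw [map_mul, map_mul, mul_smul_comm, smul_mul_assoc]

theorem LimData.tendsto_mul' (L : LimData τ ρ N) (f g : G) :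
    Tendsto (fun n => (L.a n)⁻¹ • ρ (f * L.γ n * g)⁻¹) atTop
      (𝓝 (ρ g⁻¹ * (L.y'.smulRight L.x') * ρ f⁻¹)) := by
  have h1 : Tendsto (fun n => ρ g⁻¹ * ((L.a n)⁻¹ • ρ (L.γ n)⁻¹) * ρ f⁻¹) atTop
      (𝓝 (ρ g⁻¹ * (L.y'.smulRight L.x') * ρ f⁻¹)) := (L.lim'.const_mul _).mul_const _
  refine h1.congr (fun n => ?_)
  rw [mul_inv_rev, mul_inv_rev, map_mul, map_mul, mul_smul_comm, smul_mul_assoc, mul_assoc]

/-- The first coefficient. -/
noncomputable def LimData.t₁ (L : LimData τ ρ N) (f : G) : ℝ := L.y (ρ f L.x)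

/-- The second coefficient. -/
noncomputable def LimData.t₂ (L : LimData τ ρ N) (f : G) : ℝ :=
  L.y' (ρ f⁻¹ L.x')

theorem LimData.h1 (L : LimData τ ρ N) (f g : G) :
    Tendsto (fun n => L.t₁ (f * L.γ n * g) / L.a n) atTop (𝓝 (L.t₁ f * L.t₁ g)) := by
  have h2 : Continuous (fun T : W →L[ℝ] W => L.y (T L.x)) := by fun_prop
  have h3 := (h2.tendsto _).comp (L.tendsto_mul f g)
  have h4 : L.y ((ρ f * (L.y.smulRight L.x) * ρ g) L.x) = L.t₁ f * L.t₁ g := by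
    simp only [mul_apply_eq_comp, ContinuousLinearMap.smulRight_apply, map_smul,
      smul_eq_mul, LimData.t₁]
    ring
  rw [h4] at h3
  refine h3.congr (fun n => ?_)
  simp only [Function.comp_def, FunLike.coe_smul, Pi.smul_apply, map_smul, smul_eq_mul,
    LimData.t₁]
  rw [div_eq_inv_mul]

theorem LimData.h2 (L : LimData τ ρ N) (f g : G) :
    Tendsto (fun n => L.t₂ (f * L.γ n * g) / L.a n) atTop (𝓝 (L.t₂ f * L.t₂ g)) := by
  have h2 : Continuous (fun T : W →L[ℝ] W => L.y' (T L.x')) := by fun_prop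
  have h3 := (h2.tendsto _).comp (L.tendsto_mul' f g)
  have h4 : L.y' ((ρ g⁻¹ * (L.y'.smulRight L.x') * ρ f⁻¹) L.x') = L.t₂ f * L.t₂ g := by
    simp only [mul_apply_eq_comp, ContinuousLinearMap.smulRight_apply, map_smul,
      smul_eq_mul, LimData.t₂]
  rw [h4] at h3
  refine h3.congr (fun n => ?_)
  simp only [Function.comp_def, FunLike.coe_smul, Pi.smul_apply, map_smul, smul_eq_mul,
    LimData.t₂]
  rw [div_eq_inv_mul]

/-- The limits of the products with two factors. -/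
theorem LimData.tendsto_two (L : LimData τ ρ N) (f : G) :
    Tendsto (fun n => ((L.a n)⁻¹ * (L.a n)⁻¹) • ρ (L.γ n * f * L.γ n)) atTop
      (𝓝 (L.t₁ f • L.y.smulRight L.x)) := by
  have h1 : Tendsto (fun n => ((L.a n)⁻¹ • ρ (L.γ n)) * ρ f *
      ((L.a n)⁻¹ • ρ (L.γ n))) atTop
      (𝓝 ((L.y.smulRight L.x) * ρ f * (L.y.smulRight L.x))) :=
    (L.lim.mul_const _).mul L.lim
  have h2 : (L.y.smulRight L.x) * ρ f * (L.y.smulRight L.x) = L.t₁ f • L.y.smulRight L.x := by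
    apply ContinuousLinearMap.ext
    intro v
    simp only [mul_apply_eq_comp, ContinuousLinearMap.smulRight_apply, map_smul,
      smul_eq_mul, FunLike.coe_smul, Pi.smul_apply, LimData.t₁, smul_smul]
    ring_nf
  rw [h2] at h1
  refine h1.congr (fun n => ?_)
  rw [map_mul, map_mul, smul_mul_assoc, smul_mul_assoc, mul_smul_comm, smul_smul]

theorem LimData.tendsto_two' (L : LimData τ ρ N) (f : G) :
    Tendsto (fun n => ((L.a n)⁻¹ * (L.a n)⁻¹) • ρ (L.γ n * f * L.γ n)⁻¹) atTop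
      (𝓝 (L.t₂ f • L.y'.smulRight L.x')) := by
  have h1 : Tendsto (fun n => ((L.a n)⁻¹ • ρ (L.γ n)⁻¹) * ρ f⁻¹ *
      ((L.a n)⁻¹ • ρ (L.γ n)⁻¹)) atTop
      (𝓝 ((L.y'.smulRight L.x') * ρ f⁻¹ * (L.y'.smulRight L.x'))) :=
    (L.lim'.mul_const _).mul L.lim'
  have h2 : (L.y'.smulRight L.x') * ρ f⁻¹ * (L.y'.smulRight L.x') =
      L.t₂ f • L.y'.smulRight L.x' := by
    apply ContinuousLinearMap.ext
    intro v
    simp only [mul_apply_eq_comp, ContinuousLinearMap.smulRight_apply, map_smul,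
      smul_eq_mul, FunLike.coe_smul, Pi.smul_apply, LimData.t₂, smul_smul]
    ring_nf
  rw [h2] at h1
  refine h1.congr (fun n => ?_)
  rw [mul_inv_rev, mul_inv_rev, map_mul, map_mul, smul_mul_assoc, smul_mul_assoc, mul_smul_comm,
    smul_smul, mul_assoc]

theorem LimData.hbd (hS : Rec3 τ ρ N) (L : LimData τ ρ N) (C : ℝ) :
    ∃ K : ℝ, 0 < K ∧ ∀ f ∈ N, ‖τ f‖ ≤ C → ‖τ f⁻¹‖ ≤ C →
      |L.t₂ f| ≤ K * |L.t₁ f| ∧ |L.t₁ f| ≤ K * |L.t₂ f| := by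
  obtain ⟨C₁, hC₁⟩ := L.base.norm.bddAbove_range
  obtain ⟨C₂, hC₂⟩ := L.base'.norm.bddAbove_range
  set M : ℝ := max C₁ C₂ with hM
  have hb1 : ∀ n, ‖τ (L.γ n)‖ ≤ M := fun n => (hC₁ ⟨n, rfl⟩).trans (le_max_left _ _)
  have hb2 : ∀ n, ‖τ (L.γ n)⁻¹‖ ≤ M := fun n => (hC₂ ⟨n, rfl⟩).trans (le_max_right _ _)
  have hM0 : 0 ≤ M := (norm_nonneg _).trans (hb1 0)
  obtain ⟨κ, hκ, hrat⟩ := hS.rat (M * |C| * M)
  have hBpos : 0 < ‖L.y.smulRight L.x‖ := by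
    rw [ContinuousLinearMap.norm_smulRight_apply]
    exact mul_pos (norm_pos_iff.mpr L.hy) (norm_pos_iff.mpr L.hx)
  have hBpos' : 0 < ‖L.y'.smulRight L.x'‖ := by
    rw [ContinuousLinearMap.norm_smulRight_apply]
    exact mul_pos (norm_pos_iff.mpr L.hy') (norm_pos_iff.mpr L.hx')
  set b := ‖L.y.smulRight L.x‖ with hb
  set b' := ‖L.y'.smulRight L.x'‖ with hb'
  refine ⟨max (b / (κ * b')) (b' / (κ * b)) , lt_max_of_lt_left (by positivity), ?_⟩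
  intro f hf hf1 hf2
  have hmem : ∀ n, L.γ n * f * L.γ n ∈ N := fun n =>
    Subgroup.mul_mem _ (Subgroup.mul_mem _ (L.mem n) hf) (L.mem n)
  have hn1 : ∀ n, ‖τ (L.γ n * f * L.γ n)‖ ≤ M * |C| * M := by
    intro n
    rw [map_mul, map_mul]
    refine (norm_mul_le _ _).trans (mul_le_mul ((norm_mul_le _ _).trans
      (mul_le_mul (hb1 n) (hf1.trans (le_abs_self _)) (norm_nonneg _) hM0)) (hb1 n)
      (norm_nonneg _) (by positivity))
  have hn2 : ∀ n, ‖τ (L.γ n * f * L.γ n)⁻¹‖ ≤ M * |C| * M := by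
    intro n
    rw [mul_inv_rev, mul_inv_rev, map_mul, map_mul, ← mul_assoc]
    refine (norm_mul_le _ _).trans (mul_le_mul ((norm_mul_le _ _).trans
      (mul_le_mul (hb2 n) (hf2.trans (le_abs_self _)) (norm_nonneg _) hM0)) (hb2 n)
      (norm_nonneg _) (by positivity))
  have hr1 : ∀ n, κ * ‖ρ (L.γ n * f * L.γ n)‖ ≤ ‖ρ (L.γ n * f * L.γ n)⁻¹‖ := fun n =>
    hrat _ (hmem n) (hn1 n) (hn2 n)
  have hr2 : ∀ n, κ * ‖ρ (L.γ n * f * L.γ n)⁻¹‖ ≤ ‖ρ (L.γ n * f * L.γ n)‖ := by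
    intro n
    have := hrat _ ((N).inv_mem (hmem n)) (hn2 n) (by rw [inv_inv]; exact hn1 n)
    rwa [inv_inv] at this
  have hsc : ∀ n, 0 ≤ (L.a n)⁻¹ * (L.a n)⁻¹ := fun n => mul_self_nonneg _
  have hl1 := (L.tendsto_two f).norm
  have hl2 := (L.tendsto_two' f).norm
  rw [norm_smul, Real.norm_eq_abs, ← hb] at hl1
  rw [norm_smul, Real.norm_eq_abs, ← hb'] at hl2
  have e1 : κ * (|L.t₁ f| * b) ≤ |L.t₂ f| * b' := by
    refine le_of_tendsto_of_tendsto' (hl1.const_mul κ) hl2 (fun n => ?_)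
    rw [norm_smul, norm_smul, Real.norm_of_nonneg (hsc n)]
    calc κ * ((L.a n)⁻¹ * (L.a n)⁻¹ * ‖ρ (L.γ n * f * L.γ n)‖)
        = (L.a n)⁻¹ * (L.a n)⁻¹ * (κ * ‖ρ (L.γ n * f * L.γ n)‖) := by ring
      _ ≤ _ := mul_le_mul_of_nonneg_left (hr1 n) (hsc n)
  have e2 : κ * (|L.t₂ f| * b') ≤ |L.t₁ f| * b := by
    refine le_of_tendsto_of_tendsto' (hl2.const_mul κ) hl1 (fun n => ?_)
    rw [norm_smul, norm_smul, Real.norm_of_nonneg (hsc n)]
    calc κ * ((L.a n)⁻¹ * (L.a n)⁻¹ * ‖ρ (L.γ n * f * L.γ n)⁻¹‖)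
        = (L.a n)⁻¹ * (L.a n)⁻¹ * (κ * ‖ρ (L.γ n * f * L.γ n)⁻¹‖) := by ring
      _ ≤ _ := mul_le_mul_of_nonneg_left (hr2 n) (hsc n)
  constructor
  · calc |L.t₂ f| = κ * (|L.t₂ f| * b') / (κ * b') := by field_simp
      _ ≤ |L.t₁ f| * b / (κ * b') := by
          exact div_le_div_of_nonneg_right e2 (by positivity)
      _ = b / (κ * b') * |L.t₁ f| := by ring
      _ ≤ _ := mul_le_mul_of_nonneg_right (le_max_left _ _) (abs_nonneg _)
  · calc |L.t₁ f| = κ * (|L.t₁ f| * b) / (κ * b) := by field_simp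
      _ ≤ |L.t₂ f| * b' / (κ * b) := by
          exact div_le_div_of_nonneg_right e1 (by positivity)
      _ = b' / (κ * b) * |L.t₂ f| := by ring
      _ ≤ _ := mul_le_mul_of_nonneg_right (le_max_right _ _) (abs_nonneg _)

/-- The limit character. -/
theorem LimData.char (hS : Rec3 τ ρ N) (L : LimData τ ρ N) :
    ∃ χ : N → ℝ, (∀ g, 0 < χ g) ∧ (∀ g h, χ (g * h) = χ g * χ h) ∧
      ∀ f, |L.t₂ f.1| = χ f * |L.t₁ f.1| := by
  refine lim_char (τ.comp N.subtype) (fun f => L.t₁ f.1)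
    (fun f => L.t₂ f.1) (fun n => ⟨L.γ n, L.mem n⟩) L.a L.pos L.base (fun f g => L.h1 f.1 g.1)
    (fun f g => L.h2 f.1 g.1) ?_ ?_
  · intro C
    obtain ⟨K, hK, h⟩ := L.hbd hS C
    exact ⟨K, hK, fun f h1 h2 => h f.1 f.2 h1 h2⟩
  · intro g ε hε
    obtain ⟨f, hf, h1, h2⟩ := hS.dense L.x L.hx L.y L.hy g.1 g.2 ε hε
    exact ⟨⟨f, hf⟩, h1, h2⟩

end

end Pool.AF
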