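import Pool.Agent.Helper94.AB.Ratio
import Pool.Agent.Helper94.AB.Seqs
import Pool.Agent.Helper94.AB.Conn
import Pool.Agent.Helper94.AB.FormId
import Pool.Agent.Helper94.AB.FormUp

/-!
# An invariant form up to scalars
-/

open Set Filter Topology

set_option linter.unusedSectionVars false

namespace Pool.AF

open Pool.SV

/-- `conn` for a homomorphism to a finite-dimensional algebra. -/
theorem conn_alg {G A : Type*} [Group G] [Ring A] [Algebra ℝ A] [Module.Finite ℝ A]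
    (M : G →* A) : ∃ G₁ : Subgroup G, G₁.FiniteIndex ∧ ∀ ℓ₁ ℓ₂ : A →ₗ[ℝ] ℝ,
      (∀ g ∈ G₁, ℓ₁ (M g) * ℓ₂ (M g) = 0) →
        (∀ g ∈ G₁, ℓ₁ (M g) = 0) ∨ ∀ g ∈ G₁, ℓ₂ (M g) = 0 := by
  classical
  set b := Module.finBasis ℝ A with hb
  set L : A →ₐ[ℝ] Matrix (Fin (Module.finrank ℝ A)) (Fin (Module.finrank ℝ A)) ℝ :=
    Algebra.leftMulMatrix b with hL
  obtain ⟨G₁, hG, h⟩ := conn ((L.toRingHom.toMonoidHom : A →* Matrix (Fin (Module.finrank ℝ A))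
    (Fin (Module.finrank ℝ A)) ℝ).comp M)
  refine ⟨G₁, hG, fun ℓ₁ ℓ₂ h0 => ?_⟩
  -- the inverse map
  set Q : Matrix (Fin (Module.finrank ℝ A)) (Fin (Module.finrank ℝ A)) ℝ →ₗ[ℝ] A :=
    (LinearMap.applyₗ (1 : A)) ∘ₗ (Matrix.toLin b b).toLinearMap with hQ
  have hQL : ∀ a : A, Q (L a) = a := by
    intro a
    rw [hQ, LinearMap.comp_apply, hL, Algebra.leftMulMatrix_apply]
    simp
  have h1 := h (ℓ₁ ∘ₗ Q) (ℓ₂ ∘ₗ Q) (by
    intro g hg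
    have := h0 g hg
    rw [← hQL (M g)] at this
    exact this)
  rcases h1 with h1 | h1
  · left
    intro g hg
    rw [← hQL (M g)]
    exact h1 g hg
  · right
    intro g hg
    rw [← hQL (M g)]
    exact h1 g hg

section Generic

variable {G W : Type*} [Group G] [AddCommGroup W] [Module ℝ W] [FiniteDimensional ℝ W]

/-- Linear maps of `W` and of its dual. -/
private theorem two_reps (ρ : G →* (W →ₗ[ℝ] W)) (χ : G → ℝ) (hχ0 : ∀ g, 0 < χ g)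
    (hχ : ∀ g h, χ (g * h) = χ g * χ h) (x x' : W) (y y' : W →ₗ[ℝ] ℝ)
    (hab : ∀ f, |y' (ρ f⁻¹ x')| = χ f * |y (ρ f x)|) :
    ∃ G₁ : Subgroup G, G₁.FiniteIndex ∧ ∃ s : ℝ, s ≠ 0 ∧
      ∀ g ∈ G₁, y' (ρ g⁻¹ x') = s * χ g * y (ρ g x) := by
  have hχ1 : χ 1 = 1 := by
    have h1 := hχ 1 1
    rw [mul_one] at h1
    have h2 := (hχ0 1).ne'
    field_simp at h1
    exact h1.symm
  let M : G →* (W →ₗ[ℝ] W) × (W →ₗ[ℝ] W)ᵐᵒᵖ :=
    { toFun := fun g => (ρ g, (χ g)⁻¹ • MulOpposite.op (ρ g⁻¹))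
      map_one' := by
        rw [hχ1, inv_one, one_smul, inv_one, map_one]
        rfl
      map_mul' := by
        intro g h
        rw [map_mul, mul_inv_rev, map_mul, hχ, Prod.mk_mul_mk, smul_mul_smul_comm,
          ← MulOpposite.op_mul, mul_inv] }
  obtain ⟨G₁, hG, h⟩ := conn_alg M
  refine ⟨G₁, hG, ?_⟩
  -- the functionals
  let ℓ₁ : (W →ₗ[ℝ] W) × (W →ₗ[ℝ] W)ᵐᵒᵖ →ₗ[ℝ] ℝ :=
    (y ∘ₗ (LinearMap.applyₗ x)) ∘ₗ LinearMap.fst ℝ _ _
  let ℓ₂ : (W →ₗ[ℝ] W) × (W →ₗ[ℝ] W)ᵐᵒᵖ →ₗ[ℝ] ℝ :=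
    (y' ∘ₗ (LinearMap.applyₗ x')) ∘ₗ (MulOpposite.opLinearEquiv ℝ).symm.toLinearMap ∘ₗ
      LinearMap.snd ℝ _ _
  have e1 : ∀ g, ℓ₁ (M g) = y (ρ g x) := fun g => rfl
  have e2 : ∀ g, ℓ₂ (M g) = (χ g)⁻¹ * y' (ρ g⁻¹ x') := by
    intro g
    change y' (((χ g)⁻¹ • ρ g⁻¹) x') = _
    rw [LinearMap.smul_apply, map_smul, smul_eq_mul]
  have h2 := h (ℓ₂ - ℓ₁) (ℓ₂ + ℓ₁) (by
    intro g _
    rw [LinearMap.sub_apply, LinearMap.add_apply, e1, e2]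
    have h3 := congrArg (fun t => t ^ 2) (hab g)
    simp only [sq_abs, mul_pow] at h3
    have h4 := (hχ0 g).ne'
    have h5 : ((χ g)⁻¹ * y' (ρ g⁻¹ x')) ^ 2 = (y (ρ g x)) ^ 2 := by
      rw [mul_pow, h3]
      field_simp
    linear_combination h5)
  rcases h2 with h2 | h2
  · refine ⟨1, one_ne_zero, fun g hg => ?_⟩
    have h3 := h2 g hg
    rw [LinearMap.sub_apply, e1, e2, sub_eq_zero] at h3
    rw [← h3]
    have h4 := (hχ0 g).ne'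
    field_simp
  · refine ⟨-1, by norm_num, fun g hg => ?_⟩
    have h3 := h2 g hg
    rw [LinearMap.add_apply, e1, e2, add_eq_zero_iff_eq_neg] at h3
    have h4 := (hχ0 g).ne'
    have h5 : y (ρ g x) = -((χ g)⁻¹ * y' (ρ g⁻¹ x')) := by rw [h3, neg_neg]
    rw [h5]
    field_simp

end Generic

section

variable {E : Type*} [NormedAddCommGroup E] [NormedSpace ℝ E] [FiniteDimensional ℝ E]
  {D : Geo E}

theorem rec3 (S : InvSub D) (hS : S.Good) : Rec3 S.base S.rep (commutator D.Γ) where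
  h3 := hS.h3
  det := fun g hg => det_rep S g hg
  rat := ratio S hS
  large := near_large S hS.nd hS.mod hS.ab
  dense := fun x hx y hy g hg ε hε => dense_rep S hS x hx y hy g hg ε hε

theorem form_of_good (S : InvSub D) (hS : S.Good) :
    ∃ B : S.U →ₗ[ℝ] S.U →ₗ[ℝ] ℝ, (∀ x y, B x y = B y x) ∧ (∀ x, x ≠ 0 → ∃ y, B x y ≠ 0) ∧
      ∀ g, ∃ c : ℝ, 0 < c ∧ ∀ x y, B (S.lrep g x) (S.lrep g y) = c * B x y := by
  have : CompleteSpace (Alg E) := FiniteDimensional.complete ℝ (Alg E)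
  have hR := rec3 S hS
  set N := commutator D.Γ with hN
  obtain ⟨L⟩ := exists_limData hR
  obtain ⟨χ, hχ0, hχ, hab⟩ := L.char hR
  set ρ : N →* (S.U →ₗ[ℝ] S.U) := S.lrep.comp N.subtype with hρ
  obtain ⟨G₁, hG, s, hs, hid⟩ := two_reps ρ χ hχ0 hχ L.x L.x' (L.y : S.U →ₗ[ℝ] ℝ)
    (L.y' : S.U →ₗ[ℝ] ℝ) hab
  set H : Subgroup D.Γ := G₁.map N.subtype with hH
  have hHN : H ≤ N := Subgroup.map_subtype_le _
  have hHfi : H.relIndex N ≠ 0 := by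
    have h1 : H.relIndex N = G₁.index := by
      rw [Subgroup.relIndex, hH, Subgroup.subgroupOf, Subgroup.comap_map_eq_self_of_injective]
      exact Subtype.val_injective
    rw [h1]
    exact hG.index_ne_zero
  have hirrN : ∀ K : Subgroup D.Γ, K ≤ N → K.relIndex N ≠ 0 → ∀ U : Submodule ℝ S.U,
      (∀ h ∈ K, ∀ u ∈ U, S.lrep h u ∈ U) → U = ⊥ ∨ U = ⊤ := fun K hK hK' U hU =>
    irr_fin S hS.h3 hS.irr hS.nd hS.mod hS.ab K hK hK' U hU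
  obtain ⟨B, hB1, hB2, hB3⟩ := form_of_ident (G := G₁) hS.h3 (ρ.comp G₁.subtype) (by
      intro U hU
      refine hirrN H hHN hHfi U ?_
      rintro _ ⟨g, hg, rfl⟩ u hu
      exact hU ⟨g, hg⟩ u hu) (by
      intro g
      exact det_commutator S.lrep _ g.1.2) (fun g => χ g.1) (fun g => hχ0 g.1)
    (fun g h => hχ g.1 h.1) L.x L.x' (L.y : S.U →ₗ[ℝ] ℝ) (L.y' : S.U →ₗ[ℝ] ℝ) L.hx (by
      intro h
      apply L.hy
      apply ContinuousLinearMap.ext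
      intro v
      exact LinearMap.congr_fun h v) s hs (fun g => hid g.1 g.2)
  refine ⟨B, hB1, hB2, ?_⟩
  refine form_up hS.h3 S.lrep N hirrN H hHN hHfi B hB1 hB2 ?_
  rintro _ ⟨g, hg, rfl⟩ x y
  exact hB3 ⟨g, hg⟩ x y

end

end Pool.AF
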