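import Pool.Agent.Helper94.AB.Defs

/-!
# AB-1 UNI

Let `G` act on `V`, `dim V = 3`, so that every subgroup of finite index acts irreducibly, and let
`F` be a nonempty directed family of subgroups, stable under conjugation (up to passing to a
smaller member), with determinant one, whose members all act nontrivially. Then every member acts
irreducibly.

Proof. Call a subspace `U` good if it is invariant under some member of `F`. Good subspaces are
stable under `⊓`, `⊔` (directedness) and under `ρ g` (conjugation). Suppose there is a good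
subspace other than `⊥, ⊤`; let `U` be one of minimal dimension, 1 or 2.

* `dim U = 2`: for `g ∈ G`, `U ⊓ ρ g U` is good and has dimension `≥ 1`, so by minimality
  (dimension 1 is excluded) it has dimension 2 and `ρ g U = U`. So `U` is invariant under `G`:
  contradiction with `hirr ⊤`.
* `dim U = 1`: let `v` span `U`. The sum of all the lines `ρ g U` is `G`-invariant, so it is `V`,
  and there are `g 0, g 1, g 2` such that `ρ (g i) v` is a basis of `V`. By directedness one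
  member `Δ` preserves the three lines, with characters `χ 0, χ 1, χ 2 : Δ → ℝ`. Say `i ∼ j` if
  `χ i = χ j` on some member `Δ' ≤ Δ`; shrink `Δ` so that for all `i, j` either `χ i = χ j` on `Δ`
  or they are different on every member contained in `Δ`. For a vector `w` let `same w` be the set
  of all `u` such that on some member `Δ' ≤ Δ` one has `∀ δ ∈ Δ', ∀ c, ρ δ w = c • w → ρ δ u = c • u`
  (see `Pool/Agent/Helper94/AL/Cliff.lean`, where this is done for one normal subgroup instead of a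
  family; the same proof works). The (at most three) subspaces `same (b i)` are permuted by `G`:
  so the stabiliser of `same (b 0)` has finite index, and by `hirr` `same (b 0) = V`. Then some
  member `Δ'` acts on `V` by scalars `c δ`, with `c δ ^ 3 = det = 1`, so `c δ = 1` and `Δ'` acts
  trivially: contradiction with `hnt`.
-/

open Set

set_option linter.unusedSectionVars false

namespace Pool.AF

section Uni

variable {G V : Type*} [Group G] [AddCommGroup V] [Module ℝ V]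

private theorem inv_app (ρ : G →* (V →ₗ[ℝ] V)) (g : G) (v : V) : ρ g⁻¹ (ρ g v) = v := by
  have h : ρ g⁻¹ * ρ g = 1 := by rw [← map_mul, inv_mul_cancel, map_one]
  exact LinearMap.congr_fun h v

private theorem app_inv (ρ : G →* (V →ₗ[ℝ] V)) (g : G) (v : V) : ρ g (ρ g⁻¹ v) = v := by
  have h : ρ g * ρ g⁻¹ = 1 := by rw [← map_mul, mul_inv_cancel, map_one]
  exact LinearMap.congr_fun h v

private theorem conj_app (ρ : G →* (V →ₗ[ℝ] V)) (g δ : G) (v : V) :
    ρ δ (ρ g v) = ρ g (ρ (g⁻¹ * δ * g) v) := by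
  have h : ρ δ * ρ g = ρ g * ρ (g⁻¹ * δ * g) := by
    rw [← map_mul, ← map_mul]; congr 1; group
  exact LinearMap.congr_fun h v

/-- A nonempty directed family stable under conjugation. -/
private structure Fam (F : Set (Subgroup G)) : Prop where
  ne : F.Nonempty
  dir : ∀ Δ ∈ F, ∀ Δ' ∈ F, ∃ Δ'' ∈ F, Δ'' ≤ Δ ∧ Δ'' ≤ Δ'
  conj : ∀ g : G, ∀ Δ ∈ F, ∃ Δ' ∈ F, ∀ δ ∈ Δ', g⁻¹ * δ * g ∈ Δ

private theorem Fam.common {F : Set (Subgroup G)} (hF : Fam F) {ι : Type*} (s : Finset ι)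
    (D : ι → Subgroup G) (hD : ∀ i, D i ∈ F) : ∃ Δ ∈ F, ∀ i ∈ s, Δ ≤ D i := by
  classical
  induction s using Finset.induction_on with
  | empty =>
    obtain ⟨Δ, hΔ⟩ := hF.ne
    exact ⟨Δ, hΔ, fun i hi => absurd hi (Finset.notMem_empty i)⟩
  | insert a s _ ih =>
    obtain ⟨Δ, hΔ, h⟩ := ih
    obtain ⟨Δ', hΔ', h1, h2⟩ := hF.dir Δ hΔ (D a) (hD a)
    refine ⟨Δ', hΔ', fun i hi => ?_⟩
    rcases Finset.mem_insert.1 hi with h3 | h3
    · rw [h3]; exact h2
    · exact h1.trans (h i h3)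

/-- The vectors with the same character as `v` on some member. -/
private def same (ρ : G →* (V →ₗ[ℝ] V)) {F : Set (Subgroup G)} (hF : Fam F) (v : V) :
    Submodule ℝ V where
  carrier := {w | ∃ Δ ∈ F, ∀ δ ∈ Δ, ∀ c : ℝ, ρ δ v = c • v → ρ δ w = c • w}
  add_mem' := by
    rintro a b ⟨Δ, hΔ, ha⟩ ⟨Δ', hΔ', hb⟩
    obtain ⟨Δ'', hΔ'', h1, h2⟩ := hF.dir Δ hΔ Δ' hΔ'
    refine ⟨Δ'', hΔ'', fun δ hδ c hc => ?_⟩
    rw [map_add, ha δ (h1 hδ) c hc, hb δ (h2 hδ) c hc, smul_add]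
  zero_mem' := by
    obtain ⟨Δ, hΔ⟩ := hF.ne
    refine ⟨Δ, hΔ, fun δ _ c _ => ?_⟩
    rw [map_zero, smul_zero]
  smul_mem' := by
    rintro r w ⟨Δ, hΔ, hw⟩
    refine ⟨Δ, hΔ, fun δ hδ c hc => ?_⟩
    rw [map_smul, hw δ hδ c hc, smul_comm]

private theorem self_mem (ρ : G →* (V →ₗ[ℝ] V)) {F : Set (Subgroup G)} (hF : Fam F) (v : V) :
    v ∈ same ρ hF v := by
  obtain ⟨Δ, hΔ⟩ := hF.ne
  exact ⟨Δ, hΔ, fun _ _ _ hc => hc⟩

private theorem same_app (ρ : G →* (V →ₗ[ℝ] V)) {F : Set (Subgroup G)} (hF : Fam F) (g : G)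
    (v w : V) (hw : w ∈ same ρ hF v) : ρ g w ∈ same ρ hF (ρ g v) := by
  obtain ⟨Δ, hΔ, hw⟩ := hw
  obtain ⟨Δ', hΔ', h⟩ := hF.conj g Δ hΔ
  refine ⟨Δ', hΔ', fun δ hδ c hc => ?_⟩
  have hδ' := h δ hδ
  rw [conj_app] at hc ⊢
  have h1 : ρ (g⁻¹ * δ * g) v = c • v := by
    have h2 := congrArg (ρ g⁻¹) hc
    rw [inv_app, map_smul, inv_app] at h2
    exact h2
  rw [hw _ hδ' c h1, map_smul]

private theorem map_same (ρ : G →* (V →ₗ[ℝ] V)) {F : Set (Subgroup G)} (hF : Fam F) (g : G)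
    (v : V) : (same ρ hF v).map (ρ g) = same ρ hF (ρ g v) := by
  apply le_antisymm
  · rintro _ ⟨w, hw, rfl⟩
    exact same_app ρ hF g v w hw
  · intro w hw
    refine ⟨ρ g⁻¹ w, ?_, app_inv ρ g w⟩
    have := same_app ρ hF g⁻¹ _ w hw
    rwa [inv_app] at this

/-- Common eigenvectors of some member. -/
private def ceig (ρ : G →* (V →ₗ[ℝ] V)) (F : Set (Subgroup G)) : Set V :=
  {v | ∃ Δ ∈ F, ∀ δ ∈ Δ, ∃ c : ℝ, ρ δ v = c • v}

private theorem ceig_app (ρ : G →* (V →ₗ[ℝ] V)) {F : Set (Subgroup G)} (hF : Fam F) (g : G)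
    (v : V) (hv : v ∈ ceig ρ F) : ρ g v ∈ ceig ρ F := by
  obtain ⟨Δ, hΔ, hv⟩ := hv
  obtain ⟨Δ', hΔ', h⟩ := hF.conj g Δ hΔ
  refine ⟨Δ', hΔ', fun δ hδ => ?_⟩
  obtain ⟨c, hc⟩ := hv _ (h δ hδ)
  exact ⟨c, by rw [conj_app, hc, map_smul]⟩

private theorem same_eq_basis {ι : Type*} [Finite ι] (ρ : G →* (V →ₗ[ℝ] V))
    {F : Set (Subgroup G)} (hF : Fam F)
    (b : Module.Basis ι ℝ V) (hb : ∀ i, b i ∈ ceig ρ F) (v : V) (hv : v ∈ ceig ρ F)
    (hv0 : v ≠ 0) : ∃ i, same ρ hF v = same ρ hF (b i) := by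
  classical
  have := Fintype.ofFinite ι
  have h1 : ∃ i, b.repr v i ≠ 0 := by
    by_contra hcon
    push Not at hcon
    apply hv0
    apply b.repr.injective
    rw [map_zero]
    exact Finsupp.ext hcon
  obtain ⟨i, hi⟩ := h1
  refine ⟨i, ?_⟩
  choose D hD hDb using hb
  obtain ⟨D', hD', hDv⟩ := hv
  obtain ⟨D0, hD0, hD0le⟩ := hF.common Finset.univ D hD
  obtain ⟨Δ, hΔ, hΔ0, hΔ'⟩ := hF.dir D0 hD0 D' hD'
  have hbΔ : ∀ j, ∀ δ ∈ Δ, ∃ c : ℝ, ρ δ (b j) = c • b j := fun j δ hδ =>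
    hDb j δ (hD0le j (Finset.mem_univ j) (hΔ0 hδ))
  have hvΔ : ∀ δ ∈ Δ, ∃ c : ℝ, ρ δ v = c • v := fun δ hδ => hDv δ (hΔ' hδ)
  -- the characters agree
  have key : ∀ δ ∈ Δ, ∀ c c' : ℝ, ρ δ v = c • v → ρ δ (b i) = c' • b i → c = c' := by
    intro δ hδ c c' hc hc'
    have h2 : ∀ w : V, b.repr (ρ δ w) i = c' * b.repr w i := by
      have h3 : (b.coord i).comp (ρ δ) = c' • b.coord i := by
        apply b.ext
        intro j
        obtain ⟨d, hd⟩ := hbΔ j δ hδ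
        rw [LinearMap.comp_apply, hd, map_smul, LinearMap.smul_apply]
        by_cases hij : j = i
        · subst hij
          have h4 : d • b j = c' • b j := hd.symm.trans hc'
          rw [← map_smul, h4, map_smul]
        · rw [Module.Basis.coord_apply, Module.Basis.repr_self,
            Finsupp.single_eq_of_ne (Ne.symm hij), smul_zero, smul_zero]
      intro w
      exact LinearMap.congr_fun h3 w
    have h5 := h2 v
    rw [hc, map_smul, Finsupp.smul_apply, smul_eq_mul] at h5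
    exact mul_right_cancel₀ hi h5
  ext w
  constructor
  · rintro ⟨Δ1, hΔ1, hw⟩
    obtain ⟨Δ2, hΔ2, h21, h22⟩ := hF.dir Δ1 hΔ1 Δ hΔ
    refine ⟨Δ2, hΔ2, fun δ hδ c' hc' => ?_⟩
    obtain ⟨c, hc⟩ := hvΔ δ (h22 hδ)
    rw [hw δ (h21 hδ) c hc, key δ (h22 hδ) c c' hc hc']
  · rintro ⟨Δ1, hΔ1, hw⟩
    obtain ⟨Δ2, hΔ2, h21, h22⟩ := hF.dir Δ1 hΔ1 Δ hΔ
    refine ⟨Δ2, hΔ2, fun δ hδ c hc => ?_⟩
    obtain ⟨c', hc'⟩ := hbΔ i δ (h22 hδ)
    rw [hw δ (h21 hδ) c' hc', key δ (h22 hδ) c c' hc hc']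

private theorem scalar_case [FiniteDimensional ℝ V] (ρ : G →* (V →ₗ[ℝ] V))
    (hirr : ∀ H : Subgroup G, H.FiniteIndex → ∀ U : Submodule ℝ V,
      (∀ h ∈ H, ∀ u ∈ U, ρ h u ∈ U) → U = ⊥ ∨ U = ⊤)
    {F : Set (Subgroup G)} (hF : Fam F) (v : V) (hv0 : v ≠ 0) (hv : v ∈ ceig ρ F) :
    same ρ hF v = ⊤ := by
  classical
  have hS : Submodule.span ℝ (ceig ρ F) = ⊤ := by
    rcases hirr ⊤ inferInstance (Submodule.span ℝ (ceig ρ F)) (by
      intro g _ u hu
      have h1 : (Submodule.span ℝ (ceig ρ F)).map (ρ g) ≤ Submodule.span ℝ (ceig ρ F) := by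
        rw [Submodule.map_span, Submodule.span_le]
        rintro _ ⟨w, hw, rfl⟩
        exact Submodule.subset_span (ceig_app ρ hF g w hw)
      exact h1 ⟨u, hu, rfl⟩) with h | h
    · exfalso
      apply hv0
      have h2 : v ∈ Submodule.span ℝ (ceig ρ F) := Submodule.subset_span hv
      rw [h] at h2
      exact h2
    · exact h
  set b := Module.Basis.ofSpan (K := ℝ) hS.ge with hb
  have hbc : ∀ i, b i ∈ ceig ρ F := fun i => Module.Basis.ofSpan_subset hS.ge ⟨i, rfl⟩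
  let act : MulAction G (Submodule ℝ V) :=
    { smul := fun g U => U.map (ρ g)
      one_smul := by
        intro U
        show U.map (ρ 1) = U
        rw [map_one]
        exact Submodule.map_id U
      mul_smul := by
        intro g h U
        show U.map (ρ (g * h)) = (U.map (ρ h)).map (ρ g)
        rw [map_mul]
        exact Submodule.map_comp _ _ _ }
  have hact : ∀ (g : G) (U : Submodule ℝ V), g • U = U.map (ρ g) := fun _ _ => rfl
  have hfinι := Module.Finite.finite_basis b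
  have horb : (MulAction.orbit G (same ρ hF v)).Finite := by
    apply (Set.finite_range (fun i => same ρ hF (b i))).subset
    rintro _ ⟨g, rfl⟩
    show g • same ρ hF v ∈ _
    rw [hact, map_same]
    have hne : ρ g v ≠ 0 := by
      intro h0
      apply hv0
      rw [← inv_app ρ g v, h0, map_zero]
    obtain ⟨i, hi⟩ := same_eq_basis ρ hF b hbc (ρ g v) (ceig_app ρ hF g v hv) hne
    exact ⟨i, hi.symm⟩
  have hfi : (MulAction.stabilizer G (same ρ hF v)).FiniteIndex := by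
    constructor
    rw [MulAction.index_stabilizer]
    have hne : (MulAction.orbit G (same ρ hF v)).Nonempty := MulAction.nonempty_orbit _
    exact (Set.ncard_pos horb).2 hne |>.ne'
  rcases hirr _ hfi (same ρ hF v) (by
    intro h hh u hu
    have h1 : (same ρ hF v).map (ρ h) = same ρ hF v := hh
    rw [← h1]
    exact ⟨u, hu, rfl⟩) with h | h
  · exfalso
    apply hv0
    have := self_mem ρ hF v
    rw [h] at this
    exact this
  · exact h

end Uni

theorem uni {G V : Type*} [Group G] [AddCommGroup V] [Module ℝ V] [FiniteDimensional ℝ V]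
    (hV : Module.finrank ℝ V = 3) (ρ : G →* (V →ₗ[ℝ] V))
    (hirr : ∀ H : Subgroup G, H.FiniteIndex → ∀ U : Submodule ℝ V,
      (∀ h ∈ H, ∀ u ∈ U, ρ h u ∈ U) → U = ⊥ ∨ U = ⊤)
    (F : Set (Subgroup G)) (hne : F.Nonempty)
    (hdir : ∀ Δ ∈ F, ∀ Δ' ∈ F, ∃ Δ'' ∈ F, Δ'' ≤ Δ ∧ Δ'' ≤ Δ')
    (hconj : ∀ g : G, ∀ Δ ∈ F, ∃ Δ' ∈ F, ∀ δ ∈ Δ', g⁻¹ * δ * g ∈ Δ)
    (hdet : ∀ Δ ∈ F, ∀ δ ∈ Δ, LinearMap.det (ρ δ) = 1)
    (hnt : ∀ Δ ∈ F, ∃ δ ∈ Δ, ρ δ ≠ 1) :
    ∀ Δ ∈ F, ∀ U : Submodule ℝ V, (∀ δ ∈ Δ, ∀ u ∈ U, ρ δ u ∈ U) → U = ⊥ ∨ U = ⊤ := by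
  classical
  have hF : Fam F := ⟨hne, hdir, hconj⟩
  -- no member has a common eigenvector
  have hline : ∀ v : V, v ≠ 0 → v ∉ ceig ρ F := by
    intro v hv0 hv
    have htop := scalar_case ρ hirr hF v hv0 hv
    obtain ⟨D', hD', hDv⟩ := hv
    have hb : ∀ i, Module.finBasis ℝ V i ∈ same ρ hF v := by
      intro i
      rw [htop]
      trivial
    choose D hD hDb using hb
    obtain ⟨D0, hD0, hD0le⟩ := hF.common Finset.univ D hD
    obtain ⟨Δ, hΔ, hΔ0, hΔ'⟩ := hF.dir D0 hD0 D' hD'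
    obtain ⟨δ, hδ, hδ1⟩ := hnt Δ hΔ
    apply hδ1
    obtain ⟨c, hc⟩ := hDv δ (hΔ' hδ)
    have h1 : ρ δ = c • (1 : V →ₗ[ℝ] V) := by
      apply (Module.finBasis ℝ V).ext
      intro i
      rw [hDb i δ (hD0le i (Finset.mem_univ i) (hΔ0 hδ)) c hc]
      rfl
    have h2 := hdet Δ hΔ δ hδ
    rw [h1, LinearMap.det_smul, hV] at h2
    have h3 : c ^ 3 = 1 := by
      have : LinearMap.det (1 : V →ₗ[ℝ] V) = 1 := LinearMap.det_id
      rw [this, mul_one] at h2
      exact h2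
    have h4 : c = 1 := by
      have h5 : (c - 1) * (c ^ 2 + c + 1) = 0 := by linear_combination h3
      rcases mul_eq_zero.1 h5 with h6 | h6
      · linarith
      · nlinarith [sq_nonneg (c + 1 / 2)]
    rw [h1, h4, one_smul]
  have hno1 : ∀ Δ ∈ F, ∀ W : Submodule ℝ V, (∀ δ ∈ Δ, ∀ u ∈ W, ρ δ u ∈ W) →
      Module.finrank ℝ W ≠ 1 := by
    intro Δ hΔ W hW h1
    rw [finrank_eq_one_iff'] at h1
    obtain ⟨w, hw0, hw⟩ := h1
    apply hline (w : V) (fun h => hw0 (Subtype.ext h))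
    refine ⟨Δ, hΔ, fun δ hδ => ?_⟩
    obtain ⟨c, hc⟩ := hw ⟨ρ δ w, hW δ hδ w w.2⟩
    refine ⟨c, ?_⟩
    have := congrArg Subtype.val hc
    exact this.symm
  intro Δ hΔ U hU
  by_contra hcon
  push Not at hcon
  obtain ⟨hb, ht⟩ := hcon
  have hpos : 0 < Module.finrank ℝ U := by
    rw [Module.finrank_pos_iff]
    exact (Submodule.nontrivial_iff_ne_bot).2 hb
  have hlt : Module.finrank ℝ U < 3 := by
    rw [← hV]
    exact Submodule.finrank_lt ht
  have hne1 := hno1 Δ hΔ U hU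
  have h2 : Module.finrank ℝ U = 2 := by omega
  have hinj : ∀ g : G, Function.Injective (ρ g) := by
    intro g a b hab
    have := congrArg (ρ g⁻¹) hab
    rwa [inv_app, inv_app] at this
  have hG : ∀ g : G, U.map (ρ g) = U := by
    intro g
    have h3 : Module.finrank ℝ (U.map (ρ g)) = 2 := by
      rw [← h2]
      exact (LinearEquiv.finrank_eq (Submodule.equivMapOfInjective (ρ g) (hinj g) U)).symm
    obtain ⟨Δ1, hΔ1, hc1⟩ := hconj g Δ hΔ
    obtain ⟨Δ2, hΔ2, h21, h22⟩ := hdir Δ1 hΔ1 Δ hΔ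
    have hinv : ∀ δ ∈ Δ2, ∀ u ∈ U ⊓ U.map (ρ g), ρ δ u ∈ U ⊓ U.map (ρ g) := by
      rintro δ hδ u ⟨hu1, w, hw, rfl⟩
      refine ⟨hU δ (h22 hδ) _ hu1, ?_⟩
      rw [conj_app]
      exact ⟨_, hU _ (hc1 δ (h21 hδ)) w hw, rfl⟩
    have h4 := Submodule.finrank_sup_add_finrank_inf_eq U (U.map (ρ g))
    have h5 : Module.finrank ℝ (U ⊔ U.map (ρ g) : Submodule ℝ V) ≤ 3 := by
      rw [← hV]; exact Submodule.finrank_le _
    have h6 := hno1 Δ2 hΔ2 _ hinv
    have h7 : Module.finrank ℝ (U ⊓ U.map (ρ g) : Submodule ℝ V) ≤ Module.finrank ℝ U :=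
      Submodule.finrank_mono inf_le_left
    have h8 : Module.finrank ℝ (U ⊓ U.map (ρ g) : Submodule ℝ V) = 2 := by omega
    have h9 : U ⊓ U.map (ρ g) = U :=
      Submodule.eq_of_le_of_finrank_eq inf_le_left (by rw [h8, h2])
    have h10 : U ⊓ U.map (ρ g) = U.map (ρ g) :=
      Submodule.eq_of_le_of_finrank_eq inf_le_right (by rw [h8, h3])
    exact h10.symm.trans h9
  rcases hirr ⊤ inferInstance U (by
    intro g _ u hu
    have : ρ g u ∈ U.map (ρ g) := ⟨u, hu, rfl⟩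
    rwa [hG g] at this) with h | h
  · exact hb h
  · exact ht h

end Pool.AF
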